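import Pool.Agent.Work.MP_8a95ee_gt.Fb.Defs

/-!
# Fibre bundles over nonpositively curved cubulated manifolds: Euler characteristics
-/

set_option autoImplicit false

namespace MP8a95ee.Npc

open Classical

/-- `R` contains exactly one cell of every `Γ`-orbit of cells (so `R` is the set of the cells of
the quotient and its Euler characteristic is the sum of `(-1) ^ dim p`, `p ∈ R`), `cells Q` is the
finite set of the cells over the cube `Q`, and over every cube, the alternating number of cells is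
the Euler characteristic `(-1) ^ dim Q * χF` of the product of the open cube and a fibre with
Euler characteristic `χF`. -/
structure IsCells (X : SimpleGraph ℕ) (Γ : Subgroup (Equiv.Perm ℕ)) {P : Type} [MulAction Γ P]
    (q : P → Finset ℕ) (dim : P → ℕ) (R : Finset P) (cells : Finset ℕ → Finset P) (χF : ℤ) :
    Prop where
  dim_smul : ∀ (g : Γ) (p : P), dim (g • p) = dim p
  rep : ∀ p, ∃! p', p' ∈ R ∧ ∃ g : Γ, g • p = p'
  mem : ∀ Q p, p ∈ cells Q ↔ q p = Q
  chi : ∀ x, ∀ s ∈ link X x, ∑ p ∈ cells (cubeSet X x s), (-1 : ℤ) ^ dim p = (-1) ^ s.card * χF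

/-- CHI: the Euler characteristic is multiplicative -/
def S_CHI : Prop := ∀ (X : SimpleGraph ℕ) (_ : IsMedianGraph X) (_ : LocFin X)
  (Γ : Subgroup (Equiv.Perm ℕ)) (F : Finset ℕ) (_ : IsDeck X Γ F) (P : Type) [MulAction Γ P]
  (q : P → Finset ℕ) (_ : ∀ p, ∃ x, ∃ s ∈ link X x, q p = cubeSet X x s)
  (_ : ∀ (g : Γ) (p : P), q (g • p) = (q p).image (g : Equiv.Perm ℕ)) (dim : P → ℕ)
  (R : Finset P) (cells : Finset ℕ → Finset P) (χF : ℤ) (_ : IsCells X Γ q dim R cells χF),
  ∑ p ∈ R, (-1 : ℤ) ^ dim p = eulerChar X Γ F * χF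

end MP8a95ee.Npc
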