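import Pool.Agent.Work.MP_8a95ee_gt.Fb.Core
import Pool.Agent.Work.MP_8a95ee_gt.Un.Stmts

/-!
# Fibre bundles over nonpositively curved cubulated manifolds: the theorem
-/

set_option autoImplicit false

namespace MP8a95ee.Npc

open Classical

/-- NLO: normalised local functions at the tame vertices -/
def S_NLO : Prop := ∀ m N : ℕ, ∃ C : ℝ, 0 ≤ C ∧ ∀ (L : Finset (Finset ℕ)) (_ : FlagC L)
  (_ : RA.IsHSphere L (m + 1)) (o : (Fin (m + 1) → ℕ) → ℤ) (_ : IsOrient L (m + 1) o)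
  (_ : (verts L).card ≤ N ∨ ∃ P : ℕ → Fin (m + 1) → ℝ, IsFan L P),
  ∃ f : (Fin (m + 1) → Finset ℕ) → ℝ, IsLF L m o C f

/-- FBM: the theorem -/
def S_FBM : Prop := ∀ m N : ℕ, ∃ c : ℝ, 0 < c ∧
  ∀ (X : SimpleGraph ℕ) (_ : IsMedianGraph X) (_ : LocFin X)
    (_ : ∀ x, RA.IsHSphere (link X x) (m + 1))
    (Γ : Subgroup (Equiv.Perm ℕ)) (F : Finset ℕ) (_ : IsDeck X Γ F)
    (o : ℕ → (Fin (m + 1) → ℕ) → ℤ) (_ : Oriented X ⊥ (m + 1) o) (_ : ∀ x s, |o x s| ≤ 1)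
    (A B P W : Type) [TopologicalSpace A] [TopologicalSpace B] [TopologicalSpace W]
    [MulAction Γ A] [ContinuousConstSMul Γ A] (π : C(A, B)) (_ : IsReg Γ π)
    [PartialOrder P] [MulAction Γ P] (q : P → Finset ℕ)
    (S : ∀ k : ℕ, (Fin (k + 1) → P) → SSimplex A k) (_ : IsTri X Γ q S) (b : ℕ)
    (e : (Fin (m + 1 + b + 1) → P) →₀ ℝ) (_ : ∀ p ∈ e.support, StrictMono p) (_ : IsCyc Γ e)
    (x₀ : ℕ) (s₀ : Fin (m + 1) → ℕ) (_ : s₀ ∈ Dom X (m + 1) x₀) (r : C(A, W)) (ν : ℝ)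
    (_ : ∀ y : SChain W (b + 1), ν ≤ l1 (push r (fibC X Γ q S e x₀ s₀) + bd y))
    (t : ℝ) (z : SChain B (m + 1 + b)) (w : SChain B (m + 1 + b + 1)),
    z = t • totC π S e + bd w →
    c * |t| * (∑ x ∈ F.filter (Tame X m N), |∑ s ∈ link X x, (-1 / 2 : ℝ) ^ s.card|) * ν ≤ l1 z

namespace Fb

theorem prfNLO (hFLO : S_FLO) (hULO : S_ULO) (hNL : S_NL1) : S_NLO := by
  intro m N
  obtain ⟨C1, hC1, hL1⟩ := hFLO m
  obtain ⟨C2, hC2, hL2⟩ := hULO m N
  obtain ⟨M, hM, hNL⟩ := hNL m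
  refine ⟨M * max C1 C2, by positivity, ?_⟩
  intro L hL hS o ho hN
  rcases hN with hN | ⟨P, hP⟩
  · obtain ⟨f, h1, h2, h3⟩ := hL2 L hL hN hS o ho
    obtain ⟨f', k1, k2, k3, k4⟩ := hNL L hL o ho C2 hC2 f h1 h2 h3
    exact ⟨f', k1, fun T => (k2 T).trans (mul_le_mul_of_nonneg_left (le_max_right _ _) hM), k3, k4⟩
  · obtain ⟨f, h1, h2, h3⟩ := hL1 L hL hS P hP o ho
    obtain ⟨f', k1, k2, k3, k4⟩ := hNL L hL o ho C1 hC1 f h1 (fun T _ => h2 T) h3
    exact ⟨f', k1, fun T => (k2 T).trans (mul_le_mul_of_nonneg_left (le_max_left _ _) hM), k3, k4⟩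

theorem prfFBM (hDIM : S_DIM) (hDBD : S_DBD) (hNLO : S_NLO) (hUFU : S_UFU) (hZ6 : S_ZC6)
    (hCG : S_CG1) (hCG2 : S_CG2) (hPRI : S_PRI) (hRLZ : S_RLZ) (hFCE : S_FCE)
    (hAVG : S_AVG) (hTRR : S_TRR) (hTR3 : S_TR3) (hEVL : S_EVL) (hRHO : S_RHO) (hFB2 : S_FB2)
    (hFB3 : S_FB3) (hVAL : S_VAL) (hCXB : S_CXB)
    (hsupp : ∀ (L : Finset (Finset ℕ)) (_ : FlagC L) (m : ℕ) (o : (Fin (m + 1) → ℕ) → ℤ)
      (_ : IsOrient L (m + 1) o), ∀ T ∈ (RA.zeta L o).support, ∀ i, T i ∈ L) : S_FBM := by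
  intro m N
  obtain ⟨Bn, hB⟩ := hDBD (m + 1) (m + 1)
  obtain ⟨C, hC, hL⟩ := hNLO m N
  set K : ℝ := Bn * ((m + 2) * C) with hK
  have hK0 : 0 ≤ K := by positivity
  refine ⟨1 / (2 ^ m * (K + 1)), by positivity, ?_⟩
  intro X hX hf hS Γ F hD o ho ho1 A B P W _ _ _ _ _ π hπ _ _ q S hT b e he hcyc x₀ s₀ hs₀ r ν hν
    t z w hz
  have hflag := fun x => ((hZ6 X hX hf).1 x).1
  have hor := (hZ6 X hX hf).2 ⊥ (m + 1) o ho
  have hdim : ∀ x, ∀ s ∈ link X x, s.card ≤ m + 1 := fun x =>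
    hDIM (link X x) (hflag x) (m + 1) (hS x)
  set Q : ℕ → ℝ := fun x => |∑ s ∈ link X x, (-1 / 2 : ℝ) ^ s.card| with hQ
  -- the trivial case
  by_cases hν0 : ν < 0
  · have h1 : 1 / (2 ^ m * (K + 1)) * |t| * (∑ x ∈ F.filter (Tame X m N), Q x) * ν ≤ 0 := by
      apply mul_nonpos_of_nonneg_of_nonpos _ hν0.le
      have : 0 ≤ ∑ x ∈ F.filter (Tame X m N), Q x := Finset.sum_nonneg fun x _ => abs_nonneg _
      positivity
    exact h1.trans (l1_nonneg z)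
  push Not at hν0
  -- local functions
  have hloc : ∀ x, ∃ f : (Fin (m + 1) → Finset ℕ) → ℝ,
      (∀ T : Fin (m + 2) → Finset ℕ, KF (link X x) T → RA.dl f T = 0) ∧ (∀ T, |f T| ≤ C) ∧
      (∀ T : Fin (m + 1) → Finset ℕ, ∀ j : Fin m, T j.castSucc = T j.succ → f T = 0) ∧
      (Tame X m N x → Q x ≤ Finsupp.linearCombination ℝ f (RA.zeta (link X x) (o x))) := by
    intro x
    by_cases hTm : Tame X m N x
    · obtain ⟨f, h1, h2, h3, h4⟩ := hL (link X x) (hflag x) (hS x) (o x) (hor x) (by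
        rcases hTm with h | h
        · left
          rw [((hZ6 X hX hf).1 x).2.1]
          exact h
        · right
          exact h)
      exact ⟨f, h1, h2, h3, fun _ => h4⟩
    · refine ⟨fun _ => 0, fun T _ => ?_, fun T => ?_, fun _ _ _ => rfl, fun h => absurd h hTm⟩
      · simp [RA.dl]
      · simpa using hC
  choose f0 hf1 hf2 hf3 hf4 using hloc
  obtain ⟨f, hE, hV, hfC, hfx⟩ := hUFU X hX hf Γ F hD m f0 C hC (fun x _ => hf1 x)
    fun x _ T _ => hf2 x T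
  obtain ⟨hc, hLF, hsum, hLV⟩ := hCXB X hX hf Γ F hD m Bn (fun v Z hZ => hB X hX hf hdim v Z hZ)
    f hE hV C hfC
  -- the chain maps
  obtain ⟨ρ, hρ⟩ := hRHO Γ A hπ.free
  set fb : ℕ → SChain B (m + 1 + b) →ₗ[ℝ] SChain A b := fun x =>
    FbL Γ π ρ (show m + 1 + b = (m + 1) + b from rfl) (cx X (f x) x) with hfb
  have hbound : ∑ x ∈ F, l1 (fb x z) ≤ K * l1 z :=
    hFB3 Γ A B π hπ ρ hρ (m + 1) b (m + 1 + b) rfl F (fun x => cx X (f x) x) hLF K hsum z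
  -- lower bound at one vertex
  have hlow : ∀ x ∈ F.filter (Tame X m N), |t| * (Q x / 2 ^ m) * ν ≤ l1 (fb x z) := by
    intro x hx
    obtain ⟨hxF, hxT⟩ := Finset.mem_filter.1 hx
    set ζ : ℝ := Finsupp.linearCombination ℝ (f x) (RA.zeta (link X x) (o x)) with hζ
    have hζ1 : Q x ≤ ζ := by
      refine (hf4 x hxT).trans (le_of_eq ?_)
      rw [hζ, Finsupp.linearCombination_apply, Finsupp.linearCombination_apply]
      refine Finsupp.sum_congr fun T hTs => ?_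
      rw [hfx x hxF T (hsupp (link X x) (hflag x) m (o x) (hor x) T hTs)]
    obtain ⟨hr1, hr2, hr3⟩ := hVAL X Γ A B P π hπ q S hT ρ hρ (m + 1) b (m + 1 + b) rfl
      (cx X (f x) x) (hLF x) e he
    set κ : ℝ := (-1) ^ m * ζ * (o x₀ s₀ : ℝ) / 2 ^ m with hκ
    have hval : ∃ y : SChain A (b + 1),
        fb x (totC π S e) - κ • fibC X Γ q S e x₀ s₀ = bd y := by
      apply boundary_of_functionals
      intro l hl
      have h1 := value hCG hCG2 hPRI hRLZ hFCE hAVG hTRR hTR3 hEVL hX hf hS hdim hD ho ho1 hT e he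
        hcyc x (f x) (hV x) (fun T hTl j hj => by
          rw [hfx x hxF T hTl]
          exact hf3 x T j hj) (hc x) (hLF x) (hLV x)
        (fun p => ρ (S 0 (fun _ => p) (vtx 0))) hr1 x₀ s₀ hs₀ l hl
      have h2 : fb x (totC π S e) = rlz S b (CG Γ (show m + 1 + b = (m + 1) + b from rfl)
        (fun p : Fin (m + 1 + 1) → P => cx X (f x) x fun i => ρ (S 0 (fun _ => p i) (vtx 0))) e) :=
        hr3
      rw [map_sub, map_smul, smul_eq_mul, h2, hκ]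
      have h3 : (2 : ℝ) ^ m ≠ 0 := by positivity
      apply mul_left_cancel₀ h3
      rw [mul_zero, mul_sub, h1, ← hζ]
      field_simp
      ring
    obtain ⟨y, hy⟩ := hval
    have h4 : fb x z = (t * κ) • fibC X Γ q S e x₀ s₀ +
        bd (t • y + (-1 : ℝ) ^ (m + 1) •
          FbL Γ π ρ (show m + 1 + b + 1 = (m + 1) + (b + 1) by omega) (cx X (f x) x) w) := by
      have h5 := hFB2 Γ A B π hπ ρ hρ (m + 1) b (m + 1 + b) rfl (cx X (f x) x) (hLF x) (hc x) w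
      rw [hz, map_add, map_smul, bd_add, bd_smul, bd_smul, ← hy]
      have h6 : fb x (bd w) = (-1 : ℝ) ^ (m + 1) • bd (FbL Γ π ρ
        (show m + 1 + b + 1 = (m + 1) + (b + 1) by omega) (cx X (f x) x) w) := h5
      rw [h6, mul_smul, smul_sub]
      abel
    have h7 := le_l1_of_class (push r (fibC X Γ q S e x₀ s₀)) ν hν (t * κ)
      (push r (t • y + (-1 : ℝ) ^ (m + 1) •
          FbL Γ π ρ (show m + 1 + b + 1 = (m + 1) + (b + 1) by omega) (cx X (f x) x) w))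
    rw [bd_push, ← push_smul, ← push_add, ← h4] at h7
    refine le_trans ?_ (h7.trans (l1_push_le r _))
    have h8 : |κ| = |ζ| / 2 ^ m := by
      have h9 : |(o x₀ s₀ : ℝ)| = 1 := by
        have h10 : o x₀ s₀ ≠ 0 := by
          unfold Dom at hs₀
          rw [Finset.mem_filter] at hs₀
          exact ho.full x₀ s₀ hs₀.2.1 hs₀.2.2
        have h11 := ho1 x₀ s₀
        have h12 : o x₀ s₀ = 1 ∨ o x₀ s₀ = -1 := by
          rw [abs_le] at h11
          omega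
        rcases h12 with h | h <;> rw [h] <;> norm_num
      rw [hκ, abs_div, abs_mul, abs_mul, abs_pow, abs_neg, abs_one, one_pow, one_mul, h9, mul_one,
        abs_of_pos (show (0 : ℝ) < 2 ^ m by positivity)]
    rw [abs_mul, h8]
    have h13 : Q x ≤ |ζ| := hζ1.trans (le_abs_self _)
    gcongr
  have hfinal : |t| * ((∑ x ∈ F.filter (Tame X m N), Q x) / 2 ^ m) * ν ≤ K * l1 z := by
    have h1 : |t| * ((∑ x ∈ F.filter (Tame X m N), Q x) / 2 ^ m) * ν =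
        ∑ x ∈ F.filter (Tame X m N), |t| * (Q x / 2 ^ m) * ν := by
      rw [← Finset.sum_mul, ← Finset.mul_sum, Finset.sum_div]
    rw [h1]
    refine (Finset.sum_le_sum hlow).trans (le_trans ?_ hbound)
    exact Finset.sum_le_sum_of_subset_of_nonneg (Finset.filter_subset _ _)
      fun x _ _ => l1_nonneg _
  have h1 : 1 / (2 ^ m * (K + 1)) * |t| * (∑ x ∈ F.filter (Tame X m N), Q x) * ν =
      (|t| * ((∑ x ∈ F.filter (Tame X m N), Q x) / 2 ^ m) * ν) / (K + 1) := by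
    field_simp
  rw [h1, div_le_iff₀ (by positivity)]
  have h2 := l1_nonneg z
  linarith

end Fb

end MP8a95ee.Npc
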