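import Pool.Agent.Work.MP_8a95ee_gt.Fb.Cyc
import Pool.Agent.Work.MP_8a95ee_gt.Fb.Main
import Pool.Agent.Work.MP_8a95ee_gt.Fb.Defs2

/-!
# Fibre bundles over nonpositively curved cubulated manifolds: the final statement
-/

set_option autoImplicit false

namespace MP8a95ee.Npc

open Classical

/-- the final statement -/
def S_Final : Prop := ∀ m N : ℕ, ∃ c : ℝ, 0 < c ∧
  ∀ (X : SimpleGraph ℕ) (_ : IsMedianGraph X) (_ : LocFin X)
    (_ : ∀ x, RA.IsHSphere (link X x) (m + 1))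
    (Γ : Subgroup (Equiv.Perm ℕ)) (V : Finset ℕ) (_ : IsDeck X Γ V)
    (o : ℕ → (Fin (m + 1) → ℕ) → ℤ) (_ : Oriented X ⊥ (m + 1) o) (_ : ∀ x s, |o x s| ≤ 1)
    (E' E F P : Type) [TopologicalSpace E'] [TopologicalSpace E] [TopologicalSpace F]
    [MulAction Γ E'] [ContinuousConstSMul Γ E'] (π : C(E', E)) (_ : IsReg Γ π)
    [PartialOrder P] [MulAction Γ P] (q : P → Finset ℕ)
    (S : ∀ k : ℕ, (Fin (k + 1) → P) → SSimplex E' k) (_ : IsTri X Γ q S)
    (b : ℕ) (e : (Fin (m + 1 + (b + 1) + 1) → P) →₀ ℝ) (_ : ∀ p ∈ e.support, StrictMono p)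
    (_ : IsCyc Γ e) (x₀ : ℕ) (s₀ : Fin (m + 1) → ℕ) (_ : Function.Injective s₀)
    (_ : Finset.univ.image s₀ ∈ link X x₀) (r : C(E', F)),
  bd (totC π S e) = 0 ∧
  (∀ ν : ℝ, (∀ y : SChain F (b + 2), ν ≤ l1 (push r (fibC X Γ q S e x₀ s₀) + bd y)) →
    ∀ (t : ℝ) (z : SChain E (m + 1 + (b + 1))) (w : SChain E (m + 1 + (b + 1) + 1)),
    z = t • totC π S e + bd w →
    c * |t| * (∑ x ∈ V.filter (Tame X m N), |∑ s ∈ link X x, (-1 / 2 : ℝ) ^ s.card|) * ν ≤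
      l1 z) ∧
  ∀ (dim : P → ℕ) (R : Finset P) (cells : Finset ℕ → Finset P) (χF : ℤ),
    IsCells X Γ q dim R cells χF →
    ∑ p ∈ R, (-1 : ℤ) ^ dim p = eulerChar X Γ V * χF ∧
    ((∀ ε : ℝ, 0 < ε → ∃ w : SChain E (m + 1 + (b + 1) + 1), l1 (totC π S e + bd w) < ε) →
      ((∀ ε : ℝ, 0 < ε → ∃ y : SChain F (b + 2),
        l1 (push r (fibC X Γ q S e x₀ s₀) + bd y) < ε) → χF = 0) →
      ∑ p ∈ R, (-1 : ℤ) ^ dim p = 0)

namespace Fb

theorem prfFinal (hFBM : S_FBM) (hCHI : S_CHI) (hDEG : S_DEG) (hZ5 : S_ZC5) : S_Final := by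
  intro m N
  obtain ⟨c, hc, h⟩ := hFBM m N
  refine ⟨c, hc, ?_⟩
  intro X hX hf hS Γ V hD o ho ho1 E' E F P _ _ _ _ _ π hπ _ _ q S hT b e he hcyc x₀ s₀ hs1 hs2 r
  have hs₀ : s₀ ∈ Dom X (m + 1) x₀ := by
    unfold Dom
    rw [Finset.mem_filter]
    refine ⟨?_, hs1, hs2⟩
    rw [Fintype.mem_piFinset]
    intro i
    exact (mem_link.1 hs2).1 (Finset.mem_image_of_mem _ (Finset.mem_univ i))
  refine ⟨bd_totC π hπ hT e he hcyc, ?_, ?_⟩
  · intro ν hν t z w hz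
    exact h X hX hf hS Γ V hD o ho ho1 E' E P F π hπ q S hT (b + 1) e he hcyc x₀ s₀ hs₀ r ν hν
      t z w hz
  · intro dim R cells χF hR
    have h1 := hCHI X hX hf Γ V hD P q hT.cube hT.equi dim R cells χF hR
    refine ⟨h1, fun hE hF => ?_⟩
    by_cases hFv : ∀ ε : ℝ, 0 < ε → ∃ y : SChain F (b + 2),
        l1 (push r (fibC X Γ q S e x₀ s₀) + bd y) < ε
    · rw [h1, hF hFv, mul_zero]
    · push Not at hFv
      obtain ⟨ν, hν0, hν⟩ := hFv
      obtain ⟨N', hN'⟩ := hDEG X hX hf Γ V hD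
      obtain ⟨c', hc', h'⟩ := hFBM m N'
      have h2 : ∀ ε : ℝ, 0 < ε → c' * |(1 : ℝ)| * (∑ x ∈ V.filter (Tame X m N'),
          |∑ s ∈ link X x, (-1 / 2 : ℝ) ^ s.card|) * ν ≤ ε := by
        intro ε hε
        obtain ⟨w, hw⟩ := hE ε hε
        exact (h' X hX hf hS Γ V hD o ho ho1 E' E P F π hπ q S hT (b + 1) e he hcyc x₀ s₀ hs₀ r ν
          hν 1 (totC π S e + bd w) w (by rw [one_smul])).trans hw.le
      have h3 : V.filter (Tame X m N') = V := by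
        rw [Finset.filter_eq_self]
        intro x _
        left
        exact hN' x
      rw [h3, abs_one, mul_one] at h2
      have h4 : c' * (∑ x ∈ V, |∑ s ∈ link X x, (-1 / 2 : ℝ) ^ s.card|) * ν ≤ 0 :=
        le_of_forall_pos_le_add fun ε hε => by
          rw [zero_add]
          exact h2 ε hε
      have h5 : ∑ x ∈ V, |∑ s ∈ link X x, (-1 / 2 : ℝ) ^ s.card| ≤ 0 := by
        by_contra h6
        push Not at h6
        have h7 : 0 < c' * (∑ x ∈ V, |∑ s ∈ link X x, (-1 / 2 : ℝ) ^ s.card|) * ν := by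
          positivity
        linarith
      have h6 : ∀ x ∈ V, ∑ s ∈ link X x, (-1 / 2 : ℝ) ^ s.card = 0 := by
        intro x hx
        have h7 := (Finset.sum_eq_zero_iff_of_nonneg
          (fun x _ => abs_nonneg (∑ s ∈ link X x, (-1 / 2 : ℝ) ^ s.card))).1
          (le_antisymm h5 (Finset.sum_nonneg fun x _ => abs_nonneg _)) x hx
        exact abs_eq_zero.1 h7
      have h8 : (eulerChar X Γ V : ℝ) = 0 := by
        have h9 := congrArg (fun q : ℚ => (q : ℝ)) (hZ5 X hX hf Γ V hD)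
        push_cast at h9
        rw [h9]
        exact Finset.sum_eq_zero h6
      have h9 : eulerChar X Γ V = 0 := by exact_mod_cast h8
      rw [h1, h9, zero_mul]

end Fb

end MP8a95ee.Npc
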