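import Pool.Agent.Work.MP_8a95ee_gt.Fb.Stmts

/-!
# Item DLI: the coboundary of the indicator of a tuple, on monotone tuples
-/

set_option autoImplicit false

namespace MP8a95ee.Npc.DLIP

open Classical

/-- a monotone tuple which is not injective has two equal consecutive entries -/
theorem exists_consec {k : ℕ} (Q : Fin (k + 2) → Finset ℕ) (hQ : Monotone Q)
    (h : ¬ Function.Injective Q) : ∃ i : Fin (k + 1), Q i.castSucc = Q i.succ := by
  by_contra hne
  push Not at hne
  apply h
  have hs : StrictMono Q := by
    rw [Fin.strictMono_iff_lt_succ]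
    intro i
    exact lt_of_le_of_ne (hQ (Fin.castSucc_le_succ i)) (hne i)
  exact hs.injective

/-- the two tuples obtained by leaving out one of two equal consecutive entries agree -/
theorem omit_eq {k : ℕ} (Q : Fin (k + 2) → Finset ℕ) (i : Fin (k + 1))
    (h : Q i.castSucc = Q i.succ) :
    (fun j => Q (i.castSucc.succAbove j)) = fun j => Q (i.succ.succAbove j) := by
  funext j
  rcases lt_trichotomy j i with hj | hj | hj
  · rw [Fin.succAbove_of_castSucc_lt _ _ (Fin.castSucc_lt_castSucc_iff.2 hj),
      Fin.succAbove_of_castSucc_lt _ _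
        (lt_trans (Fin.castSucc_lt_castSucc_iff.2 hj) (Fin.castSucc_lt_succ))]
  · subst hj
    rw [Fin.succAbove_castSucc_self, Fin.succAbove_succ_self, h]
  · have h1 : i.castSucc ≤ j.castSucc := Fin.castSucc_le_castSucc_iff.2 hj.le
    have h2 : i.succ ≤ j.castSucc := by
      rw [Fin.le_iff_val_le_val]
      have : (i : ℕ) < j := hj
      simp only [Fin.val_succ, Fin.val_castSucc]
      omega
    rw [Fin.succAbove_of_le_castSucc _ _ h1, Fin.succAbove_of_le_castSucc _ _ h2]

/-- leaving out another entry, the two equal entries remain -/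
theorem omit_ne {k : ℕ} (R : Fin (k + 1) → Finset ℕ) (hR : Function.Injective R)
    (Q : Fin (k + 2) → Finset ℕ) (i : Fin (k + 1)) (h : Q i.castSucc = Q i.succ)
    (l : Fin (k + 2)) (h1 : l ≠ i.castSucc) (h2 : l ≠ i.succ) :
    (fun j => Q (l.succAbove j)) ≠ R := by
  intro he
  obtain ⟨a, ha⟩ := Fin.exists_succAbove_eq h1.symm
  obtain ⟨b, hb⟩ := Fin.exists_succAbove_eq h2.symm
  have hab : R a = R b := by
    rw [← he]
    show Q (l.succAbove a) = Q (l.succAbove b)
    rw [ha, hb, h]
  have hab' := hR hab
  subst hab'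
  have h3 : i.castSucc = i.succ := ha.symm.trans hb
  exact absurd h3 (ne_of_lt Fin.castSucc_lt_succ)

/-- **Item DLI.** -/
theorem prf : S_DLI := by
  intro k R hR Q hQ
  refine ⟨?_, ?_, ?_⟩
  · intro hni
    obtain ⟨i, hi⟩ := exists_consec Q hQ hni
    have hne : i.castSucc ≠ i.succ := ne_of_lt Fin.castSucc_lt_succ
    unfold RA.dl
    rw [Fintype.sum_eq_add i.castSucc i.succ hne]
    · rw [omit_eq Q i hi]
      simp only [smul_eq_mul, Fin.val_castSucc, Fin.val_succ, pow_succ]
      ring
    · rintro l ⟨h1, h2⟩
      have h3 := omit_ne R hR Q i hi l h1 h2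
      unfold ind
      rw [if_neg h3, smul_zero]
  · intro l hinj hl
    unfold RA.dl
    rw [Fintype.sum_eq_single l]
    · unfold ind
      rw [if_pos hl, smul_eq_mul, mul_one]
    · intro l' hl'
      unfold ind
      rw [if_neg, smul_zero]
      intro he
      apply hl'
      apply Fin.succAbove_left_injective
      funext j
      apply hinj
      have := congrFun (he.trans hl.symm) j
      exact this
  · intro hall
    unfold RA.dl
    apply Finset.sum_eq_zero
    intro l _
    unfold ind
    rw [if_neg (hall l), smul_zero]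

end MP8a95ee.Npc.DLIP
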