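import Pool.Agent.Work.MP_8a95ee_gt.Fb.Stmts

/-!
# STA: the cubes contained in a cube
-/

set_option autoImplicit false

namespace MP8a95ee.Npc.STAP

open Classical

theorem symm_empty (W : Finset ℕ) : symmDiff ∅ W = W := by
  ext a
  simp [Finset.mem_symmDiff]

theorem In_corner (h1 : S_CU1) (h2 : S_CU2) {X : SimpleGraph ℕ} (hX : IsMedianGraph X)
    (hf : LocFin X) {x : ℕ} {s : Finset ℕ} (hs : s ∈ link X x) {W : Finset ℕ} (hW : W ⊆ s) :
    In X x (corner X x W) = W := by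
  obtain ⟨c1, c2, -, -, -, -⟩ := h1 X hX hf x s hs
  have h := h2 X hX hf x s hs ∅ (Finset.empty_subset _) W hW
  rw [c1, symm_empty] at h
  rw [h]
  have h3 : ∀ a ∈ W, rb X x ∅ a = a := by
    intro a ha
    unfold rb
    rw [symm_empty, c2 a (hW ha)]
  ext b
  rw [Finset.mem_image]
  constructor
  · rintro ⟨a, ha, rfl⟩
    rw [h3 a ha]
    exact ha
  · intro hb
    exact ⟨b, hb, h3 b hb⟩

theorem prf (h1 : S_CU1) (h2 : S_CU2) (h3 : S_CU3) : S_STA := by
  intro X hX hf x s hs Q hQ hQs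
  obtain ⟨y, t, ht, hQt⟩ := hQ
  obtain ⟨c1, c2, -, -, -, -⟩ := h1 X hX hf x s hs
  obtain ⟨d1, d2, -, -, -, -⟩ := h1 X hX hf y t ht
  have hyQ : y ∈ Q := by
    rw [hQt]
    unfold cubeSet
    rw [Finset.mem_image]
    exact ⟨∅, Finset.mem_powerset.2 (Finset.empty_subset _), d1⟩
  have hmem : ∀ z ∈ Q, ∃ Y, Y ⊆ s ∧ corner X x Y = z := by
    intro z hz
    have h := hQs hz
    unfold cubeSet at h
    rw [Finset.mem_image] at h
    obtain ⟨Y, hY, hYz⟩ := h
    exact ⟨Y, Finset.mem_powerset.1 hY, hYz⟩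
  obtain ⟨Y0, hY0, hy⟩ := hmem y hyQ
  -- every direction of `Q` is a direction of the big cube
  have hdir : ∀ a' ∈ t, ∃ a ∈ s, rb X x Y0 a = a' := by
    intro a' ha'
    have haQ : a' ∈ Q := by
      rw [hQt]
      unfold cubeSet
      rw [Finset.mem_image]
      exact ⟨{a'}, Finset.mem_powerset.2 (Finset.singleton_subset_iff.2 ha'), d2 a' ha'⟩
    obtain ⟨Y1, hY1, hY1a⟩ := hmem a' haQ
    have e1 : In X y a' = (symmDiff Y0 Y1).image (rb X x Y0) := by
      rw [← h2 X hX hf x s hs Y0 hY0 Y1 hY1, hy, hY1a]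
    have e2 : In X y a' = {a'} := by
      have := In_corner h1 h2 hX hf ht (Finset.singleton_subset_iff.2 ha')
      rwa [d2 a' ha'] at this
    have h : a' ∈ (symmDiff Y0 Y1).image (rb X x Y0) := by
      rw [← e1, e2]
      exact Finset.mem_singleton_self _
    obtain ⟨a, ha, haa⟩ := Finset.mem_image.1 h
    refine ⟨a, ?_, haa⟩
    rw [Finset.mem_symmDiff] at ha
    rcases ha with ha | ha
    · exact hY0 ha.1
    · exact hY1 ha.1
  set U : Finset ℕ := s.filter (fun a => rb X x Y0 a ∈ t) with hUdef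
  have hUs : U ⊆ s := Finset.filter_subset _ _
  have hUt : U.image (rb X x Y0) = t := by
    ext a'
    rw [Finset.mem_image]
    constructor
    · rintro ⟨a, ha, rfl⟩
      exact (Finset.mem_filter.1 ha).2
    · intro ha'
      obtain ⟨a, ha, haa⟩ := hdir a' ha'
      refine ⟨a, Finset.mem_filter.2 ⟨ha, ?_⟩, haa⟩
      rw [haa]
      exact ha'
  have hQ1 : ∀ z, z ∈ Q ↔ ∃ U', U' ⊆ U ∧ corner X x (symmDiff Y0 U') = z := by
    intro z
    rw [hQt]
    unfold cubeSet
    rw [Finset.mem_image]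
    constructor
    · rintro ⟨W, hW, hWz⟩
      rw [Finset.mem_powerset, ← hUt] at hW
      obtain ⟨U', hU', hU'W⟩ := Finset.subset_image_iff.1 hW
      have hU'1 : U' ⊆ U := by exact_mod_cast hU'
      refine ⟨U', hU'1, ?_⟩
      have hU's : U' ⊆ s := hU'1.trans hUs
      rw [← (h3 X hX hf x s hs Y0 hY0).2 U' hU's, hy, hU'W]
      exact hWz
    · rintro ⟨U', hU', hz⟩
      refine ⟨U'.image (rb X x Y0), ?_, ?_⟩
      · rw [Finset.mem_powerset, ← hUt]
        exact Finset.image_subset_image hU'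
      · rw [← hy, (h3 X hX hf x s hs Y0 hY0).2 U' (hU'.trans hUs)]
        exact hz
  set T : Finset ℕ := Y0 \ U with hTdef
  have hTs : T ⊆ s := Finset.sdiff_subset.trans hY0
  have hTU : Disjoint T U := Finset.sdiff_disjoint
  have hQ2 : ∀ z, z ∈ Q ↔ ∃ U', U' ⊆ U ∧ corner X x (T ∪ U') = z := by
    have key : ∀ U' ⊆ U, symmDiff Y0 (symmDiff (Y0 ∩ U) U') = T ∪ U' := by
      intro U' hU'
      ext a
      have := @hU' a
      simp only [hTdef, Finset.mem_symmDiff, Finset.mem_union, Finset.mem_inter,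
        Finset.mem_sdiff]
      tauto
    have key2 : ∀ U' ⊆ U, symmDiff Y0 U' = T ∪ symmDiff (Y0 ∩ U) U' := by
      intro U' hU'
      ext a
      have := @hU' a
      simp only [hTdef, Finset.mem_symmDiff, Finset.mem_union, Finset.mem_inter,
        Finset.mem_sdiff]
      tauto
    have key3 : ∀ U' ⊆ U, symmDiff (Y0 ∩ U) U' ⊆ U := by
      intro U' hU' a ha
      have := @hU' a
      simp only [Finset.mem_symmDiff, Finset.mem_inter] at ha
      tauto
    intro z
    rw [hQ1]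
    constructor
    · rintro ⟨U', hU', hz⟩
      exact ⟨symmDiff (Y0 ∩ U) U', key3 U' hU', by rw [← key2 U' hU', hz]⟩
    · rintro ⟨U', hU', hz⟩
      exact ⟨symmDiff (Y0 ∩ U) U', key3 U' hU', by rw [key U' hU', hz]⟩
  have hIn : ∀ U' ⊆ U, In X x (corner X x (T ∪ U')) = T ∪ U' := by
    intro U' hU'
    exact In_corner h1 h2 hX hf hs (Finset.union_subset hTs (hU'.trans hUs))
  refine ⟨T, U, hTs, hUs, hTU, ?_, hIn, ?_⟩
  · ext z
    rw [hQ2, Finset.mem_image]
    constructor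
    · rintro ⟨U', hU', hz⟩
      exact ⟨U', Finset.mem_powerset.2 hU', hz⟩
    · rintro ⟨U', hU', hz⟩
      exact ⟨U', Finset.mem_powerset.1 hU', hz⟩
  · intro A
    have hsep : ∀ a, (∃ y1 ∈ Q, ∃ y2 ∈ Q, a ∈ In X x y1 ∧ a ∉ In X x y2) ↔ a ∈ U := by
      intro a
      constructor
      · rintro ⟨y1, hy1, y2, hy2, ha1, ha2⟩
        obtain ⟨U1, hU1, rfl⟩ := (hQ2 y1).1 hy1
        obtain ⟨U2, hU2, rfl⟩ := (hQ2 y2).1 hy2
        rw [hIn U1 hU1, Finset.mem_union] at ha1
        rw [hIn U2 hU2, Finset.mem_union, not_or] at ha2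
        rcases ha1 with ha1 | ha1
        · exact absurd ha1 ha2.1
        · exact hU1 ha1
      · intro ha
        refine ⟨corner X x (T ∪ U), (hQ2 _).2 ⟨U, subset_rfl, rfl⟩, corner X x (T ∪ ∅),
          (hQ2 _).2 ⟨∅, Finset.empty_subset _, rfl⟩, ?_, ?_⟩
        · rw [hIn U subset_rfl]
          exact Finset.mem_union_right _ ha
        · rw [hIn ∅ (Finset.empty_subset _), Finset.union_empty]
          intro haT
          exact (Finset.disjoint_left.1 hTU) haT ha
    have hnbr : U ⊆ nbr X x := hUs.trans (mem_link.1 hs).1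
    have hex : ∃ y ∈ Q, ∀ a ∈ nbr X x, (∃ y1 ∈ Q, ∃ y2 ∈ Q, a ∈ In X x y1 ∧ a ∉ In X x y2) →
        (a ∈ In X x y ↔ a ∈ A) := by
      refine ⟨corner X x (T ∪ (U ∩ A)), (hQ2 _).2 ⟨U ∩ A, Finset.inter_subset_left, rfl⟩, ?_⟩
      intro a _ ha
      rw [hsep] at ha
      rw [hIn _ Finset.inter_subset_left, Finset.mem_union, Finset.mem_inter]
      have haT : a ∉ T := fun h => (Finset.disjoint_left.1 hTU) h ha
      tauto
    unfold rA
    rw [dif_pos hex]
    obtain ⟨hc1, hc2⟩ := hex.choose_spec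
    obtain ⟨U1, hU1, hU1c⟩ := (hQ2 _).1 hc1
    have hU1A : U1 = U ∩ A := by
      ext a
      rw [Finset.mem_inter]
      constructor
      · intro ha
        have haU := hU1 ha
        have h := hc2 a (hnbr haU) ((hsep a).2 haU)
        rw [← hU1c, hIn U1 hU1, Finset.mem_union] at h
        exact ⟨haU, h.1 (Or.inr ha)⟩
      · rintro ⟨haU, haA⟩
        have h := hc2 a (hnbr haU) ((hsep a).2 haU)
        rw [← hU1c, hIn U1 hU1, Finset.mem_union] at h
        rcases h.2 haA with h' | h'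
        · exact absurd haU ((Finset.disjoint_left.1 hTU) h')
        · exact h'
    rw [← hU1c, hU1A]

end MP8a95ee.Npc.STAP
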