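import Pool.Agent.Work.MP_8a95ee_gt.Fb.Stmts
import Pool.Agent.Work.MP_8a95ee_gt.Fb.I_STA
import Pool.Agent.Work.MP_8a95ee_gt.Fb.I_DLI
import Pool.Agent.Work.MP_8a95ee_gt.Bd.B07

/-!
# AVG: random rounding
-/

set_option autoImplicit false

namespace MP8a95ee.Npc.AVGP

open Classical

/-- a function which is normalised on tuples of subsets of `s`: the coboundary vanishes on tuples
with two equal consecutive entries -/
theorem dl_rep {m : ℕ} (f : (Fin (m + 1) → Finset ℕ) → ℝ) (s : Finset ℕ)
    (hf : ∀ T : Fin (m + 1) → Finset ℕ, (∀ i, T i ⊆ s) → ∀ j : Fin m,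
      T j.castSucc = T j.succ → f T = 0)
    (W : Fin (m + 2) → Finset ℕ) (hW : ∀ i, W i ⊆ s) (i : Fin (m + 1))
    (hi : W i.castSucc = W i.succ) : RA.dl f W = 0 := by
  have hne : i.castSucc ≠ i.succ := ne_of_lt Fin.castSucc_lt_succ
  unfold RA.dl
  rw [Fintype.sum_eq_add i.castSucc i.succ hne]
  · rw [DLIP.omit_eq W i hi]
    simp only [smul_eq_mul, Fin.val_castSucc, Fin.val_succ, pow_succ]
    ring
  · rintro l ⟨h1, h2⟩
    have hval1 : (l : ℕ) ≠ (i : ℕ) := fun h => h1 (Fin.ext h)
    have hval2 : (l : ℕ) ≠ (i : ℕ) + 1 := fun h => h2 (Fin.ext h)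
    have hl := l.isLt
    have hi' := i.isLt
    rcases lt_or_gt_of_ne hval1 with hlt | hgt
    · have hj : (i : ℕ) - 1 < m := by omega
      rw [hf _ (fun j => hW _) ⟨(i : ℕ) - 1, hj⟩, smul_zero]
      have e1 : l.succAbove (⟨(i : ℕ) - 1, hj⟩ : Fin m).castSucc = i.castSucc := by
        rw [Fin.succAbove_of_le_castSucc]
        · apply Fin.ext
          simp only [Fin.val_succ, Fin.val_castSucc]
          omega
        · rw [Fin.le_iff_val_le_val]
          simp only [Fin.val_castSucc]
          omega
      have e2 : l.succAbove (⟨(i : ℕ) - 1, hj⟩ : Fin m).succ = i.succ := by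
        rw [Fin.succAbove_of_le_castSucc]
        · apply Fin.ext
          simp only [Fin.val_succ]
          omega
        · rw [Fin.le_iff_val_le_val]
          simp only [Fin.val_castSucc, Fin.val_succ]
          omega
      rw [e1, e2, hi]
    · have hj : (i : ℕ) < m := by omega
      rw [hf _ (fun j => hW _) ⟨(i : ℕ), hj⟩, smul_zero]
      have e1 : l.succAbove (⟨(i : ℕ), hj⟩ : Fin m).castSucc = i.castSucc := by
        rw [Fin.succAbove_of_castSucc_lt]
        · apply Fin.ext
          simp only [Fin.val_castSucc]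
        · rw [Fin.lt_iff_val_lt_val]
          simp only [Fin.val_castSucc]
          omega
      have e2 : l.succAbove (⟨(i : ℕ), hj⟩ : Fin m).succ = i.succ := by
        rw [Fin.succAbove_of_castSucc_lt]
        · apply Fin.ext
          simp only [Fin.val_castSucc, Fin.val_succ]
        · rw [Fin.lt_iff_val_lt_val]
          simp only [Fin.val_castSucc, Fin.val_succ]
          omega
      rw [e1, e2, hi]

/-- the number of subsets with given intersection -/
theorem card_inter {N s C : Finset ℕ} (hs : s ⊆ N) (hC : C ⊆ s) :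
    (N.powerset.filter fun A => s ∩ A = C).card = 2 ^ (N \ s).card := by
  rw [← Finset.card_powerset]
  refine Finset.card_bij' (fun A _ => A \ s) (fun B _ => B ∪ C) ?_ ?_ ?_ ?_
  · intro A hA
    rw [Finset.mem_filter, Finset.mem_powerset] at hA
    exact Finset.mem_powerset.2 (Finset.sdiff_subset_sdiff hA.1 (le_refl s))
  · intro B hB
    rw [Finset.mem_powerset] at hB
    rw [Finset.mem_filter, Finset.mem_powerset]
    refine ⟨Finset.union_subset (hB.trans Finset.sdiff_subset) (hC.trans hs), ?_⟩
    ext b
    rw [Finset.mem_inter, Finset.mem_union]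
    constructor
    · rintro ⟨h1, h2 | h2⟩
      · exact absurd h1 (Finset.mem_sdiff.1 (hB h2)).2
      · exact h2
    · intro h
      exact ⟨hC h, Or.inr h⟩
  · intro A hA
    rw [Finset.mem_filter, Finset.mem_powerset] at hA
    show A \ s ∪ C = A
    rw [← hA.2]
    ext b
    simp only [Finset.mem_union, Finset.mem_sdiff, Finset.mem_inter]
    tauto
  · intro B hB
    rw [Finset.mem_powerset] at hB
    show (B ∪ C) \ s = B
    ext b
    simp only [Finset.mem_union, Finset.mem_sdiff]
    constructor
    · rintro ⟨h1 | h1, h2⟩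
      · exact h1
      · exact absurd (hC h1) h2
    · intro h
      exact ⟨Or.inl h, (Finset.mem_sdiff.1 (hB h)).2⟩

/-- the combinatorial identity -/
theorem comb {m : ℕ} (N s : Finset ℕ) (hsN : s ⊆ N) (T U : Fin (m + 2) → Finset ℕ)
    (hTs : ∀ i, T i ⊆ s) (hUs : ∀ i, U i ⊆ s) (hd : ∀ i, Disjoint (T i) (U i))
    (hm : ∀ i j, i ≤ j → U i ⊆ U j ∧ T j ⊆ T i ∧ T i ⊆ T j ∪ U j)
    (hc : ∀ i, (U i).card = (i : ℕ)) (hs : s.card ≤ m + 1)
    (g : (Fin (m + 2) → Finset ℕ) → ℝ)
    (hg : ∀ W : Fin (m + 2) → Finset ℕ, (∀ i, W i ⊆ s) → ∀ i : Fin (m + 1),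
      W i.castSucc = W i.succ → g W = 0) :
    (2 : ℝ) ^ (m + 1) * ∑ A ∈ N.powerset, g (fun i => T i ∪ (U i ∩ A)) =
      2 ^ N.card * g (fun i => symmDiff (T 0) (U i)) := by
  have hlast : U (Fin.last (m + 1)) = s := by
    apply Finset.eq_of_subset_of_card_le (hUs _)
    rw [hc]
    exact hs
  have hscard : s.card = m + 1 := by
    rw [← hlast, hc]
    rfl
  have h0 : U 0 = ∅ := by
    rw [← Finset.card_eq_zero, hc]
    rfl
  have key : ∀ A ∈ N.powerset, s ∩ A ≠ s \ T 0 → g (fun i => T i ∪ (U i ∩ A)) = 0 := by
    intro A _ hA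
    have hex : ∃ a ∈ s, (a ∈ A ↔ a ∈ T 0) := by
      by_contra hcon
      push Not at hcon
      apply hA
      ext b
      rw [Finset.mem_inter, Finset.mem_sdiff]
      constructor
      · rintro ⟨h1, h2⟩
        refine ⟨h1, fun h3 => ?_⟩
        rcases hcon b h1 with ⟨_, h⟩ | ⟨h, _⟩
        · exact h h3
        · exact h h2
      · rintro ⟨h1, h2⟩
        refine ⟨h1, ?_⟩
        rcases hcon b h1 with ⟨h, _⟩ | ⟨_, h⟩
        · exact h
        · exact absurd h h2
    obtain ⟨a, has, haA⟩ := hex
    -- the step at which `a` becomes free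
    have hstep : ∃ i : Fin (m + 1), a ∉ U i.castSucc ∧ a ∈ U i.succ := by
      by_contra hcon
      push Not at hcon
      have : ∀ i : Fin (m + 2), a ∉ U i := by
        intro i
        induction i using Fin.induction with
        | zero => rw [h0]; exact Finset.notMem_empty a
        | succ i ih => exact hcon i ih
      exact this (Fin.last (m + 1)) (hlast ▸ has)
    obtain ⟨i, hi1, hi2⟩ := hstep
    have hle : i.castSucc ≤ i.succ := Fin.castSucc_le_succ i
    have hUi : U i.succ = insert a (U i.castSucc) := by
      symm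
      apply Finset.eq_of_subset_of_card_le
      · exact Finset.insert_subset hi2 (hm _ _ hle).1
      · rw [Finset.card_insert_of_notMem hi1, hc, hc]
        simp
    refine hg _ (fun j => Finset.union_subset (hTs j) (Finset.inter_subset_left.trans (hUs j))) i ?_
    show T i.castSucc ∪ (U i.castSucc ∩ A) = T i.succ ∪ (U i.succ ∩ A)
    have hTa : a ∈ T i.castSucc ↔ a ∈ T 0 := by
      constructor
      · intro h
        exact (hm 0 i.castSucc (Fin.zero_le _)).2.1 h
      · intro h
        rcases Finset.mem_union.1 ((hm 0 i.castSucc (Fin.zero_le _)).2.2 h) with h | h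
        · exact h
        · exact absurd h hi1
    have hTa' : a ∉ T i.succ := fun h => Finset.disjoint_left.1 (hd i.succ) h hi2
    ext b
    rw [Finset.mem_union, Finset.mem_union, Finset.mem_inter, Finset.mem_inter, hUi,
      Finset.mem_insert]
    by_cases hba : b = a
    · subst hba
      constructor
      · rintro (h | ⟨h, _⟩)
        · exact Or.inr ⟨Or.inl rfl, haA.2 (hTa.1 h)⟩
        · exact absurd h hi1
      · rintro (h | ⟨_, h⟩)
        · exact absurd h hTa'
        · exact Or.inl (hTa.2 (haA.1 h))
    · constructor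
      · rintro (h | ⟨h, h'⟩)
        · rcases Finset.mem_union.1 ((hm _ _ hle).2.2 h) with h'' | h''
          · exact Or.inl h''
          · rw [hUi, Finset.mem_insert] at h''
            rcases h'' with h'' | h''
            · exact absurd h'' hba
            · exact absurd h'' (Finset.disjoint_left.1 (hd i.castSucc) h)
        · exact Or.inr ⟨Or.inr h, h'⟩
      · rintro (h | ⟨h | h, h'⟩)
        · exact Or.inl ((hm _ _ hle).2.1 h)
        · exact absurd h hba
        · exact Or.inr ⟨h, h'⟩
  have key2 : ∀ A, s ∩ A = s \ T 0 →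
      g (fun i => T i ∪ (U i ∩ A)) = g (fun i => symmDiff (T 0) (U i)) := by
    intro A hA
    congr 1
    funext i
    ext b
    have h1 : b ∈ s → (b ∈ A ↔ b ∉ T 0) := by
      intro hb
      have : b ∈ s ∩ A ↔ b ∈ s \ T 0 := by rw [hA]
      rw [Finset.mem_inter, Finset.mem_sdiff] at this
      constructor
      · intro h
        exact (this.1 ⟨hb, h⟩).2
      · intro h
        exact (this.2 ⟨hb, h⟩).2
    have h2 := (hm 0 i (Fin.zero_le _))
    rw [Finset.mem_union, Finset.mem_inter, Finset.mem_symmDiff]
    constructor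
    · rintro (h | ⟨h, h'⟩)
      · exact Or.inl ⟨h2.2.1 h, Finset.disjoint_left.1 (hd i) h⟩
      · exact Or.inr ⟨h, (h1 (hUs i h)).1 h'⟩
    · rintro (⟨h, h'⟩ | ⟨h, h'⟩)
      · rcases Finset.mem_union.1 (h2.2.2 h) with h3 | h3
        · exact Or.inl h3
        · exact absurd h3 h'
      · exact Or.inr ⟨h, (h1 (hUs i h)).2 h'⟩
  have hsum : ∑ A ∈ N.powerset, g (fun i => T i ∪ (U i ∩ A)) =
      ((N.powerset.filter fun A => s ∩ A = s \ T 0).card : ℝ) *
        g (fun i => symmDiff (T 0) (U i)) := by
    rw [← nsmul_eq_mul, ← Finset.sum_const, Finset.sum_filter]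
    refine Finset.sum_congr rfl fun A hA => ?_
    split_ifs with h
    · exact key2 A h
    · exact key A hA h
  rw [hsum, card_inter hsN Finset.sdiff_subset]
  have hN : N.card = (m + 1) + (N \ s).card := by
    rw [← hscard, add_comm, Finset.card_sdiff_add_card_eq_card hsN]
  rw [hN, pow_add]
  push_cast
  ring

theorem rA_mem {X : SimpleGraph ℕ} {x : ℕ} {A Q : Finset ℕ} (hQ : Q.Nonempty) :
    rA X x A Q ∈ Q := by
  unfold rA
  split_ifs with h
  · exact h.choose_spec.1
  · exact hQ.choose_spec

theorem cubeSet_nonempty {X : SimpleGraph ℕ} {x : ℕ} {s : Finset ℕ} : (cubeSet X x s).Nonempty := by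
  unfold cubeSet
  exact Finset.Nonempty.image ⟨∅, Finset.empty_mem_powerset s⟩ _

theorem mem_cubeSet {X : SimpleGraph ℕ} {x y : ℕ} {s : Finset ℕ} :
    y ∈ cubeSet X x s ↔ ∃ V ⊆ s, corner X x V = y := by
  unfold cubeSet
  simp only [Finset.mem_image, Finset.mem_powerset]

/-- change of the corner -/
theorem cubeSet_change (h3 : S_CU3) {X : SimpleGraph ℕ} (hX : IsMedianGraph X) (hf : LocFin X)
    {x : ℕ} {s : Finset ℕ} (hs : s ∈ link X x) {T U : Finset ℕ} (hT : T ⊆ s) (hU : U ⊆ s) :
    U.image (rb X x T) ∈ link X (corner X x T) ∧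
    cubeSet X (corner X x T) (U.image (rb X x T)) =
      U.powerset.image fun V => corner X x (symmDiff T V) := by
  obtain ⟨c1, c2⟩ := h3 X hX hf x s hs T hT
  refine ⟨link_mono c1 (Finset.image_subset_image hU), ?_⟩
  ext z
  rw [mem_cubeSet, Finset.mem_image]
  constructor
  · rintro ⟨V, hV, rfl⟩
    obtain ⟨V', hV', rfl⟩ := Finset.subset_image_iff.1 hV
    exact ⟨V', Finset.mem_powerset.2 (by exact_mod_cast hV'), (c2 V' ((by exact_mod_cast hV' : V' ⊆ U).trans hU)).symm⟩
  · rintro ⟨V, hV, rfl⟩
    rw [Finset.mem_powerset] at hV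
    exact ⟨V.image (rb X x T), Finset.image_subset_image hV, c2 V (hV.trans hU)⟩

/-- a face is determined by its cube -/
theorem face_eq (h1 : S_CU1) (h2 : S_CU2) {X : SimpleGraph ℕ} (hX : IsMedianGraph X)
    (hf : LocFin X) {v : ℕ} {s t : Finset ℕ} (hs : s ∈ link X v) (ht : t ∈ link X v)
    (h : cubeSet X v s ⊆ cubeSet X v t) : s ⊆ t := by
  intro a ha
  obtain ⟨-, c2, -⟩ := h1 X hX hf v s hs
  have haQ : a ∈ cubeSet X v s := mem_cubeSet.2 ⟨{a}, Finset.singleton_subset_iff.2 ha, c2 a ha⟩
  obtain ⟨V, hV, hVa⟩ := mem_cubeSet.1 (h haQ)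
  have e1 := STAP.In_corner h1 h2 hX hf ht hV
  have e2 := STAP.In_corner h1 h2 hX hf hs (Finset.singleton_subset_iff.2 ha)
  rw [c2 a ha] at e2
  rw [hVa, e2] at e1
  exact hV (e1 ▸ Finset.mem_singleton_self a)

/-- AVG -/
theorem prf (hM : S_MG5) (hW2 : S_WA2) (hW3 : S_WA3) (h1 : S_CU1) (h2 : S_CU2) (h3 : S_CU3)
    (h4 : S_CU4) (hFL : S_FL0) : S_AVG := by
  intro X hX hf m hdim x f hK hn Q hQ hmono
  have hSTA : S_STA := STAP.prf h1 h2 h3
  have hface : ∀ y, In X x y ∈ link X x := by
    intro y
    obtain ⟨D⟩ := hM X hX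
    exact EV1.In_face hf D (hW2 X hX D).1
      (fun x a b ha hb hab => (hW3 X hX D x a b ha hb hab).1) x y
  obtain ⟨FL1, FL2, FL3⟩ := hFL X hX hf m hdim
  have hlastsub : ∀ i, Q i ⊆ Q (Fin.last (m + 1)) := fun i => hmono (Fin.le_last i)
  have hne : ∀ i, (Q i).Nonempty := by
    intro i
    obtain ⟨y, t, _, hy⟩ := hQ i
    rw [hy]
    exact cubeSet_nonempty
  by_cases hx : x ∈ Q (Fin.last (m + 1))
  · -- `x` is a vertex of the last cube
    obtain ⟨y, t, ht, hQt⟩ := hQ (Fin.last (m + 1))
    obtain ⟨T', hT', hxT⟩ := mem_cubeSet.1 (hQt ▸ hx : x ∈ cubeSet X y t)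
    obtain ⟨s, hs, hQs⟩ : ∃ s ∈ link X x, Q (Fin.last (m + 1)) = cubeSet X x s := by
      obtain ⟨e1, e2⟩ := cubeSet_change h3 hX hf ht hT' (le_refl t)
      rw [hxT] at e1 e2
      refine ⟨t.image (rb X y T'), e1, ?_⟩
      rw [e2, hQt]
      ext z
      rw [mem_cubeSet, Finset.mem_image]
      constructor
      · rintro ⟨V, hV, rfl⟩
        refine ⟨symmDiff T' V, Finset.mem_powerset.2 ?_, ?_⟩
        · intro b hb
          rcases Finset.mem_symmDiff.1 hb with hb | hb
          · exact hT' hb.1
          · exact hV hb.1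
        · rw [symmDiff_symmDiff_cancel_left]
      · rintro ⟨V, hV, rfl⟩
        rw [Finset.mem_powerset] at hV
        refine ⟨symmDiff T' V, ?_, rfl⟩
        intro b hb
        rcases Finset.mem_symmDiff.1 hb with hb | hb
        · exact hT' hb.1
        · exact hV hb.1
    have hsN : s ⊆ nbr X x := (mem_link.1 hs).1
    choose T U hTs hUs hd hQi hIn hrA using fun i =>
      hSTA X hX hf x s hs (Q i) (hQ i) (hQs ▸ hlastsub i)
    -- monotonicity
    have hm : ∀ i j, i ≤ j → U i ⊆ U j ∧ T j ⊆ T i ∧ T i ⊆ T j ∪ U j := by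
      intro i j hij
      have hsub : Q i ⊆ Q j := hmono hij
      have hst : ∀ V ⊆ U i, ∃ V' ⊆ U j, T i ∪ V = T j ∪ V' := by
        intro V hV
        have hmem : corner X x (T i ∪ V) ∈ Q j := by
          apply hsub
          rw [hQi i]
          exact Finset.mem_image.2 ⟨V, Finset.mem_powerset.2 hV, rfl⟩
        rw [hQi j, Finset.mem_image] at hmem
        obtain ⟨V', hV', he⟩ := hmem
        rw [Finset.mem_powerset] at hV'
        refine ⟨V', hV', ?_⟩
        rw [← hIn i V hV, ← hIn j V' hV', he]
      obtain ⟨V0, hV0, e0⟩ := hst ∅ (Finset.empty_subset _)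
      rw [Finset.union_empty] at e0
      have hTT : T j ⊆ T i := by rw [e0]; exact Finset.subset_union_left
      refine ⟨?_, hTT, ?_⟩
      · intro a ha
        obtain ⟨V', hV', e⟩ := hst {a} (Finset.singleton_subset_iff.2 ha)
        have hmem : a ∈ T j ∪ V' := by
          rw [← e]
          exact Finset.mem_union_right _ (Finset.mem_singleton_self a)
        rcases Finset.mem_union.1 hmem with h | h
        · exact absurd ha (Finset.disjoint_left.1 (hd i) (hTT h))
        · exact hV' h
      · rw [e0]
        exact Finset.union_subset_union_right hV0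
    have hcx : ∀ A, cx X f x (fun i => rA X x A (Q i)) = RA.dl f fun i => T i ∪ (U i ∩ A) := by
      intro A
      unfold cx
      congr 1
      funext i
      show In X x (rA X x A (Q i)) = T i ∪ (U i ∩ A)
      rw [hrA i A, hIn i _ Finset.inter_subset_left]
    have hnorm : ∀ W : Fin (m + 2) → Finset ℕ, (∀ i, W i ⊆ s) → ∀ i : Fin (m + 1),
        W i.castSucc = W i.succ → RA.dl f W = 0 := by
      intro W hW i hi
      exact dl_rep f s (fun T hT j hj => hn T (fun i => link_mono hs (hT i)) j hj) W hW i hi
    by_cases hinj : Function.Injective Q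
    · obtain ⟨v, s', hs', hQfl⟩ := FL3 Q hQ hmono hinj
      obtain ⟨-, -, -, hcard⟩ := FL1 v s' hs'
      have hc : ∀ i, (U i).card = (i : ℕ) := by
        intro i
        have e1 : (Q i).card = 2 ^ (U i).card := by
          rw [← Finset.card_powerset]
          conv_lhs => rw [hQi i]
          apply Finset.card_image_of_injOn
          intro V hV V' hV' he
          rw [Finset.mem_coe, Finset.mem_powerset] at hV hV'
          have e := hIn i V hV
          have he' : corner X x (T i ∪ V) = corner X x (T i ∪ V') := he
          rw [he', hIn i V' hV'] at e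
          have hdV : Disjoint (T i) V := Finset.disjoint_of_subset_right hV (hd i)
          have hdV' : Disjoint (T i) V' := Finset.disjoint_of_subset_right hV' (hd i)
          ext b
          have hb : b ∈ T i ∪ V' ↔ b ∈ T i ∪ V := by rw [e]
          rw [Finset.mem_union, Finset.mem_union] at hb
          constructor
          · intro h
            rcases hb.2 (Or.inr h) with h' | h'
            · exact absurd h (Finset.disjoint_left.1 hdV h')
            · exact h'
          · intro h
            rcases hb.1 (Or.inr h) with h' | h'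
            · exact absurd h (Finset.disjoint_left.1 hdV' h')
            · exact h'
        have e2 : (Q i).card = 2 ^ (i : ℕ) := by
          rw [hQfl]
          exact hcard i
        rw [e1] at e2
        exact Nat.pow_right_injective (le_refl 2) e2
      have hcomb := comb (nbr X x) s hsN T U hTs hUs hd hm hc (hdim x s hs) (RA.dl f) hnorm
      have hsum : ∑ A ∈ (nbr X x).powerset, cx X f x (fun i => rA X x A (Q i)) =
          ∑ A ∈ (nbr X x).powerset, RA.dl f fun i => T i ∪ (U i ∩ A) :=
        Finset.sum_congr rfl fun A _ => hcx A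
      rw [hsum, hcomb]
      congr 1
      have hU0 : U 0 = ∅ := by
        rw [← Finset.card_eq_zero, hc]
        rfl
      -- the vertex `v`
      have hv : v = corner X x (T 0) := by
        have e1 : Q 0 = cubeSet X v (Sp.pre s' 0) := by
          rw [hQfl]
          rfl
        obtain ⟨c1, -⟩ := h1 X hX hf v ∅ (empty_mem_link X v)
        have hvQ : v ∈ Q 0 := by
          rw [e1]
          exact mem_cubeSet.2 ⟨∅, Finset.empty_subset _, c1⟩
        rw [hQi 0, hU0] at hvQ
        simp only [Finset.powerset_empty, Finset.image_singleton, Finset.union_empty,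
          Finset.mem_singleton] at hvQ
        exact hvQ
      have hvstar : v ∈ star X x := by
        unfold star
        rw [hv]
        exact Finset.mem_image.2 ⟨T 0, link_mono hs (hTs 0), rfl⟩
      rw [Finset.sum_eq_single_of_mem v hvstar]
      · rw [Finset.sum_eq_single_of_mem s' hs']
        · rw [if_pos (fun i => by rw [hQfl]; rfl)]
          unfold cx
          congr 1
          funext i
          -- the corner of `Q i` opposite to `v`
          have hpre : Sp.pre s' i = (U i).image (rb X x (T 0)) := by
            obtain ⟨e1, e2⟩ := cubeSet_change h3 hX hf hs (hTs 0) (hUs i)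
            rw [← hv] at e1 e2
            have hlk : Sp.pre s' i ∈ link X v := by
              unfold Dom at hs'
              refine link_mono (Finset.mem_filter.1 hs').2.2 ?_
              intro b hb
              obtain ⟨j, _, hj⟩ := Sp.mem_pre.1 hb
              exact Finset.mem_image.2 ⟨j, Finset.mem_univ _, hj⟩
            have hcs : cubeSet X v (Sp.pre s' i) = cubeSet X v ((U i).image (rb X x (T 0))) := by
              rw [e2]
              have e3 : cubeSet X v (Sp.pre s' i) = Q i := by
                rw [hQfl]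
                rfl
              rw [e3]
              conv_lhs => rw [hQi i]
              have hm0 := hm 0 i (Fin.zero_le _)
              ext z
              rw [Finset.mem_image, Finset.mem_image]
              constructor
              · rintro ⟨V, hV, rfl⟩
                rw [Finset.mem_powerset] at hV
                refine ⟨symmDiff (T 0 ∩ U i) V, Finset.mem_powerset.2 ?_, ?_⟩
                · intro b hb
                  rcases Finset.mem_symmDiff.1 hb with hb | hb
                  · exact (Finset.mem_inter.1 hb.1).2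
                  · exact hV hb.1
                · congr 1
                  ext b
                  have hb1 : b ∈ T 0 → b ∈ T i ∨ b ∈ U i := fun h =>
                    Finset.mem_union.1 (hm0.2.2 h)
                  have hb2 : b ∈ T i → b ∈ T 0 := fun h => hm0.2.1 h
                  have hb3 : b ∈ T i → b ∉ U i := fun h => Finset.disjoint_left.1 (hd i) h
                  have hb4 : b ∈ V → b ∈ U i := fun h => hV h
                  simp only [Finset.mem_symmDiff, Finset.mem_inter, Finset.mem_union]
                  tauto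
              · rintro ⟨V, hV, rfl⟩
                rw [Finset.mem_powerset] at hV
                refine ⟨symmDiff (T 0 ∩ U i) V, Finset.mem_powerset.2 ?_, ?_⟩
                · intro b hb
                  rcases Finset.mem_symmDiff.1 hb with hb | hb
                  · exact (Finset.mem_inter.1 hb.1).2
                  · exact hV hb.1
                · congr 1
                  ext b
                  have hb1 : b ∈ T 0 → b ∈ T i ∨ b ∈ U i := fun h =>
                    Finset.mem_union.1 (hm0.2.2 h)
                  have hb2 : b ∈ T i → b ∈ T 0 := fun h => hm0.2.1 h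
                  have hb3 : b ∈ T i → b ∉ U i := fun h => Finset.disjoint_left.1 (hd i) h
                  have hb4 : b ∈ V → b ∈ U i := fun h => hV h
                  simp only [Finset.mem_symmDiff, Finset.mem_inter, Finset.mem_union]
                  tauto
            exact Finset.Subset.antisymm (face_eq h1 h2 hX hf hlk e1 (le_of_eq hcs))
              (face_eq h1 h2 hX hf e1 hlk (le_of_eq hcs.symm))
          obtain ⟨-, c2⟩ := h3 X hX hf x s hs (T 0) (hTs 0)
          show symmDiff (T 0) (U i) = In X x (corner X v (Sp.pre s' i))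
          rw [hpre, hv, c2 (U i) (hUs i)]
          have hsd : symmDiff (T 0) (U i) ⊆ s := by
            intro b hb
            rcases Finset.mem_symmDiff.1 hb with hb | hb
            · exact hTs 0 hb.1
            · exact hUs i hb.1
          exact (STAP.In_corner h1 h2 hX hf hs hsd).symm
        · intro s'' hs'' hne'
          rw [if_neg]
          intro hall
          have : Q = flg X v s'' := funext hall
          exact hne' ((FL2 v s' hs' v s'' hs'' (hQfl.symm.trans this)).2).symm
      · intro v' _ hne'
        apply Finset.sum_eq_zero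
        intro s'' hs''
        rw [if_neg]
        intro hall
        have : Q = flg X v' s'' := funext hall
        exact hne' ((FL2 v s' hs' v' s'' hs'' (hQfl.symm.trans this)).1).symm
    · -- a repeated cube
      obtain ⟨i, hi⟩ := DLIP.exists_consec Q hmono hinj
      have e1 : ∑ A ∈ (nbr X x).powerset, cx X f x (fun i => rA X x A (Q i)) = 0 := by
        apply Finset.sum_eq_zero
        intro A _
        rw [hcx A]
        refine hnorm _ (fun j => Finset.union_subset (hTs j)
          (Finset.inter_subset_left.trans (hUs j))) i ?_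
        show T i.castSucc ∪ (U i.castSucc ∩ A) = T i.succ ∪ (U i.succ ∩ A)
        rw [← hIn i.castSucc _ Finset.inter_subset_left, ← hIn i.succ _ Finset.inter_subset_left,
          ← hrA i.castSucc A, ← hrA i.succ A, hi]
      have e2 : ∑ v ∈ star X x, ∑ s ∈ Dom X (m + 1) v,
          (if (∀ i : Fin (m + 2), Q i = cubeSet X v (Sp.pre s i)) then
            cx X f x (fun i => corner X v (Sp.pre s i)) else 0) = 0 := by
        apply Finset.sum_eq_zero
        intro v' _
        apply Finset.sum_eq_zero
        intro s'' hs''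
        rw [if_neg]
        intro hall
        apply hinj
        have : Q = flg X v' s'' := funext hall
        rw [this]
        exact (FL1 v' s'' hs'').2.1
      rw [e1, e2, mul_zero, mul_zero]
  · -- `x` is not a vertex of the last cube: both sides vanish
    obtain ⟨y, t, ht, hQt⟩ := hQ (Fin.last (m + 1))
    obtain ⟨a, ha⟩ := h4 X hX hf y t ht x (by
      intro T hT he
      apply hx
      rw [hQt]
      exact mem_cubeSet.2 ⟨T, hT, he.symm⟩)
    have hz : ∀ w : Fin (m + 2) → ℕ, (∀ i, w i ∈ Q (Fin.last (m + 1))) → cx X f x w = 0 := by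
      intro w hw
      unfold cx
      apply hK
      have hmem : ∀ i, a ∈ In X x (w i) := by
        intro i
        obtain ⟨V, hV, hVw⟩ := mem_cubeSet.1 (hQt ▸ hw i : w i ∈ cubeSet X y t)
        rw [← hVw]
        exact ha V hV
      exact ⟨fun i => ⟨hface _, a, hmem i⟩, Or.inl ⟨a, hmem⟩⟩
    have e1 : ∑ A ∈ (nbr X x).powerset, cx X f x (fun i => rA X x A (Q i)) = 0 := by
      apply Finset.sum_eq_zero
      intro A _
      exact hz _ fun i => hlastsub i (rA_mem (hne i))
    have e2 : ∑ v ∈ star X x, ∑ s ∈ Dom X (m + 1) v,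
        (if (∀ i : Fin (m + 2), Q i = cubeSet X v (Sp.pre s i)) then
          cx X f x (fun i => corner X v (Sp.pre s i)) else 0) = 0 := by
      apply Finset.sum_eq_zero
      intro v' _
      apply Finset.sum_eq_zero
      intro s'' _
      split_ifs with hall
      · apply hz
        intro i
        apply hlastsub i
        rw [hall i]
        exact mem_cubeSet.2 ⟨_, le_refl _, rfl⟩
      · rfl
    rw [e1, e2, mul_zero, mul_zero]

end MP8a95ee.Npc.AVGP
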