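import Pool.Agent.Work.MP_8a95ee_gt.Fb.Stmts

/-!
# Item CG1: the Leibniz rule for the cap product summed over the group
-/

set_option autoImplicit false

namespace MP8a95ee.Npc.CG1P

open Classical Finset

/-- `capG` is constant on the orbits -/
theorem capG_smul (G : Type) [Group G] {P : Type} [MulAction G P] {k b N : ℕ}
    (h : N = k + b) (a : (Fin (k + 1) → P) → ℝ) (p : Fin (N + 1) → P) (g0 : G) :
    capG G h a (fun i => g0 • p i) = capG G h a p := by
  have h1 := finsum_comp_equiv (Equiv.mulRight g0) (f := fun g : G =>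
    (Finsupp.single (fun j : Fin (b + 1) => g • p ⟨k + j, by omega⟩)
      (a fun i => g • p ⟨i, by omega⟩) : RA.Ch P (b + 1)))
  unfold capG
  rw [← h1]
  refine finsum_congr fun g => ?_
  simp [mul_smul]

/-- the cap product factors through the orbits -/
theorem CG_orb (G : Type) [Group G] {P : Type} [MulAction G P] {k b N : ℕ}
    (h : N = k + b) (a : (Fin (k + 1) → P) → ℝ) (y : RA.Ch P (N + 1))
    (hy : Finsupp.mapDomain (Quotient.mk (orbP G P (N + 1))) y = 0) : CG G h a y = 0 := by
  have hl : ∀ p p' : Fin (N + 1) → P, (orbP G P (N + 1)).r p p' → capG G h a p = capG G h a p' := by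
    rintro p p' ⟨g, hg⟩
    have : p' = fun i => g • p i := funext fun i => (hg i).symm
    rw [this, capG_smul]
  let F : Quotient (orbP G P (N + 1)) → RA.Ch P (b + 1) := Quotient.lift (capG G h a) hl
  have h1 : CG G h a y = Finsupp.linearCombination ℝ F
      (Finsupp.mapDomain (Quotient.mk (orbP G P (N + 1))) y) := by
    rw [Finsupp.linearCombination_mapDomain]
    rfl
  rw [h1, hy, map_zero]

/-- the face map on numbers -/
def sa (i j : ℕ) : ℕ := if j < i then j else j + 1

theorem sa_val {n : ℕ} (i : Fin (n + 1)) (j : Fin n) : ((i.succAbove j : Fin (n + 1)) : ℕ) = sa i j := by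
  unfold sa Fin.succAbove
  by_cases h : (j : ℕ) < i
  · have : j.castSucc < i := h
    simp [this, h]
  · have : ¬ j.castSucc < i := h
    simp [this, h]

/-- the identity for one translate, sequences instead of tuples -/
theorem key_nat {P : Type} (k b : ℕ) (a : (Fin (k + 1) → P) → ℝ) (V : ℕ → P) :
    (Finsupp.single (fun j : Fin (b + 1) => V (k + 1 + j))
      (∑ i ∈ range (k + 2), (-1 : ℝ) ^ i * a fun l : Fin (k + 1) => V (sa i l)) : RA.Ch P (b + 1)) =
    ∑ i ∈ range (k + 1 + (b + 1)), (-1 : ℝ) ^ i • Finsupp.single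
        (fun j : Fin (b + 1) => V (sa i (k + j))) (a fun l : Fin (k + 1) => V (sa i l)) +
    (-1 : ℝ) ^ (k + 1) • ∑ i ∈ range (b + 2), (-1 : ℝ) ^ i • Finsupp.single
        (fun j : Fin (b + 1) => V (k + sa i j)) (a fun l : Fin (k + 1) => V l) := by
  rw [Finset.sum_range_succ _ (k + 1), Finset.sum_range_succ' _ (b + 1), Finset.sum_range_add _ (k + 1) (b + 1)]
  have e1 : ∑ i ∈ range (k + 1), (-1 : ℝ) ^ i • (Finsupp.single
        (fun j : Fin (b + 1) => V (sa i (k + j))) (a fun l : Fin (k + 1) => V (sa i l)) :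
          RA.Ch P (b + 1)) =
      Finsupp.single (fun j : Fin (b + 1) => V (k + 1 + j))
        (∑ i ∈ range (k + 1), (-1 : ℝ) ^ i * a fun l : Fin (k + 1) => V (sa i l)) := by
    rw [Finsupp.single_finsetSum]
    refine Finset.sum_congr rfl fun i hi => ?_
    rw [Finsupp.smul_single, smul_eq_mul]
    congr 1
    funext j
    have hi' := Finset.mem_range.1 hi
    have : ¬ k + (j : ℕ) < i := by omega
    rw [sa, if_neg this]
    congr 1
    omega
  have e2 : ∀ x : ℕ, (-1 : ℝ) ^ (k + 1 + x) • (Finsupp.single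
        (fun j : Fin (b + 1) => V (sa (k + 1 + x) (k + j)))
          (a fun l : Fin (k + 1) => V (sa (k + 1 + x) l)) : RA.Ch P (b + 1)) +
      (-1 : ℝ) ^ (k + 1) • ((-1 : ℝ) ^ (x + 1) • Finsupp.single
        (fun j : Fin (b + 1) => V (k + sa (x + 1) j)) (a fun l : Fin (k + 1) => V l)) = 0 := by
    intro x
    have h1 : (fun j : Fin (b + 1) => V (sa (k + 1 + x) (k + j))) =
        fun j : Fin (b + 1) => V (k + sa (x + 1) j) := by
      funext j
      congr 1
      unfold sa
      split_ifs <;> omega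
    have h2 : (fun l : Fin (k + 1) => V (sa (k + 1 + x) l)) = fun l : Fin (k + 1) => V l := by
      funext l
      congr 1
      unfold sa
      have := l.2
      split_ifs <;> omega
    rw [h1, h2, smul_smul, ← add_smul]
    have : (-1 : ℝ) ^ (k + 1 + x) + (-1 : ℝ) ^ (k + 1) * (-1 : ℝ) ^ (x + 1) = 0 := by ring
    rw [this, zero_smul]
  have e3 : (fun j : Fin (b + 1) => V (k + sa 0 j)) = fun j : Fin (b + 1) => V (k + 1 + j) := by
    funext j
    congr 1
    unfold sa
    simp
    omega
  have e4 : (fun l : Fin (k + 1) => V (sa (k + 1) l)) = fun l : Fin (k + 1) => V l := by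
    funext l
    congr 1
    unfold sa
    have := l.2
    split_ifs <;> omega
  have e5 : ∑ x ∈ range (b + 1), (-1 : ℝ) ^ (k + 1 + x) • (Finsupp.single
        (fun j : Fin (b + 1) => V (sa (k + 1 + x) (k + j)))
          (a fun l : Fin (k + 1) => V (sa (k + 1 + x) l)) : RA.Ch P (b + 1)) +
      (-1 : ℝ) ^ (k + 1) • ∑ x ∈ range (b + 1), ((-1 : ℝ) ^ (x + 1) • Finsupp.single
        (fun j : Fin (b + 1) => V (k + sa (x + 1) j)) (a fun l : Fin (k + 1) => V l)) = 0 := by
    rw [Finset.smul_sum, ← Finset.sum_add_distrib]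
    exact Finset.sum_eq_zero fun x _ => e2 x
  rw [e1, e3, e4, Finsupp.single_add, smul_add]
  have e6 : (Finsupp.single (fun j : Fin (b + 1) => V (k + 1 + j))
      ((-1 : ℝ) ^ (k + 1) * a fun l : Fin (k + 1) => V l) : RA.Ch P (b + 1)) =
      (-1 : ℝ) ^ (k + 1) • ((-1 : ℝ) ^ 0 • Finsupp.single
        (fun j : Fin (b + 1) => V (k + 1 + j)) (a fun l : Fin (k + 1) => V l)) := by
    rw [pow_zero, one_smul, Finsupp.smul_single, smul_eq_mul]
  rw [e6]
  rw [← add_assoc, add_assoc (Finsupp.single _ _) _ ((-1 : ℝ) ^ (k + 1) • ∑ x ∈ range (b + 1), _),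
    e5, add_zero]

/-- the identity for one translate -/
theorem key {P : Type} (k b N : ℕ) (h : N = k + b) (a : (Fin (k + 1) → P) → ℝ)
    (v : Fin (N + 1 + 1) → P) :
    (Finsupp.single (fun j : Fin (b + 1) => v ⟨k + 1 + j, by omega⟩)
      (RA.dl a fun i : Fin (k + 1 + 1) => v ⟨i, by omega⟩) : RA.Ch P (b + 1)) =
    ∑ i : Fin (N + 1 + 1), (-1 : ℝ) ^ (i : ℕ) • Finsupp.single
        (fun j : Fin (b + 1) => v (i.succAbove ⟨k + j, by omega⟩))
        (a fun l : Fin (k + 1) => v (i.succAbove ⟨l, by omega⟩)) +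
    (-1 : ℝ) ^ (k + 1) • RA.bdT (Finsupp.single
        (fun j : Fin (b + 1 + 1) => v ⟨k + j, by omega⟩) (a fun l : Fin (k + 1) => v ⟨l, by omega⟩)) := by
  obtain ⟨V, hV⟩ : ∃ V : ℕ → P, ∀ i : Fin (N + 1 + 1), v i = V i :=
    ⟨fun n => v ⟨min n (N + 1), by omega⟩, fun i => by
      congr 1
      ext
      have := i.2
      simp
      omega⟩
  have h0 := key_nat k b a V
  have t1 : (Finsupp.single (fun j : Fin (b + 1) => v ⟨k + 1 + j, by omega⟩)
      (RA.dl a fun i : Fin (k + 1 + 1) => v ⟨i, by omega⟩) : RA.Ch P (b + 1)) =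
      Finsupp.single (fun j : Fin (b + 1) => V (k + 1 + j))
      (∑ i ∈ range (k + 2), (-1 : ℝ) ^ i * a fun l : Fin (k + 1) => V (sa i l)) := by
    rw [Finset.sum_range]
    congr 1
    · funext j
      rw [hV]
    · unfold RA.dl
      refine Finset.sum_congr rfl fun i _ => ?_
      rw [smul_eq_mul]
      congr 2
      funext l
      show v _ = _
      rw [hV]
      simp only [sa_val]
  have t3 : ∑ i : Fin (N + 1 + 1), (-1 : ℝ) ^ (i : ℕ) • (Finsupp.single
        (fun j : Fin (b + 1) => v (i.succAbove ⟨k + j, by omega⟩))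
        (a fun l : Fin (k + 1) => v (i.succAbove ⟨l, by omega⟩)) : RA.Ch P (b + 1)) =
      ∑ i ∈ range (k + 1 + (b + 1)), (-1 : ℝ) ^ i • Finsupp.single
        (fun j : Fin (b + 1) => V (sa i (k + j))) (a fun l : Fin (k + 1) => V (sa i l)) := by
    have e : k + 1 + (b + 1) = N + 1 + 1 := by omega
    rw [e, Finset.sum_range]
    refine Finset.sum_congr rfl fun i _ => ?_
    congr 2
    · funext j
      rw [hV, sa_val]
    · congr 1
      funext l
      rw [hV, sa_val]
  have t2 : RA.bdT (Finsupp.single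
        (fun j : Fin (b + 1 + 1) => v ⟨k + j, by omega⟩)
          (a fun l : Fin (k + 1) => v ⟨l, by omega⟩)) =
      ∑ i ∈ range (b + 2), (-1 : ℝ) ^ i • (Finsupp.single
        (fun j : Fin (b + 1) => V (k + sa i j)) (a fun l : Fin (k + 1) => V l) :
          RA.Ch P (b + 1)) := by
    unfold RA.bdT
    rw [Finsupp.linearCombination_single, Finset.sum_range]
    unfold RA.bdT0
    rw [Finset.smul_sum]
    refine Finset.sum_congr rfl fun i _ => ?_
    rw [Finsupp.smul_single, Finsupp.smul_single, smul_eq_mul, smul_eq_mul, mul_comm]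
    congr 1
    · funext j
      show v _ = _
      rw [hV]
      simp only [sa_val]
    · congr 2
      funext l
      rw [hV]
  rw [t1, t3, t2]
  exact h0

/-- the identity for one tuple -/
theorem key2 (G : Type) [Group G] {P : Type} [MulAction G P] (k b N : ℕ) (h : N = k + b)
    (a : (Fin (k + 1) → P) → ℝ) (ha : LFn G a) (p : Fin (N + 1 + 1) → P) :
    capG G (show N + 1 = (k + 1) + b by omega) (fun p => RA.dl a p) p =
      ∑ i : Fin (N + 1 + 1), (-1 : ℝ) ^ (i : ℕ) • capG G h a (fun j => p (i.succAbove j)) +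
      (-1 : ℝ) ^ (k + 1) • RA.bdT (capG G (show N + 1 = k + (b + 1) by omega) a p) := by
  have hf : ∀ q : Fin (k + 1) → P, {g : G | a (fun i => g • q i) ≠ 0}.Finite := ha
  let U : Set G := (⋃ i : Fin (N + 1 + 1),
      {g : G | a (fun l : Fin (k + 1) => g • p (i.succAbove ⟨l, by omega⟩)) ≠ 0}) ∪
    ({g : G | a (fun l : Fin (k + 1) => g • p ⟨l, by omega⟩) ≠ 0} ∪
      ⋃ i : Fin (k + 1 + 1),
        {g : G | a (fun l : Fin (k + 1) => g • p ⟨(i.succAbove l : Fin (k + 1 + 1)), by omega⟩) ≠ 0})
  have hU : U.Finite := by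
    refine (Set.finite_iUnion fun i => hf _).union ((hf _).union (Set.finite_iUnion fun i => hf _))
  have hU1 : ∀ g ∉ U, ∀ i : Fin (N + 1 + 1),
      a (fun l : Fin (k + 1) => g • p (i.succAbove ⟨l, by omega⟩)) = 0 := by
    intro g hg i
    by_contra hne
    exact hg (Or.inl (Set.mem_iUnion.2 ⟨i, hne⟩))
  have hU2 : ∀ g ∉ U, a (fun l : Fin (k + 1) => g • p ⟨l, by omega⟩) = 0 := by
    intro g hg
    by_contra hne
    exact hg (Or.inr (Or.inl hne))
  have hU3 : ∀ g ∉ U, ∀ i : Fin (k + 1 + 1), a (fun l : Fin (k + 1) =>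
      g • p ⟨(i.succAbove l : Fin (k + 1 + 1)), by omega⟩) = 0 := by
    intro g hg i
    by_contra hne
    exact hg (Or.inr (Or.inr (Set.mem_iUnion.2 ⟨i, hne⟩)))
  have s1 : capG G (show N + 1 = (k + 1) + b by omega) (fun p => RA.dl a p) p =
      ∑ g ∈ hU.toFinset, (Finsupp.single (fun j : Fin (b + 1) => g • p ⟨k + 1 + j, by omega⟩)
      (RA.dl a fun i : Fin (k + 1 + 1) => g • p ⟨i, by omega⟩) : RA.Ch P (b + 1)) := by
    unfold capG
    refine finsum_eq_sum_of_support_subset _ fun g hg => ?_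
    rw [Set.Finite.coe_toFinset]
    by_contra hgU
    apply hg
    show (Finsupp.single _ _ : RA.Ch P (b + 1)) = 0
    rw [Finsupp.single_eq_zero]
    unfold RA.dl
    exact Finset.sum_eq_zero fun i _ => by rw [hU3 g hgU i, smul_zero]
  have s3 : ∀ i : Fin (N + 1 + 1), capG G h a (fun j => p (i.succAbove j)) =
      ∑ g ∈ hU.toFinset, (Finsupp.single
        (fun j : Fin (b + 1) => g • p (i.succAbove ⟨k + j, by omega⟩))
        (a fun l : Fin (k + 1) => g • p (i.succAbove ⟨l, by omega⟩)) : RA.Ch P (b + 1)) := by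
    intro i
    unfold capG
    refine finsum_eq_sum_of_support_subset _ fun g hg => ?_
    rw [Set.Finite.coe_toFinset]
    by_contra hgU
    apply hg
    show (Finsupp.single _ _ : RA.Ch P (b + 1)) = 0
    rw [Finsupp.single_eq_zero]
    exact hU1 g hgU i
  have s2 : capG G (show N + 1 = k + (b + 1) by omega) a p =
      ∑ g ∈ hU.toFinset, (Finsupp.single
        (fun j : Fin (b + 1 + 1) => g • p ⟨k + j, by omega⟩)
        (a fun l : Fin (k + 1) => g • p ⟨l, by omega⟩) : RA.Ch P (b + 1 + 1)) := by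
    unfold capG
    refine finsum_eq_sum_of_support_subset _ fun g hg => ?_
    rw [Set.Finite.coe_toFinset]
    by_contra hgU
    apply hg
    show (Finsupp.single _ _ : RA.Ch P (b + 1 + 1)) = 0
    rw [Finsupp.single_eq_zero]
    exact hU2 g hgU
  rw [s1, s2, map_sum, Finset.smul_sum]
  simp_rw [s3, Finset.smul_sum]
  rw [Finset.sum_comm, ← Finset.sum_add_distrib]
  refine Finset.sum_congr rfl fun g _ => ?_
  exact key k b N h a fun i => g • p i

theorem prf : S_CG1 := by
  intro G _ P _ k b N h a ha e he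
  have h1 : CG G h a (RA.bdT e) = 0 := CG_orb G h a _ he
  have h2 : ∀ e : RA.Ch P (N + 1 + 1),
      CG G (show N + 1 = (k + 1) + b by omega) (fun p => RA.dl a p) e =
      CG G h a (RA.bdT e) +
      (-1 : ℝ) ^ (k + 1) • RA.bdT (CG G (show N + 1 = k + (b + 1) by omega) a e) := by
    intro e
    induction e using Finsupp.induction_linear with
    | zero => simp
    | add e e' he he' =>
      simp only [map_add, smul_add]
      rw [he, he']
      abel
    | single p r =>
      have e1 : CG G (show N + 1 = (k + 1) + b by omega) (fun p => RA.dl a p) (Finsupp.single p r) =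
          r • capG G (show N + 1 = (k + 1) + b by omega) (fun p => RA.dl a p) p := by
        unfold CG
        rw [Finsupp.linearCombination_single]
      have e2 : CG G (show N + 1 = k + (b + 1) by omega) a (Finsupp.single p r) =
          r • capG G (show N + 1 = k + (b + 1) by omega) a p := by
        unfold CG
        rw [Finsupp.linearCombination_single]
      have e3 : CG G h a (RA.bdT (Finsupp.single p r)) =
          r • ∑ i : Fin (N + 1 + 1), (-1 : ℝ) ^ (i : ℕ) • capG G h a (fun j => p (i.succAbove j)) := by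
        unfold RA.bdT
        rw [Finsupp.linearCombination_single, map_smul]
        unfold RA.bdT0
        rw [map_sum]
        congr 1
        refine Finset.sum_congr rfl fun i _ => ?_
        unfold CG
        rw [Finsupp.linearCombination_single]
      rw [e1, e2, e3, key2 G k b N h a ha p, smul_add, map_smul, smul_comm]
  rw [h2 e, h1, zero_add]

end MP8a95ee.Npc.CG1P
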