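import Pool.Agent.Work.MP_8a95ee_gt.Fb.Stmts

/-!
# CG2: linearity of the cap product in the function
-/

set_option autoImplicit false

namespace MP8a95ee.Npc.CG2P

open Classical

theorem prf : S_CG2 := by
  intro G _ P _ k b N h ι I u a ha e
  have key : ∀ p : Fin (N + 1) → P, capG G h (fun p => ∑ i ∈ I, u i * a i p) p =
      ∑ i ∈ I, u i • capG G h (a i) p := by
    intro p
    unfold capG
    have h1 : ∀ g : G, Finsupp.single (fun j : Fin (b + 1) => g • p ⟨k + j, by omega⟩)
        (∑ i ∈ I, u i * a i fun i => g • p ⟨i, by omega⟩) =
        ∑ i ∈ I, u i • Finsupp.single (fun j : Fin (b + 1) => g • p ⟨k + j, by omega⟩)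
          (a i fun i => g • p ⟨i, by omega⟩) := by
      intro g
      rw [Finsupp.single_finsetSum]
      refine Finset.sum_congr rfl fun i _ => ?_
      rw [Finsupp.smul_single, smul_eq_mul]
    rw [finsum_congr h1, finsum_sum_comm]
    · refine Finset.sum_congr rfl fun i _ => ?_
      rw [smul_finsum]
    · intro i _
      refine (ha i fun i => p ⟨i, by omega⟩).subset ?_
      intro g hg
      rw [Function.mem_support] at hg
      intro h0
      apply hg
      rw [h0, Finsupp.single_zero, smul_zero]
  unfold CG
  induction e using Finsupp.induction_linear with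
  | zero => simp
  | add x y hx hy =>
    rw [map_add, hx, hy, ← Finset.sum_add_distrib]
    refine Finset.sum_congr rfl fun i _ => ?_
    rw [map_add, smul_add]
  | single p r =>
    rw [Finsupp.linearCombination_single, key, Finset.smul_sum]
    refine Finset.sum_congr rfl fun i _ => ?_
    rw [Finsupp.linearCombination_single, smul_comm]

end MP8a95ee.Npc.CG2P
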