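import Pool.Agent.Work.MP_8a95ee_gt.Fb.Defs2

/-!
# CHI: the Euler characteristic is multiplicative (block FB)
-/

set_option autoImplicit false

namespace MP8a95ee.Npc.CHIP

open Classical

theorem card_cubeSet (h1 : S_CU1) (X : SimpleGraph ℕ) (hX : IsMedianGraph X) (hL : LocFin X)
    (x : ℕ) (s : Finset ℕ) (hs : s ∈ link X x) : (cubeSet X x s).card = 2 ^ s.card := by
  obtain ⟨-, -, hinj, -⟩ := h1 X hX hL x s hs
  unfold cubeSet
  rw [Finset.card_image_of_injOn, Finset.card_powerset]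
  intro T hT U hU hTU
  exact hinj T (Finset.mem_powerset.1 hT) U (Finset.mem_powerset.1 hU) hTU

theorem cubeSet_image (h5 : S_CU5) (X : SimpleGraph ℕ) (hX : IsMedianGraph X)
    (hL : LocFin X) (g : Equiv.Perm ℕ) (hg : IsAut X g) (x : ℕ) (s : Finset ℕ)
    (hs : s ∈ link X x) : cubeSet X (g x) (s.image g) = (cubeSet X x s).image g := by
  have hc := (h5 X hX hL g hg).2.2.2.2.2.1
  have hsub : ∀ T ⊆ s, T ∈ link X x := by
    intro T hT
    unfold link at hs ⊢
    rw [Finset.mem_filter, Finset.mem_powerset] at hs ⊢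
    exact ⟨hT.trans hs.1, fun a ha b hb => hs.2 a (hT ha) b (hT hb)⟩
  unfold cubeSet
  ext y
  simp only [Finset.mem_image, Finset.mem_powerset]
  constructor
  · rintro ⟨T, hT, rfl⟩
    obtain ⟨U, hU, rfl⟩ : ∃ U ⊆ s, U.image g = T := by
      refine ⟨s.filter (fun a => g a ∈ T), Finset.filter_subset _ _, ?_⟩
      ext y
      simp only [Finset.mem_image, Finset.mem_filter]
      constructor
      · rintro ⟨a, ⟨_, h⟩, rfl⟩
        exact h
      · intro hy
        obtain ⟨a, ha, rfl⟩ := Finset.mem_image.1 (hT hy)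
        exact ⟨a, ⟨ha, hy⟩, rfl⟩
    exact ⟨corner X x U, ⟨U, hU, rfl⟩, (hc x U (hsub U hU)).symm⟩
  · rintro ⟨z, ⟨U, hU, rfl⟩, rfl⟩
    exact ⟨U.image g, Finset.image_subset_image hU, hc x U (hsub U hU)⟩

theorem cls_image (Γ : Subgroup (Equiv.Perm ℕ)) (A : Finset ℕ) (g : Equiv.Perm ℕ) (hg : g ∈ Γ) :
    (Quotient.mk (orbS Γ) A : Quotient (orbS Γ)) = Quotient.mk (orbS Γ) (A.image g) := by
  have h : (orbS Γ).r A (A.image g) := ⟨g, hg, by
    ext a
    simp [Finset.mem_image]⟩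
  exact Quotient.sound h

theorem prf (h1 : S_CU1) (h3 : S_PT3) (h5 : S_CU5) : S_CHI := by
  intro X hX hL Γ F hD P _ q hq hqe dim R cells χF hC
  have hfree := (h3 X hX hL Γ F hD).2.2.1
  have haut : ∀ g ∈ Γ, IsAut X g := fun g hg => hD.auto g hg
  set f : P → ℕ × Quotient (orbS Γ) :=
    fun p => (Nat.log 2 (q p).card, (Quotient.mk (orbS Γ) (q p) : Quotient (orbS Γ))) with hf
  have hfc : ∀ x, ∀ s ∈ link X x, ∀ p, q p = cubeSet X x s →
      f p = (s.card, (Quotient.mk (orbS Γ) (cubeSet X x s) : Quotient (orbS Γ))) := by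
    intro x s hs p hp
    simp only [hf, hp, card_cubeSet h1 X hX hL x s hs]
    rw [Nat.log_pow (by norm_num)]
  have hmaps : ∀ p ∈ R, f p ∈ (F.sigma fun x => link X x).image (fun p => (p.2.card,
      (Quotient.mk (orbS Γ) (cubeSet X p.1 p.2) : Quotient (orbS Γ)))) := by
    intro p _
    obtain ⟨x, s, hs, hp⟩ := hq p
    rw [hfc x s hs p hp]
    obtain ⟨y, ⟨hy, g, hg, hgx⟩, -⟩ := hD.rep x
    refine Finset.mem_image.2 ⟨⟨y, s.image g⟩, ?_, ?_⟩
    · refine Finset.mem_sigma.2 ⟨hy, ?_⟩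
      show s.image g ∈ link X y
      rw [← hgx]
      exact ((h5 X hX hL g (haut g hg)).2.2.2.1 x s).2 hs
    · show ((s.image g).card, (Quotient.mk (orbS Γ) (cubeSet X y (s.image g)) :
        Quotient (orbS Γ))) = _
      rw [Finset.card_image_of_injective _ g.injective]
      congr 1
      rw [← hgx, cubeSet_image h5 X hX hL g (haut g hg) x s hs]
      exact (cls_image Γ (cubeSet X x s) g hg).symm
  rw [← Finset.sum_fiberwise_of_maps_to hmaps]
  unfold eulerChar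
  rw [Finset.sum_mul]
  refine Finset.sum_congr rfl fun c hc => ?_
  obtain ⟨⟨x, s⟩, hxs, rfl⟩ := Finset.mem_image.1 hc
  have hs : s ∈ link X x := (Finset.mem_sigma.1 hxs).2
  show _ = (-1 : ℤ) ^ s.card * χF
  rw [← hC.chi x s hs]
  symm
  have hrep : ∀ p, (hC.rep p).choose ∈ R ∧ ∃ g : Γ, g • p = (hC.rep p).choose :=
    fun p => (hC.rep p).choose_spec.1
  have huniq : ∀ p r, r ∈ R → (∃ g : Γ, g • p = r) → r = (hC.rep p).choose :=
    fun p r hr hg => (hC.rep p).choose_spec.2 r ⟨hr, hg⟩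
  refine Finset.sum_bij (fun p _ => (hC.rep p).choose) ?_ ?_ ?_ ?_
  · intro p hp
    rw [hC.mem] at hp
    obtain ⟨hR, g, hg⟩ := hrep p
    refine Finset.mem_filter.2 ⟨hR, ?_⟩
    show f _ = _
    have hqr : q (hC.rep p).choose = (cubeSet X x s).image (g : Equiv.Perm ℕ) := by
      rw [← hg, hqe, hp]
    rw [hfc ((g : Equiv.Perm ℕ) x) (s.image (g : Equiv.Perm ℕ))
      (((h5 X hX hL _ (haut _ g.2)).2.2.2.1 x s).2 hs) _
      (hqr.trans (cubeSet_image h5 X hX hL _ (haut _ g.2) x s hs).symm)]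
    rw [Finset.card_image_of_injective _ (g : Equiv.Perm ℕ).injective]
    show (_, _) = (_, _)
    congr 1
    rw [cubeSet_image h5 X hX hL _ (haut _ g.2) x s hs]
    exact (cls_image Γ (cubeSet X x s) _ g.2).symm
  · intro p hp p' hp' heq
    rw [hC.mem] at hp hp'
    obtain ⟨-, g, hg⟩ := hrep p
    obtain ⟨-, g', hg'⟩ := hrep p'
    have heq' : g • p = g' • p' := by
      rw [hg, hg']
      exact heq
    have hpp : p' = (g'⁻¹ * g) • p := by
      rw [mul_smul, heq', inv_smul_smul]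
    have h := hqe (g'⁻¹ * g) p
    rw [← hpp, hp, hp'] at h
    have hone := hfree _ (g'⁻¹ * g).2 x s hs h.symm
    have hone' : g'⁻¹ * g = 1 := Subtype.ext hone
    rw [hpp, hone', one_smul]
  · intro r hr
    obtain ⟨hR, hfr⟩ := Finset.mem_filter.1 hr
    have hcl : (Quotient.mk (orbS Γ) (q r) : Quotient (orbS Γ)) =
        Quotient.mk (orbS Γ) (cubeSet X x s) := congrArg Prod.snd hfr
    obtain ⟨g, hg, hgr⟩ := Quotient.exact hcl
    refine ⟨(⟨g, hg⟩ : Γ) • r, ?_, ?_⟩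
    · rw [hC.mem, hqe]
      exact hgr.symm
    · exact (huniq _ r hR ⟨(⟨g, hg⟩ : Γ)⁻¹, inv_smul_smul _ _⟩).symm
  · intro p _
    obtain ⟨-, g, hg⟩ := hrep p
    show (-1 : ℤ) ^ dim p = (-1) ^ dim (hC.rep p).choose
    rw [← hg, hC.dim_smul]

end MP8a95ee.Npc.CHIP
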