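import Pool.Agent.Work.MP_8a95ee_gt.Fb.Stmts
import Pool.Agent.Work.MP_8a95ee_gt.Npc.FU

set_option autoImplicit false

/-! CXB: the cochains of the vertices. -/

namespace MP8a95ee.Npc.CXBP

open Classical

theorem dl_dl {S : Type} {n : ℕ} (f : (Fin n → S) → ℝ) (T : Fin (n + 2) → S) :
    RA.dl (RA.dl f) T = 0 := by
  unfold RA.dl
  simp only [smul_eq_mul, Finset.mul_sum]
  rw [← Finset.sum_product' (Finset.univ : Finset (Fin (n + 2)))
    (Finset.univ : Finset (Fin (n + 1)))
    (fun i j => (-1 : ℝ) ^ (i : ℕ) * ((-1 : ℝ) ^ (j : ℕ) *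
      f fun k => T (i.succAbove (j.succAbove k))))]
  refine Finset.sum_involution (fun p _ => (p.1.succAbove p.2, p.2.predAbove p.1)) ?_ ?_ ?_ ?_
  · rintro ⟨i, j⟩ _
    simp only [Fin.succAbove_succAbove_succAbove_predAbove]
    have h := Fin.neg_one_pow_succAbove_add_predAbove (R := ℝ) i j
    rw [← mul_assoc, ← mul_assoc, ← pow_add, ← pow_add, h]
    ring
  · rintro ⟨i, j⟩ _ _ h
    exact Fin.succAbove_ne i j (Prod.ext_iff.1 h).1
  · intro _ _
    exact Finset.mem_univ _
  · rintro ⟨i, j⟩ _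
    exact Prod.ext (Fin.succAbove_succAbove_predAbove _ _) (Fin.predAbove_predAbove_succAbove _ _)

/-- the key: a non zero value at `g • v` gives a vertex `g⁻¹ x` -/
theorem key (h5 : S_CU5) {X : SimpleGraph ℕ} (hX : IsMedianGraph X) (hL : LocFin X)
    {g : Equiv.Perm ℕ} (hg : IsAut X g) {k : ℕ} (x : ℕ) (v : Fin k → ℕ)
    (h : ¬ KF (link X x) fun l => In X x (g (v l))) :
    ¬ KF (link X (g⁻¹ x)) fun l => In X (g⁻¹ x) (v l) := by
  intro hk
  apply h
  obtain ⟨-, -, -, c4, c5, -, -⟩ := h5 X hX hL g hg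
  have e : g (g⁻¹ x) = x := g.apply_symm_apply x
  have h1 := FU.KF_image g (c4 (g⁻¹ x)) _ hk
  rw [e] at h1
  have h2 : (fun l => In X x (g (v l))) = fun l => (In X (g⁻¹ x) (v l)).image g := by
    funext l
    have := c5 (g⁻¹ x) (v l)
    rw [e] at this
    exact this
  rw [h2]
  exact h1

/-- the set of the vertices -/
def bad (X : SimpleGraph ℕ) {k : ℕ} (v : Fin k → ℕ) : Set ℕ :=
  {z | ¬ KF (link X z) fun l => In X z (v l)}

theorem bad_finite {X : SimpleGraph ℕ} {k B : ℕ} (v : Fin k → ℕ)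
    (h : ∀ Z : Finset ℕ, (∀ z ∈ Z, ¬ KF (link X z) fun l => In X z (v l)) → Z.card ≤ B) :
    (bad X v).Finite := by
  by_contra hi
  obtain ⟨Z, hZ, hc⟩ := (show (bad X v).Infinite from hi).exists_subset_card_eq (B + 1)
  have := h Z fun z hz => hZ hz
  omega

theorem prf (h5 : S_CU5) (h3 : S_PT3) : S_CXB := by
  intro X hX hL Γ F hD m B hB f hE hv C hC
  have hfree := (h3 X hX hL Γ F hD).2.1
  have hC0 : 0 ≤ C := le_trans (abs_nonneg _) (hC 0 fun _ => ∅)
  -- the values
  have hval : ∀ (x : ℕ) (g : Γ) (v : Fin (m + 2) → ℕ),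
      cx X (f x) x (fun i => g • v i) ≠ 0 → (g : Equiv.Perm ℕ)⁻¹ x ∈ bad X v := by
    intro x g v hne
    refine key h5 hX hL (hD.auto g g.2) x v fun hk => hne ?_
    exact hv x _ hk
  have hinj : ∀ (x : ℕ) (g h : Γ), (g : Equiv.Perm ℕ)⁻¹ x = (h : Equiv.Perm ℕ)⁻¹ x → g = h := by
    intro x g h he
    have h1 : ((h : Equiv.Perm ℕ) * (g : Equiv.Perm ℕ)⁻¹) x = x := by
      rw [Equiv.Perm.mul_apply, he]
      exact (h : Equiv.Perm ℕ).apply_symm_apply x
    have h2 := hfree _ (Γ.mul_mem h.2 (Γ.inv_mem g.2)) x h1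
    rw [mul_inv_eq_one] at h2
    exact Subtype.ext h2.symm
  have hfin : ∀ (x : ℕ) (v : Fin (m + 2) → ℕ),
      {g : Γ | cx X (f x) x (fun i => g • v i) ≠ 0}.Finite := by
    intro x v
    have hb := bad_finite v (hB v)
    refine Set.Finite.of_finite_image (f := fun g : Γ => (g : Equiv.Perm ℕ)⁻¹ x)
      (hb.subset ?_) fun g _ h _ he => hinj x g h he
    rintro _ ⟨g, hg, rfl⟩
    exact hval x g v hg
  refine ⟨fun x v => dl_dl (f x) fun i => In X x (v i), fun x v => hfin x v, ?_, ?_⟩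
  · intro v
    have e1 : ∀ x ∈ F, ∑ᶠ g : Γ, |cx X (f x) x fun i => g • v i| =
        ∑ g ∈ (hfin x v).toFinset, |cx X (f x) x fun i => g • v i| := by
      intro x _
      refine finsum_eq_sum_of_support_subset _ fun g hg => ?_
      rw [Set.Finite.coe_toFinset]
      intro h0
      apply hg
      simp only [h0, abs_zero]
    rw [Finset.sum_congr rfl e1, Finset.sum_sigma']
    have e2 : ∀ p ∈ F.sigma fun x => (hfin x v).toFinset,
        |cx X (f p.1) p.1 fun i => p.2 • v i| ≤ (m + 2) * C := by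
      intro p _
      unfold cx RA.dl
      refine (Finset.abs_sum_le_sum_abs _ _).trans ?_
      have : ∀ i ∈ (Finset.univ : Finset (Fin (m + 2))),
          |((-1 : ℝ) ^ (i : ℕ)) • f p.1 fun j => In X p.1 (p.2 • v (i.succAbove j))| ≤ C := by
        intro i _
        rw [smul_eq_mul, abs_mul, abs_pow, abs_neg, abs_one, one_pow, one_mul]
        exact hC _ _
      refine (Finset.sum_le_sum this).trans (le_of_eq ?_)
      rw [Finset.sum_const, Finset.card_univ, Fintype.card_fin, nsmul_eq_mul]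
      push_cast
      ring
    refine (Finset.sum_le_sum e2).trans ?_
    rw [Finset.sum_const, nsmul_eq_mul]
    refine mul_le_mul_of_nonneg_right ?_ (by positivity)
    have hcard : (F.sigma fun x => (hfin x v).toFinset).card ≤ B := by
      have hI : Set.InjOn (fun p : (Σ _ : ℕ, Γ) => (p.2 : Equiv.Perm ℕ)⁻¹ p.1)
          (F.sigma fun x => (hfin x v).toFinset : Set (Σ _ : ℕ, Γ)) := by
        rintro ⟨x, g⟩ hp ⟨y, h⟩ hq he
        simp only at he
        have hx : x ∈ F := (Finset.mem_sigma.1 hp).1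
        have hy : y ∈ F := (Finset.mem_sigma.1 hq).1
        have hxy : x = y := by
          obtain ⟨z, -, hz⟩ := hD.rep ((g : Equiv.Perm ℕ)⁻¹ x)
          have h1 := hz x ⟨hx, g, g.2, (g : Equiv.Perm ℕ).apply_symm_apply x⟩
          have h2 := hz y ⟨hy, h, h.2, by
            rw [he]
            exact (h : Equiv.Perm ℕ).apply_symm_apply y⟩
          rw [h1, h2]
        subst hxy
        rw [hinj x g h he]
      rw [← Finset.card_image_of_injOn hI]
      refine hB v _ fun z hz => ?_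
      obtain ⟨⟨x, g⟩, hp, rfl⟩ := Finset.mem_image.1 hz
      have hg := (Finset.mem_sigma.1 hp).2
      rw [Set.Finite.mem_toFinset] at hg
      exact hval x g v hg
    exact_mod_cast hcard
  · intro x V
    have : {g : Γ | ∃ v : Fin (m + 2) → ℕ, (∀ i, v i ∈ V) ∧
        cx X (f x) x (fun i => g • v i) ≠ 0} =
        ⋃ v ∈ Fintype.piFinset (fun _ : Fin (m + 2) => V),
          {g : Γ | cx X (f x) x (fun i => g • v i) ≠ 0} := by
      ext g
      simp only [Set.mem_setOf_eq, Set.mem_iUnion, Fintype.mem_piFinset, exists_prop]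
    rw [this]
    exact Set.Finite.biUnion (Finset.finite_toSet _) fun v _ => hfin x v

end MP8a95ee.Npc.CXBP
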