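import Pool.Agent.Work.MP_8a95ee_gt.Fb.Stmts
import Pool.Agent.Work.MP_8a95ee_gt.R.ItemP11

/-!
# EVL: evaluation near one vertex
-/

set_option autoImplicit false

namespace MP8a95ee.Npc.EVLP

open Classical

/-- the filter in the definition of `flips` -/
def jf {n : ℕ} (i : Fin (n + 1)) : Finset (Fin n) :=
  Finset.univ.filter fun j : Fin n => (j : ℕ) < (i : ℕ)

theorem sum_sets {n : ℕ} (s : Fin n → ℕ) (hs : Function.Injective s)
    (f : (Fin n → Finset ℕ) → ℝ) :
    ∑ I : Finset (Fin n), (-1 : ℝ) ^ I.card *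
        RA.dl f (fun i : Fin (n + 1) => (symmDiff I (jf i)).image s) =
      ∑ A ∈ (Finset.univ.image s).powerset, (-1 : ℝ) ^ A.card * RA.dl f (flips A s) := by
  refine Finset.sum_bij' (fun I _ => I.image s)
    (fun A _ => Finset.univ.filter fun j => s j ∈ A) ?_ ?_ ?_ ?_ ?_
  · intro I _
    exact Finset.mem_powerset.2 (Finset.image_subset_image (Finset.subset_univ I))
  · intro A _
    exact Finset.mem_univ _
  · intro I _
    ext j
    simp only [Finset.mem_filter, Finset.mem_univ, true_and, Finset.mem_image]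
    constructor
    · rintro ⟨i, hi, he⟩
      exact hs he ▸ hi
    · intro hj
      exact ⟨j, hj, rfl⟩
  · intro A hA
    ext a
    simp only [Finset.mem_filter, Finset.mem_univ, true_and, Finset.mem_image]
    constructor
    · rintro ⟨i, hi, rfl⟩
      exact hi
    · intro ha
      obtain ⟨i, _, rfl⟩ := Finset.mem_image.1 (Finset.mem_powerset.1 hA ha)
      exact ⟨i, ha, rfl⟩
  · intro I _
    rw [Finset.card_image_of_injective _ hs]
    congr 2
    funext i
    unfold flips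
    rw [Finset.image_symmDiff _ _ hs]
    rfl

/-- the function concentrated at the vertex `x` -/
noncomputable def fx {k : ℕ} (f : (Fin k → Finset ℕ) → ℝ) (x : ℕ) (z : ℕ) :
    (Fin k → Finset ℕ) → ℝ := fun T => if z = x then f T else 0

theorem fx_self {k : ℕ} (f : (Fin k → Finset ℕ) → ℝ) (x : ℕ) : fx f x x = f := by
  funext T
  simp [fx]

theorem dl_fx_ne {k : ℕ} (f : (Fin k → Finset ℕ) → ℝ) {x z : ℕ} (h : z ≠ x)
    (T : Fin (k + 1) → Finset ℕ) : RA.dl (fx f x z) T = 0 := by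
  simp [RA.dl, fx, h]

theorem ct_fx (X : SimpleGraph ℕ) {k : ℕ} (f : (Fin k → Finset ℕ) → ℝ) (x : ℕ)
    (v : Fin (k + 1) → ℕ) : ct X (fx f x) v = cx X f x v := by
  unfold ct cx
  rw [finsum_eq_single _ x fun z hz => dl_fx_ne f hz _, fx_self]

theorem link_mono {X : SimpleGraph ℕ} {x : ℕ} {s t : Finset ℕ} (hs : s ∈ link X x) (h : t ⊆ s) :
    t ∈ link X x := by
  unfold link at hs ⊢
  rw [Finset.mem_filter, Finset.mem_powerset] at hs ⊢
  exact ⟨h.trans hs.1, fun a ha b hb => hs.2 a (h ha) b (h hb)⟩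

/-- for a fixed set of flips -/
theorem key (h4 : S_ZC1) (X : SimpleGraph ℕ) (hX : IsMedianGraph X) (hX' : LocFin X) (n : ℕ)
    (I : Finset (Fin n)) (x : ℕ) (G : ℕ → (Fin n → ℕ) → ℝ) (hG : ∀ z t, z ≠ x → G z t = 0) :
    ∑ v ∈ star X x, ∑ s ∈ Dom X n v, G (th X I v s).1 (th X I v s).2 =
      ∑ s ∈ Dom X n x, G x s := by
  rw [Finset.sum_sigma']
  rw [← Finset.sum_filter_of_ne (p := fun p : (_ : ℕ) × (Fin n → ℕ) => (th X I p.1 p.2).1 = x)
    (fun p _ hp => by
      by_contra hne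
      exact hp (hG _ _ hne))]
  refine Finset.sum_bij' (fun p _ => (th X I p.1 p.2).2)
    (fun s _ => ⟨(th X I x s).1, (th X I x s).2⟩) ?_ ?_ ?_ ?_ ?_
  · rintro ⟨v, s⟩ hp
    rw [Finset.mem_filter, Finset.mem_sigma] at hp
    have h := (h4 X hX hX' n I v s hp.1.2).1
    rw [hp.2] at h
    exact h
  · intro s hs
    have h := h4 X hX hX' n I x s hs
    rw [Finset.mem_filter, Finset.mem_sigma]
    refine ⟨⟨?_, h.1⟩, ?_⟩
    · have hl : Finset.univ.image s ∈ link X x := by
        unfold Dom at hs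
        exact (Finset.mem_filter.1 hs).2.2
      exact Finset.mem_image.2 ⟨I.image s,
        link_mono hl (Finset.image_subset_image (Finset.subset_univ I)), rfl⟩
    · show (th X I (th X I x s).1 (th X I x s).2).1 = x
      rw [h.2.1]
  · rintro ⟨v, s⟩ hp
    rw [Finset.mem_filter, Finset.mem_sigma] at hp
    have h := (h4 X hX hX' n I v s hp.1.2).2.1
    rw [hp.2] at h
    show (⟨(th X I x (th X I v s).2).1, (th X I x (th X I v s).2).2⟩ :
      (_ : ℕ) × (Fin n → ℕ)) = ⟨v, s⟩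
    rw [h]
  · intro s hs
    have h := (h4 X hX hX' n I x s hs).2.1
    show (th X I (th X I x s).1 (th X I x s).2).2 = s
    rw [h]
  · rintro ⟨v, s⟩ hp
    rw [Finset.mem_filter] at hp
    show G (th X I v s).1 (th X I v s).2 = G x (th X I v s).2
    rw [hp.2]

/-- EVL -/
theorem prf (h1 : S_EV1) (h4 : S_ZC1) (h6 : S_ZC6) : S_EVL := by
  intro X hX hX' m o ho x f hf
  have hv : VanK X (fx f x) := by
    intro z T hT hI
    by_cases hz : z = x
    · subst hz
      rw [fx_self]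
      exact hf T ⟨hT, Or.inl hI⟩
    · exact dl_fx_ne f hz T
  -- step 1
  have e1 : ∀ v ∈ star X x, ∀ s ∈ Dom X (m + 1) v,
      (o v s : ℝ) * cx X f x (fun i => corner X v (Sp.pre s i)) =
      ∑ I : Finset (Fin (m + 1)), (-1 : ℝ) ^ I.card * ((o (th X I v s).1 (th X I v s).2 : ℝ) *
        RA.dl (fx f x (th X I v s).1) (fun i : Fin (m + 1 + 1) =>
          (symmDiff I (jf i)).image (th X I v s).2)) := by
    intro v _ s hs
    rw [← ct_fx, h1 X hX hX' (m + 1) (fx f x) hv v s hs, Finset.mul_sum]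
    apply Finset.sum_congr rfl
    intro I _
    have e := (h4 X hX hX' (m + 1) I v s hs).2.2.2.1 ⊥ o ho
    have e' : (o v s : ℝ) = (-1 : ℝ) ^ I.card * (o (th X I v s).1 (th X I v s).2 : ℝ) := by
      rw [e]
      push_cast
      rw [← mul_assoc, ← mul_pow]
      norm_num
    rw [e', mul_assoc]
    rfl
  rw [Finset.sum_congr rfl fun v hv => Finset.sum_congr rfl (e1 v hv)]
  -- step 2
  have e2 : ∑ v ∈ star X x, ∑ s ∈ Dom X (m + 1) v, ∑ I : Finset (Fin (m + 1)),
      (-1 : ℝ) ^ I.card * ((o (th X I v s).1 (th X I v s).2 : ℝ) *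
        RA.dl (fx f x (th X I v s).1) (fun i : Fin (m + 1 + 1) =>
          (symmDiff I (jf i)).image (th X I v s).2)) =
      ∑ I : Finset (Fin (m + 1)), ∑ v ∈ star X x, ∑ s ∈ Dom X (m + 1) v,
      (-1 : ℝ) ^ I.card * ((o (th X I v s).1 (th X I v s).2 : ℝ) *
        RA.dl (fx f x (th X I v s).1) (fun i : Fin (m + 1 + 1) =>
          (symmDiff I (jf i)).image (th X I v s).2)) := by
    rw [Finset.sum_comm]
    conv_rhs => rw [Finset.sum_comm]
    rw [Finset.sum_comm]
    apply Finset.sum_congr rfl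
    intro v _
    rw [Finset.sum_comm]
  rw [e2]
  have e3 : ∀ I : Finset (Fin (m + 1)), ∑ v ∈ star X x, ∑ s ∈ Dom X (m + 1) v,
      (-1 : ℝ) ^ I.card * ((o (th X I v s).1 (th X I v s).2 : ℝ) *
        RA.dl (fx f x (th X I v s).1) (fun i : Fin (m + 1 + 1) =>
          (symmDiff I (jf i)).image (th X I v s).2)) =
      ∑ s ∈ Dom X (m + 1) x, (-1 : ℝ) ^ I.card * ((o x s : ℝ) *
        RA.dl f (fun i : Fin (m + 1 + 1) => (symmDiff I (jf i)).image s)) := by
    intro I
    have e4 := key h4 X hX hX' (m + 1) I x (fun z s => (-1 : ℝ) ^ I.card * ((o z s : ℝ) *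
        RA.dl (fx f x z) (fun i : Fin (m + 1 + 1) => (symmDiff I (jf i)).image s))) (by
      intro z t hz
      show (-1 : ℝ) ^ I.card * ((o z t : ℝ) *
        RA.dl (fx f x z) (fun i : Fin (m + 1 + 1) => (symmDiff I (jf i)).image t)) = 0
      rw [dl_fx_ne f hz, mul_zero, mul_zero])
    rw [e4, fx_self]
  rw [Finset.sum_congr rfl fun I _ => e3 I]
  -- step 3
  have e6 : ∑ I : Finset (Fin (m + 1)), ∑ s ∈ Dom X (m + 1) x,
      (-1 : ℝ) ^ I.card * ((o x s : ℝ) *
        RA.dl f (fun i : Fin (m + 1 + 1) => (symmDiff I (jf i)).image s)) =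
      ∑ s ∈ Dom X (m + 1) x, (o x s : ℝ) * ∑ I : Finset (Fin (m + 1)),
        (-1 : ℝ) ^ I.card *
          RA.dl f (fun i : Fin (m + 1 + 1) => (symmDiff I (jf i)).image s) := by
    rw [Finset.sum_comm]
    apply Finset.sum_congr rfl
    intro s _
    rw [Finset.mul_sum]
    apply Finset.sum_congr rfl
    intro I _
    ring
  rw [e6]
  obtain ⟨q1, q2, _⟩ := (h6 X hX hX').1 x
  have ho' := (h6 X hX hX').2 ⊥ (m + 1) o ho x
  have e7 := RA.itemP11 (link X x) q1 m (o x) ho' f
  rw [← e7, q2]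
  unfold Dom
  rw [Finset.sum_filter]
  apply Finset.sum_congr rfl
  intro s hs
  split_ifs with h
  · rw [sum_sets s h.1 f]
  · have h0 : o x s = 0 := by
      by_contra hne
      apply h
      refine ⟨?_, ho.supp x s hne⟩
      by_contra hinj
      exact hne (B5.o_eq_zero ho' hinj)
    rw [h0]
    simp

end MP8a95ee.Npc.EVLP
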