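import Pool.Agent.Work.MP_8a95ee_gt.Fb.Stmts

/-!
# Item FB1: independence of the lift
-/

set_option autoImplicit false

namespace MP8a95ee.Npc.FB1P

open Classical

theorem actS_actS {G : Type} [Group G] {A : Type} [TopologicalSpace A] [MulAction G A]
    [ContinuousConstSMul G A] {N : ℕ} (g g' : G) (τ : SSimplex A N) :
    actS g (actS g' τ) = actS (g * g') τ := by
  refine ContinuousMap.ext fun t => ?_
  show g • g' • τ t = (g * g') • τ t
  rw [mul_smul]

theorem prf (hL : S_LFT) : S_FB1 := by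
  intro Γ A B _ _ _ _ π hπ ρ hρ k b N h c hc τ
  have hσ : ∃ τ' : SSimplex A N, π.comp τ' = π.comp τ := ⟨τ, rfl⟩
  unfold fibS
  rw [dif_pos hσ]
  obtain ⟨g0, hg0⟩ := (hL Γ A B π hπ N).2 hσ.choose τ hσ.choose_spec
  generalize hσ.choose = τ0 at hg0 ⊢
  rw [← finsum_comp_equiv (Equiv.mulRight g0)]
  refine finsum_congr fun g => ?_
  rw [← hg0, actS_actS]
  have h1 : (fun i : Fin (k + 1) => g • ρ ((actS g0 τ0) (vtx ⟨i, by omega⟩))) =
      fun i : Fin (k + 1) => (g * g0) • ρ (τ0 (vtx ⟨i, by omega⟩)) := by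
    funext i
    show g • ρ (g0 • τ0 (vtx ⟨i, by omega⟩)) = _
    rw [hρ, mul_smul]
  rw [h1]
  rfl

end MP8a95ee.Npc.FB1P
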