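import Pool.Agent.Work.MP_8a95ee_gt.Fb.Stmts

/-!
# Item FB2: the fibre map is a chain map
-/

set_option autoImplicit false

namespace MP8a95ee.Npc.FB2P

open Classical

/-- the boundary as a linear map -/
noncomputable def bdL {A : Type} [TopologicalSpace A] {n : ℕ} :
    SChain A (n + 1) →ₗ[ℝ] SChain A n :=
  Finsupp.linearCombination ℝ fun σ => ∑ i : Fin (n + 2),
    Finsupp.single (MP8a95ee.face σ i) ((-1 : ℝ) ^ (i : ℕ))

theorem bd_eq {A : Type} [TopologicalSpace A] {n : ℕ} (c : SChain A (n + 1)) :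
    bd c = bdL c := by
  unfold bd bdL
  rw [Finsupp.linearCombination_apply]
  refine Finsupp.sum_congr fun σ _ => ?_
  rw [Finset.smul_sum]
  refine Finset.sum_congr rfl fun i _ => ?_
  rw [Finsupp.smul_single, smul_eq_mul, mul_comm]

section

variable {A : Type} [TopologicalSpace A]

/-- vertices of faces -/
theorem face_vtx {N : ℕ} (τ : SSimplex A (N + 1)) (i : Fin (N + 2)) (j : Fin (N + 1)) :
    (face τ i) (vtx j) = τ (vtx (i.succAbove j)) := by
  unfold face
  change τ (stdSimplex.map i.succAbove (vtx j)) = _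
  congr 1
  exact stdSimplex.map_vertex (S := ℝ) i.succAbove j

variable {G : Type} [Group G] [MulAction G A] [ContinuousConstSMul G A]

/-- the last face of a face with small index -/
theorem bk_low {k b N : ℕ} (h : N = k + b) (g : G) (τ : SSimplex A (N + 1)) (i : Fin (N + 2))
    (hi : (i : ℕ) ≤ k) :
    bkS h (actS g (face τ i)) =
      face (bkS (show N + 1 = k + (b + 1) by omega) (actS g τ)) 0 := by
  ext1 t
  unfold bkS actS face
  change g • τ (stdSimplex.map i.succAbove (stdSimplex.map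
      (fun j : Fin (b + 1) => (⟨k + j, by omega⟩ : Fin (N + 1))) t)) =
    g • τ (stdSimplex.map (fun j : Fin (b + 1 + 1) => (⟨k + j, by omega⟩ : Fin (N + 1 + 1)))
      (stdSimplex.map (Fin.succAbove 0) t))
  rw [stdSimplex.map_comp_apply _ i.succAbove, stdSimplex.map_comp_apply _
    (fun j : Fin (b + 1 + 1) => (⟨k + j, by omega⟩ : Fin (N + 1 + 1)))]
  congr 3
  funext j
  apply Fin.ext
  simp only [Function.comp_apply, Fin.succAbove_zero, Fin.val_succ]
  rw [Fin.succAbove_of_le_castSucc]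
  · simp only [Fin.val_succ]
    omega
  · rw [Fin.le_def]
    simp only [Fin.val_castSucc]
    omega

/-- the last face of a face with large index -/
theorem bk_high {k b N : ℕ} (h : N = k + b) (g : G) (τ : SSimplex A (N + 1)) (i : Fin (N + 2))
    (i' : Fin (b + 1)) (hi : (i : ℕ) = k + 1 + i') :
    bkS h (actS g (face τ i)) =
      face (bkS (show N + 1 = k + (b + 1) by omega) (actS g τ)) i'.succ := by
  ext1 t
  unfold bkS actS face
  change g • τ (stdSimplex.map i.succAbove (stdSimplex.map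
      (fun j : Fin (b + 1) => (⟨k + j, by omega⟩ : Fin (N + 1))) t)) =
    g • τ (stdSimplex.map (fun j : Fin (b + 1 + 1) => (⟨k + j, by omega⟩ : Fin (N + 1 + 1)))
      (stdSimplex.map (Fin.succAbove i'.succ) t))
  rw [stdSimplex.map_comp_apply _ i.succAbove, stdSimplex.map_comp_apply _
    (fun j : Fin (b + 1 + 1) => (⟨k + j, by omega⟩ : Fin (N + 1 + 1)))]
  congr 3
  funext j
  apply Fin.ext
  simp only [Function.comp_apply]
  by_cases hj : (j : ℕ) < i' + 1
  · rw [Fin.succAbove_of_castSucc_lt, Fin.succAbove_of_castSucc_lt]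
    · simp
    · rw [Fin.lt_def]; simpa using hj
    · rw [Fin.lt_def]; simp only [Fin.val_castSucc]; omega
  · rw [Fin.succAbove_of_le_castSucc, Fin.succAbove_of_le_castSucc]
    · simp only [Fin.val_succ]; omega
    · rw [Fin.le_def]; simp only [Fin.val_castSucc, Fin.val_succ]; omega
    · rw [Fin.le_def]; simp only [Fin.val_castSucc]; omega

end

theorem main (Γ : Subgroup (Equiv.Perm ℕ)) (A : Type) [TopologicalSpace A]
    [MulAction Γ A] [ContinuousConstSMul Γ A]
    (ρ : A → ℕ) (k b N : ℕ) (h : N = k + b)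
    (c : (Fin (k + 1) → ℕ) → ℝ) (hc : LFn Γ c) (hd : ∀ v : Fin (k + 2) → ℕ, RA.dl c v = 0)
    (τ : SSimplex A (N + 1)) :
    ∑ i : Fin (N + 2), ((-1 : ℝ) ^ (i : ℕ)) •
      (∑ᶠ g : Γ, Finsupp.single (bkS h (actS g (face τ i)))
        (c fun j : Fin (k + 1) => g • ρ ((face τ i) (vtx ⟨j, by omega⟩)))) =
    (-1 : ℝ) ^ k • bdL (∑ᶠ g : Γ, Finsupp.single
      (bkS (show N + 1 = k + (b + 1) by omega) (actS g τ))
        (c fun j : Fin (k + 1) => g • ρ (τ (vtx ⟨j, by omega⟩)))) := by
  -- a common finite set of elements of the group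
  have hfin : (⋃ i : Fin (N + 2), {g : Γ | c (fun j : Fin (k + 1) =>
      g • ρ ((face τ i) (vtx ⟨j, by omega⟩))) ≠ 0}).Finite :=
    Set.finite_iUnion fun i => hc (fun j : Fin (k + 1) => ρ ((face τ i) (vtx ⟨j, by omega⟩)))
  have hfin' : {g : Γ | c (fun j : Fin (k + 1) => g • ρ (τ (vtx ⟨j, by omega⟩))) ≠ 0}.Finite :=
    hc (fun j : Fin (k + 1) => ρ (τ (vtx ⟨j, by omega⟩)))
  set G0 : Finset Γ := hfin.toFinset ∪ hfin'.toFinset with hG0
  have hs : ∀ i : Fin (N + 2), (∑ᶠ g : Γ, Finsupp.single (bkS h (actS g (face τ i)))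
      (c fun j : Fin (k + 1) => g • ρ ((face τ i) (vtx ⟨j, by omega⟩)))) =
      ∑ g ∈ G0, Finsupp.single (bkS h (actS g (face τ i)))
      (c fun j : Fin (k + 1) => g • ρ ((face τ i) (vtx ⟨j, by omega⟩))) := by
    intro i
    apply finsum_eq_sum_of_support_subset
    intro g hg
    rw [Function.mem_support] at hg
    rw [hG0, Finset.coe_union, Set.mem_union]
    left
    rw [Set.Finite.coe_toFinset, Set.mem_iUnion]
    refine ⟨i, ?_⟩
    intro h0
    apply hg
    rw [Finsupp.single_eq_zero]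
    exact h0
  have hs' : (∑ᶠ g : Γ, Finsupp.single (bkS (show N + 1 = k + (b + 1) by omega) (actS g τ))
      (c fun j : Fin (k + 1) => g • ρ (τ (vtx ⟨j, by omega⟩)))) =
      ∑ g ∈ G0, Finsupp.single (bkS (show N + 1 = k + (b + 1) by omega) (actS g τ))
      (c fun j : Fin (k + 1) => g • ρ (τ (vtx ⟨j, by omega⟩))) := by
    apply finsum_eq_sum_of_support_subset
    intro g hg
    rw [Function.mem_support] at hg
    rw [hG0, Finset.coe_union, Set.mem_union]
    right
    rw [Set.Finite.coe_toFinset]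
    intro h0
    apply hg
    rw [Finsupp.single_eq_zero]
    exact h0
  rw [hs']
  simp only [hs]
  rw [map_sum, Finset.smul_sum]
  simp only [Finset.smul_sum]
  rw [Finset.sum_comm]
  refine Finset.sum_congr rfl fun g _ => ?_
  -- one element of the group
  set l : Fin (N + 2) → ℕ := fun i => g • ρ (τ (vtx i)) with hl
  set T : SSimplex A (b + 1) := bkS (show N + 1 = k + (b + 1) by omega) (actS g τ) with hT
  set cg : ℝ := c (fun j : Fin (k + 1) => g • ρ (τ (vtx ⟨j, by omega⟩))) with hcg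
  have hbd : bdL (Finsupp.single T cg) =
      ∑ i : Fin (b + 2), Finsupp.single (face T i) ((-1 : ℝ) ^ (i : ℕ) * cg) := by
    unfold bdL
    rw [Finsupp.linearCombination_single, Finset.smul_sum]
    refine Finset.sum_congr rfl fun i _ => ?_
    rw [Finsupp.smul_single, smul_eq_mul, mul_comm]
  rw [hbd]
  -- split the sum over the faces
  have hN : N + 2 = (k + 1) + (b + 1) := by omega
  have hsplit : ∀ F : Fin (N + 2) → SChain A b, ∑ i, F i =
      (∑ i : Fin (k + 1), F ⟨i, by omega⟩) + ∑ i : Fin (b + 1), F ⟨k + 1 + i, by omega⟩ := by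
    intro F
    rw [← Equiv.sum_comp (finCongr hN.symm) F, Fin.sum_univ_add]
    rfl
  rw [hsplit]
  -- low faces
  have hlow : ∑ i : Fin (k + 1), ((-1 : ℝ) ^ ((⟨i, by omega⟩ : Fin (N + 2)) : ℕ)) •
      Finsupp.single (bkS h (actS g (face τ (⟨i, by omega⟩ : Fin (N + 2)))))
        (c fun j : Fin (k + 1) => g • ρ ((face τ (⟨i, by omega⟩ : Fin (N + 2)))
          (vtx ⟨j, by omega⟩))) =
      Finsupp.single (face T 0) ((-1 : ℝ) ^ k * cg) := by
    have h2 := hd (fun j : Fin (k + 2) => l ⟨j, by omega⟩)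
    unfold RA.dl at h2
    rw [Fin.sum_univ_castSucc] at h2
    have h3 : ∀ i : Fin (k + 1), ((-1 : ℝ) ^ ((⟨i, by omega⟩ : Fin (N + 2)) : ℕ)) •
      Finsupp.single (bkS h (actS g (face τ (⟨i, by omega⟩ : Fin (N + 2)))))
        (c fun j : Fin (k + 1) => g • ρ ((face τ (⟨i, by omega⟩ : Fin (N + 2)))
          (vtx ⟨j, by omega⟩))) = Finsupp.single (face T 0)
        (((-1 : ℝ) ^ ((i.castSucc : Fin (k + 2)) : ℕ)) •
          c fun j : Fin (k + 1) => l ⟨(i.castSucc : Fin (k + 2)).succAbove j, by omega⟩) := by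
      intro i
      rw [bk_low h g τ ⟨i, by omega⟩ (by simp only; omega), Finsupp.smul_single]
      congr 1
      simp only [Fin.val_castSucc]
      congr 2
      funext j
      rw [hl, face_vtx]
      simp only
      congr 4
      apply Fin.ext
      simp only
      by_cases hj : (j : ℕ) < i
      · rw [Fin.succAbove_of_castSucc_lt, Fin.succAbove_of_castSucc_lt]
        · simp
        · rw [Fin.lt_def]; simpa using hj
        · rw [Fin.lt_def]; simpa using hj
      · rw [Fin.succAbove_of_le_castSucc, Fin.succAbove_of_le_castSucc]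
        · simp
        · rw [Fin.le_def]; simp only [Fin.val_castSucc]; omega
        · rw [Fin.le_def]; simp only [Fin.val_castSucc]; omega
    rw [Finset.sum_congr rfl fun i _ => h3 i, ← Finsupp.single_finsetSum]
    congr 1
    have h4 : (c fun j : Fin (k + 1) => l ⟨(Fin.last (k + 1)).succAbove j, by omega⟩) = cg := by
      rw [hcg]
      congr 1
      funext j
      rw [hl]
      simp only
      congr 4
      apply Fin.ext
      simp
    rw [h4] at h2
    have h5 : ((-1 : ℝ) ^ ((Fin.last (k + 1) : Fin (k + 2)) : ℕ)) • cg = - ((-1 : ℝ) ^ k * cg) := by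
      simp [pow_succ]
    rw [h5] at h2
    linarith
  have hhigh : ∀ i : Fin (b + 1), ((-1 : ℝ) ^ ((⟨k + 1 + i, by omega⟩ : Fin (N + 2)) : ℕ)) •
      Finsupp.single (bkS h (actS g (face τ (⟨k + 1 + i, by omega⟩ : Fin (N + 2)))))
        (c fun j : Fin (k + 1) => g • ρ ((face τ (⟨k + 1 + i, by omega⟩ : Fin (N + 2)))
          (vtx ⟨j, by omega⟩))) =
      (-1 : ℝ) ^ k • Finsupp.single (face T i.succ) ((-1 : ℝ) ^ ((i.succ : Fin (b + 2)) : ℕ) * cg) := by
    intro i
    rw [bk_high h g τ ⟨k + 1 + i, by omega⟩ i rfl, Finsupp.smul_single, Finsupp.smul_single]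
    congr 1
    simp only [smul_eq_mul, Fin.val_succ]
    rw [← mul_assoc, ← pow_add]
    congr 1
    · congr 1
      omega
    · rw [hcg]
      congr 1
      funext j
      rw [face_vtx]
      congr 4
      rw [Fin.succAbove_of_castSucc_lt]
      · rfl
      · rw [Fin.lt_def]; simp only [Fin.val_castSucc]; omega
  have hlast : ∑ i : Fin (b + 2), Finsupp.single (face T i) ((-1 : ℝ) ^ (i : ℕ) * cg) =
      Finsupp.single (face T 0) cg + ∑ i : Fin (b + 1),
        Finsupp.single (face T i.succ) ((-1 : ℝ) ^ ((i.succ : Fin (b + 2)) : ℕ) * cg) := by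
    rw [Fin.sum_univ_succ]
    congr 2
    simp
  rw [hlow, Finset.sum_congr rfl fun i _ => hhigh i, hlast, smul_add, Finset.smul_sum]
  congr 1
  rw [Finsupp.smul_single, smul_eq_mul]

theorem prf (hL : S_LFT) (h1 : S_FB1) : S_FB2 := by
  intro Γ A B _ _ _ _ π hπ ρ hρ k b N h c hc hd w
  rw [bd_eq, bd_eq]
  suffices hs : (FbL Γ π ρ h c).comp bdL =
      (-1 : ℝ) ^ k • (bdL.comp (FbL Γ π ρ (show N + 1 = k + (b + 1) by omega) c)) by
    have := LinearMap.congr_fun hs w
    simpa using this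
  refine Finsupp.lhom_ext' fun σ => LinearMap.ext_ring ?_
  obtain ⟨τ, hτ⟩ := (hL Γ A B π hπ (N + 1)).1 σ
  subst hτ
  have hm := main Γ A ρ k b N h c hc hd τ
  have e1 : ∀ i : Fin (N + 2), fibS Γ π ρ h c (face (π.comp τ) i) =
      ∑ᶠ g : Γ, Finsupp.single (bkS h (actS g (face τ i)))
        (c fun j : Fin (k + 1) => g • ρ ((face τ i) (vtx ⟨j, by omega⟩))) := by
    intro i
    exact h1 Γ A B π hπ ρ hρ k b N h c hc (face τ i)
  have e2 := h1 Γ A B π hπ ρ hρ k (b + 1) (N + 1) (show N + 1 = k + (b + 1) by omega) c hc τ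
  simp only [LinearMap.comp_apply, LinearMap.smul_apply, Finsupp.lsingle_apply]
  have e3 : bdL (Finsupp.single (π.comp τ) (1 : ℝ)) =
      ∑ i : Fin (N + 2), Finsupp.single (face (π.comp τ) i) ((-1 : ℝ) ^ (i : ℕ)) := by
    unfold bdL
    rw [Finsupp.linearCombination_single, one_smul]
  rw [e3, map_sum]
  have e4 : ∀ {N' b' : ℕ} (h' : N' = k + b') (σ : SSimplex B N') (r : ℝ),
      FbL Γ π ρ h' c (Finsupp.single σ r) = r • fibS Γ π ρ h' c σ := by
    intro N' b' h' σ r
    unfold FbL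
    rw [Finsupp.linearCombination_single]
  rw [e4, one_smul, e2, ← hm]
  refine Finset.sum_congr rfl fun i _ => ?_
  rw [e4, e1]

end MP8a95ee.Npc.FB2P
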