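import Pool.Agent.Work.MP_8a95ee_gt.Fb.Stmts

/-!
# FCE: the fibre chain as a cap product
-/

set_option autoImplicit false

namespace MP8a95ee.Npc.FCEP

open Classical

theorem lfn (X : SimpleGraph ℕ) (Γ : Subgroup (Equiv.Perm ℕ))
    (hfree : ∀ g ∈ Γ, ∀ x, ∀ s ∈ link X x, (cubeSet X x s).image g = cubeSet X x s → g = 1)
    {P : Type} [MulAction Γ P] (q : P → Finset ℕ)
    (cube : ∀ p, ∃ x, ∃ s ∈ link X x, q p = cubeSet X x s)
    (equi : ∀ (g : Γ) (p : P), q (g • p) = (q p).image (g : Equiv.Perm ℕ))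
    (k : ℕ) (R : Fin (k + 1) → Finset ℕ) :
    LFn Γ fun p : Fin (k + 1) → P => ind R fun i => q (p i) := by
  intro p
  apply Set.Subsingleton.finite
  intro g hg g' hg'
  have key : ∀ h : Γ, ind R (fun i => q (h • p i)) ≠ 0 → q (h • p 0) = R 0 := by
    intro h hh
    unfold ind at hh
    by_cases hc : (fun i => q (h • p i)) = R
    · exact congrFun hc 0
    · rw [if_neg hc] at hh
      exact absurd rfl hh
  have h1 := key g hg
  have h2 := key g' hg'
  obtain ⟨x, s, hs, hq⟩ := cube (p 0)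
  have h3 : ((g'⁻¹ * g : Γ) : Equiv.Perm ℕ) = 1 := by
    apply hfree _ (g'⁻¹ * g).2 x s hs
    rw [← hq, ← equi, mul_smul]
    have h4 : q (g'⁻¹ • g • p 0) = (q (g • p 0)).image ((g'⁻¹ : Γ) : Equiv.Perm ℕ) := equi _ _
    rw [h4, h1, ← h2, ← equi, inv_smul_smul]
  have h5 : g'⁻¹ * g = 1 := Subtype.ext h3
  have h6 := inv_mul_eq_one.mp h5
  exact h6.symm

theorem prf (h3 : S_PT3) : S_FCE := by
  intro X hX hL Γ F hD A P _ _ _ _ q S hT
  have hl := lfn X Γ (h3 X hX hL Γ F hD).2.2.1 q hT.cube hT.equi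
  refine ⟨hl, ?_⟩
  intro n b e x s
  unfold fibC CG
  rw [Finsupp.linearCombination_apply, map_finsuppSum]
  apply Finsupp.sum_congr
  intro p _
  rw [LinearMap.map_smul]
  unfold capG
  have hfin : (Function.support fun g : Γ => Finsupp.single
      (fun j : Fin (b + 1) => g • p ⟨n + j, by omega⟩)
      (ind (flg X x s) fun i => q ((fun i : Fin (n + 1) => g • p ⟨i, by omega⟩) i))).Finite := by
    refine (hl n (flg X x s) fun i : Fin (n + 1) => p ⟨i, by omega⟩).subset ?_
    intro g hg hg0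
    apply hg
    simp only at hg0 ⊢
    rw [hg0, Finsupp.single_zero]
  rw [map_finsum _ hfin, smul_finsum' _ ?_]
  · apply finsum_congr
    intro g
    unfold rlz
    rw [Finsupp.linearCombination_single, Finsupp.smul_single, Finsupp.smul_single]
    congr 1
    unfold ind
    by_cases hc : ∀ i : Fin (n + 1), q (g • p ⟨i, by omega⟩) = cubeSet X x (Sp.pre s i)
    · have hc' : (fun i : Fin (n + 1) => q (g • p ⟨i, by omega⟩)) = flg X x s := funext hc
      rw [if_pos hc, if_pos hc']
      simp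
    · have hc' : ¬ (fun i : Fin (n + 1) => q (g • p ⟨i, by omega⟩)) = flg X x s :=
        fun h => hc (congrFun h)
      rw [if_neg hc, if_neg hc']
      simp
  · refine hfin.subset ?_
    intro g hg hg0
    apply hg
    simp only at hg0 ⊢
    rw [hg0, map_zero]

end MP8a95ee.Npc.FCEP
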