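import Pool.Agent.Work.MP_8a95ee_gt.Fb.Stmts

/-!
# Item FL0: complete flags of cubes
-/

set_option autoImplicit false

namespace MP8a95ee.Npc.FL0P

open Classical

variable {X : SimpleGraph ℕ}

/-- the neighbours of `v` which are closer to a corner of a cube with corner `v` -/
theorem In_corner (h1 : S_CU1) (h2 : S_CU2) (hX : IsMedianGraph X) (hL : LocFin X) {v : ℕ}
    {s : Finset ℕ} (hs : s ∈ link X v) {U : Finset ℕ} (hU : U ⊆ s) :
    In X v (corner X v U) = U := by
  have c1 := h1 X hX hL v s hs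
  have c2 := h2 X hX hL v s hs ∅ (Finset.empty_subset _) U hU
  rw [c1.1] at c2
  rw [c2]
  have e : symmDiff (∅ : Finset ℕ) U = U := by
    rw [← Finset.bot_eq_empty, bot_symmDiff]
  rw [e]
  have e2 : ∀ a ∈ U, rb X v ∅ a = a := by
    intro a ha
    unfold rb
    rw [← Finset.bot_eq_empty, bot_symmDiff]
    exact c1.2.1 a (hU ha)
  ext a
  constructor
  · intro h
    obtain ⟨b, hb, rfl⟩ := Finset.mem_image.1 h
    rwa [e2 b hb]
  · intro h
    exact Finset.mem_image.2 ⟨a, h, e2 a h⟩

/-- the directions are determined by the cube and the corner -/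
theorem cube_dir (h1 : S_CU1) (h2 : S_CU2) (hX : IsMedianGraph X) (hL : LocFin X) {v : ℕ}
    {s : Finset ℕ} (hs : s ∈ link X v) : (cubeSet X v s).biUnion (In X v) = s := by
  ext a
  simp only [cubeSet, Finset.mem_biUnion, Finset.mem_image, Finset.mem_powerset]
  constructor
  · rintro ⟨y, ⟨U, hU, rfl⟩, ha⟩
    rw [In_corner h1 h2 hX hL hs hU] at ha
    exact hU ha
  · intro ha
    exact ⟨corner X v s, ⟨s, Finset.Subset.refl _, rfl⟩, by
      rwa [In_corner h1 h2 hX hL hs (Finset.Subset.refl _)]⟩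

theorem cube_mono {v : ℕ} {s t : Finset ℕ} (h : s ⊆ t) : cubeSet X v s ⊆ cubeSet X v t :=
  Finset.image_subset_image (Finset.powerset_mono.2 h)

theorem dir_mono (h1 : S_CU1) (h2 : S_CU2) (hX : IsMedianGraph X) (hL : LocFin X) {v : ℕ}
    {s t : Finset ℕ} (hs : s ∈ link X v) (ht : t ∈ link X v) (h : cubeSet X v s ⊆ cubeSet X v t) :
    s ⊆ t := by
  rw [← cube_dir h1 h2 hX hL hs, ← cube_dir h1 h2 hX hL ht]
  exact Finset.biUnion_subset_biUnion_of_subset_left _ h

/-- number of vertices -/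
theorem cube_card (h1 : S_CU1) (hX : IsMedianGraph X) (hL : LocFin X) {v : ℕ}
    {s : Finset ℕ} (hs : s ∈ link X v) : (cubeSet X v s).card = 2 ^ s.card := by
  unfold cubeSet
  rw [Finset.card_image_of_injOn, Finset.card_powerset]
  intro T hT U hU h
  exact (h1 X hX hL v s hs).2.2.1 T (Finset.mem_powerset.1 (Finset.mem_coe.1 hT)) U
    (Finset.mem_powerset.1 (Finset.mem_coe.1 hU)) h

/-- change of the corner -/
theorem cube_corner (h1 : S_CU1) (h3 : S_CU3) (hX : IsMedianGraph X) (hL : LocFin X) {x : ℕ}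
    {s : Finset ℕ} (hs : s ∈ link X x) {v : ℕ} (hv : v ∈ cubeSet X x s) :
    ∃ t ∈ link X v, cubeSet X x s = cubeSet X v t ∧ t.card = s.card := by
  unfold cubeSet at hv
  rw [Finset.mem_image] at hv
  obtain ⟨T, hT, rfl⟩ := hv
  rw [Finset.mem_powerset] at hT
  obtain ⟨ht, hc⟩ := h3 X hX hL x s hs T hT
  have heq : cubeSet X x s = cubeSet X (corner X x T) (s.image (rb X x T)) := by
    unfold cubeSet
    ext y
    simp only [Finset.mem_image, Finset.mem_powerset]
    constructor
    · rintro ⟨U, hU, rfl⟩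
      have hTU : symmDiff T U ⊆ s := by
        intro a ha
        rw [Finset.mem_symmDiff] at ha
        rcases ha with ha | ha
        · exact hT ha.1
        · exact hU ha.1
      refine ⟨(symmDiff T U).image (rb X x T), Finset.image_subset_image hTU, ?_⟩
      rw [hc _ hTU, symmDiff_symmDiff_cancel_left]
    · rintro ⟨W, hW, rfl⟩
      obtain ⟨U, hU, rfl⟩ := Finset.subset_image_iff.1 hW
      have hU' : U ⊆ s := hU
      refine ⟨symmDiff T U, ?_, (hc U hU').symm⟩
      intro a ha
      rw [Finset.mem_symmDiff] at ha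
      rcases ha with ha | ha
      · exact hT ha.1
      · exact hU' ha.1
  refine ⟨_, ht, heq, ?_⟩
  have e1 := cube_card h1 hX hL hs
  have e2 := cube_card h1 hX hL ht
  rw [heq, e2] at e1
  exact Nat.pow_right_injective (le_refl 2) e1

theorem dom_inj {n x : ℕ} {s : Fin n → ℕ} (h : s ∈ Dom X n x) :
    Function.Injective s ∧ Finset.univ.image s ∈ link X x := by
  unfold Dom at h
  exact (Finset.mem_filter.1 h).2

theorem pre_eq {n : ℕ} (s : Fin n → ℕ) (k : ℕ) :
    Sp.pre s k = (Finset.univ.filter fun j : Fin n => (j : ℕ) < k).image s := by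
  ext a
  rw [Sp.mem_pre, Finset.mem_image]
  constructor
  · rintro ⟨j, hj, rfl⟩
    exact ⟨j, Finset.mem_filter.2 ⟨Finset.mem_univ _, hj⟩, rfl⟩
  · rintro ⟨j, hj, rfl⟩
    exact ⟨j, (Finset.mem_filter.1 hj).2, rfl⟩

theorem pre_card {n : ℕ} {s : Fin n → ℕ} (hs : Function.Injective s) {k : ℕ} (hk : k ≤ n) :
    (Sp.pre s k).card = k := by
  rw [pre_eq, Finset.card_image_of_injective _ hs]
  have h1 : ((Finset.univ.filter fun j : Fin n => (j : ℕ) < k).image fun j : Fin n => (j : ℕ)) =
      Finset.range k := by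
    ext a
    simp only [Finset.mem_image, Finset.mem_filter, Finset.mem_univ, true_and, Finset.mem_range]
    constructor
    · rintro ⟨j, hj, rfl⟩
      exact hj
    · intro ha
      exact ⟨⟨a, lt_of_lt_of_le ha hk⟩, ha, rfl⟩
  have h2 := congrArg Finset.card h1
  rwa [Finset.card_image_of_injective _ Fin.val_injective, Finset.card_range] at h2

theorem pre_mono {n : ℕ} (s : Fin n → ℕ) {k l : ℕ} (h : k ≤ l) : Sp.pre s k ⊆ Sp.pre s l := by
  intro a ha
  rw [Sp.mem_pre] at ha ⊢
  obtain ⟨j, hj, rfl⟩ := ha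
  exact ⟨j, lt_of_lt_of_le hj h, rfl⟩

theorem pre_full {n : ℕ} (s : Fin n → ℕ) : Sp.pre s n = Finset.univ.image s := by
  ext a
  rw [Sp.mem_pre, Finset.mem_image]
  constructor
  · rintro ⟨j, -, rfl⟩
    exact ⟨j, Finset.mem_univ _, rfl⟩
  · rintro ⟨j, -, rfl⟩
    exact ⟨j, j.2, rfl⟩

theorem pre_link {n x : ℕ} {s : Fin n → ℕ} (h : s ∈ Dom X n x) (k : ℕ) :
    Sp.pre s k ∈ link X x := by
  refine link_mono (dom_inj h).2 ?_
  rw [pre_eq]
  exact Finset.image_subset_image (Finset.filter_subset _ _)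

/-- the properties of a flag -/
theorem flag_props (h1 : S_CU1) (hX : IsMedianGraph X) (hL : LocFin X) {m v : ℕ}
    {s : Fin (m + 1) → ℕ} (hs : s ∈ Dom X (m + 1) v) :
    Monotone (flg X v s) ∧ Function.Injective (flg X v s) ∧
    (∀ i, IsCube X (flg X v s i)) ∧ ∀ i : Fin (m + 2), (flg X v s i).card = 2 ^ (i : ℕ) := by
  have hc : ∀ i : Fin (m + 2), (flg X v s i).card = 2 ^ (i : ℕ) := by
    intro i
    unfold flg
    rw [cube_card h1 hX hL (pre_link hs _), pre_card (dom_inj hs).1 (by omega)]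
  refine ⟨?_, ?_, ?_, hc⟩
  · intro i j hij
    exact cube_mono (pre_mono s (by exact_mod_cast hij))
  · intro i j hij
    have h2 := congrArg Finset.card hij
    rw [hc i, hc j] at h2
    exact Fin.ext (Nat.pow_right_injective (le_refl 2) h2)
  · intro i
    exact ⟨v, Sp.pre s i, pre_link hs _, rfl⟩

/-- a flag determines its directions -/
theorem flag_inj (h1 : S_CU1) (h2 : S_CU2) (hX : IsMedianGraph X) (hL : LocFin X) {m v v' : ℕ}
    {s s' : Fin (m + 1) → ℕ} (hs : s ∈ Dom X (m + 1) v) (hs' : s' ∈ Dom X (m + 1) v')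
    (h : flg X v s = flg X v' s') : v = v' ∧ s = s' := by
  have key : ∀ (u : ℕ) (r : Fin (m + 1) → ℕ), r ∈ Dom X (m + 1) u → flg X u r 0 = {u} := by
    intro u r hr
    unfold flg
    have e : ((0 : Fin (m + 1 + 1)) : ℕ) = 0 := rfl
    rw [e, Sp.pre_zero]
    unfold cubeSet
    rw [Finset.powerset_empty, Finset.image_singleton, (h1 X hX hL u _ (pre_link hr 0)).1]
  have hv : v = v' := by
    have h3 := congrFun h 0
    rw [key v s hs, key v' s' hs'] at h3
    exact Finset.singleton_inj.1 h3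
  subst hv
  refine ⟨rfl, ?_⟩
  have hp : ∀ i : Fin (m + 2), Sp.pre s i = Sp.pre s' i := by
    intro i
    have h3 : cubeSet X v (Sp.pre s i) = cubeSet X v (Sp.pre s' i) := congrFun h i
    exact Finset.Subset.antisymm
      (dir_mono h1 h2 hX hL (pre_link hs _) (pre_link hs' _) h3.subset)
      (dir_mono h1 h2 hX hL (pre_link hs' _) (pre_link hs _) h3.symm.subset)
  funext j
  have h4 : s j ∈ Sp.pre s' ((j : ℕ) + 1) := by
    have h5 := hp j.succ
    rw [Fin.val_succ] at h5
    rw [← h5, Sp.mem_pre]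
    exact ⟨j, Nat.lt_succ_self _, rfl⟩
  have h6 : s j ∉ Sp.pre s' (j : ℕ) := by
    have h5 := hp j.castSucc
    rw [Fin.val_castSucc] at h5
    rw [← h5, Sp.mem_pre]
    rintro ⟨l, hl, hlj⟩
    rw [(dom_inj hs).1 hlj] at hl
    exact lt_irrefl _ hl
  rw [Sp.mem_pre] at h4 h6
  obtain ⟨l, hl, hlj⟩ := h4
  have h7 : l = j := by
    by_contra hne
    exact h6 ⟨l, lt_of_le_of_ne (Nat.lt_succ_iff.1 hl) (fun e => hne (Fin.ext e)), hlj⟩
  rw [← hlj, h7]

theorem strict_eq {n : ℕ} {d : Fin (n + 1) → ℕ} (hd : StrictMono d) (hl : d (Fin.last n) ≤ n) :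
    ∀ i, d i = i := by
  have h1 : ∀ i : Fin (n + 1), (i : ℕ) ≤ d i := by
    intro i
    induction i using Fin.induction with
    | zero => exact Nat.zero_le _
    | succ i ih =>
      have h2 := hd (Fin.castSucc_lt_succ (i := i))
      rw [Fin.val_castSucc] at ih
      rw [Fin.val_succ]
      omega
  have h2 : ∀ i : Fin (n + 1), d i + (n - i) ≤ n := by
    intro i
    induction i using Fin.reverseInduction with
    | last =>
      rw [Fin.val_last]
      omega
    | cast i ih =>
      have h2 := hd (Fin.castSucc_lt_succ (i := i))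
      rw [Fin.val_succ] at ih
      rw [Fin.val_castSucc]
      have := i.2
      omega
  intro i
  have h3 := h1 i
  have h4 := h2 i
  have := i.2
  omega

/-- complete flags come from ordered directions -/
theorem flag_exists (h1 : S_CU1) (h2 : S_CU2) (h3 : S_CU3) (hX : IsMedianGraph X) (hL : LocFin X)
    (m : ℕ) (hm : ∀ x, ∀ s ∈ link X x, s.card ≤ m + 1) (Q : Fin (m + 2) → Finset ℕ)
    (hQ : ∀ i, IsCube X (Q i)) (hmono : Monotone Q) (hinj : Function.Injective Q) :
    ∃ v, ∃ s ∈ Dom X (m + 1) v, Q = flg X v s := by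
  have hstrict : StrictMono Q := hmono.strictMono_of_injective hinj
  choose x s hs hQs using hQ
  have hcard : ∀ i, (Q i).card = 2 ^ (s i).card := fun i => by
    rw [hQs i, cube_card h1 hX hL (hs i)]
  have hd : StrictMono fun i => (s i).card := by
    intro i j hij
    have h4 := Finset.card_lt_card (hstrict hij)
    rw [hcard i, hcard j] at h4
    exact (Nat.pow_lt_pow_iff_right (by norm_num)).1 h4
  have hdi : ∀ i : Fin (m + 1 + 1), (s i).card = i :=
    strict_eq (d := fun i : Fin (m + 1 + 1) => (s i).card) hd (hm _ _ (hs _))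
  obtain ⟨v, hv⟩ := Finset.card_eq_one.1 (show (Q 0).card = 1 by
    rw [hcard 0, hdi 0]
    rfl)
  have hvi : ∀ i, v ∈ Q i := fun i => hmono (Fin.zero_le i) (by
    rw [hv]
    exact Finset.mem_singleton_self v)
  have ht : ∀ i, ∃ t ∈ link X v, Q i = cubeSet X v t ∧ t.card = (s i).card := by
    intro i
    obtain ⟨t, ht, he, hc⟩ := cube_corner h1 h3 hX hL (hs i) (v := v) (by
      rw [← hQs i]
      exact hvi i)
    exact ⟨t, ht, by rw [hQs i, he], hc⟩
  choose t htl hQt htc using ht
  have htc' : ∀ i : Fin (m + 1 + 1), (t i).card = i := fun i => (htc i).trans (hdi i)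
  have htm : ∀ i j, i ≤ j → t i ⊆ t j := by
    intro i j hij
    apply dir_mono h1 h2 hX hL (htl i) (htl j)
    rw [← hQt i, ← hQt j]
    exact hmono hij
  have hex : ∀ i : Fin (m + 1), ∃ a, a ∈ t i.succ ∧ a ∉ t i.castSucc := by
    intro i
    have h4 : (t i.castSucc).card < (t i.succ).card := by
      rw [htc', htc', Fin.val_castSucc, Fin.val_succ]
      exact Nat.lt_succ_self _
    obtain ⟨a, ha, ha'⟩ := Finset.exists_mem_notMem_of_card_lt_card h4
    exact ⟨a, ha, ha'⟩
  choose r hr hr' using hex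
  have hrinj : Function.Injective r := by
    have key : ∀ i j : Fin (m + 1), i < j → r i ≠ r j := by
      intro i j hij he
      apply hr' j
      rw [← he]
      exact htm _ _ (by
        rw [Fin.le_def, Fin.val_succ, Fin.val_castSucc]
        exact hij) (hr i)
    intro i j hij
    rcases lt_trichotomy i j with h | h | h
    · exact absurd hij (key i j h)
    · exact h
    · exact absurd hij.symm (key j i h)
  have hpre : ∀ i : Fin (m + 1 + 1), Sp.pre r i = t i := by
    intro i
    apply Finset.eq_of_subset_of_card_le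
    · intro a ha
      rw [Sp.mem_pre] at ha
      obtain ⟨j, hj, rfl⟩ := ha
      exact htm _ _ (by
        rw [Fin.le_def, Fin.val_succ]
        exact hj) (hr j)
    · rw [htc' i, pre_card hrinj (by omega)]
  have himg : Finset.univ.image r ∈ link X v := by
    rw [← pre_full r]
    have h4 := hpre (Fin.last (m + 1))
    rw [Fin.val_last] at h4
    rw [h4]
    exact htl _
  refine ⟨v, r, ?_, ?_⟩
  · unfold Dom
    rw [Finset.mem_filter, Fintype.mem_piFinset]
    refine ⟨fun i => (mem_link.1 himg).1 (Finset.mem_image_of_mem _ (Finset.mem_univ _)), hrinj,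
      himg⟩
  · funext i
    unfold flg
    rw [hpre i]
    exact hQt i

theorem prf (h1 : S_CU1) (h2 : S_CU2) (h3 : S_CU3) : S_FL0 := by
  intro X hX hL m hm
  exact ⟨fun v s hs => flag_props h1 hX hL hs, fun v s hs v' s' hs' h =>
    flag_inj h1 h2 hX hL hs hs' h, fun Q hQ hmono hinj =>
    flag_exists h1 h2 h3 hX hL m hm Q hQ hmono hinj⟩

end MP8a95ee.Npc.FL0P
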