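import Pool.Agent.Work.MP_8a95ee_gt.Fb.Stmts
import Mathlib.Topology.Homotopy.Lifting
import Mathlib.Analysis.Convex.Contractible

/-!
# LFT and RHO: lifts of simplices and equivariant functions
-/

set_option autoImplicit false

namespace MP8a95ee.Npc

namespace LFTP

open Classical

theorem simplyConn (n : ℕ) : SimplyConnectedSpace (stdSimplex ℝ (Fin (n + 1))) := by
  have : ContractibleSpace (stdSimplex ℝ (Fin (n + 1))) :=
    (convex_stdSimplex ℝ (Fin (n + 1))).contractibleSpace
      ⟨_, single_mem_stdSimplex ℝ (0 : Fin (n + 1))⟩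
  infer_instance

theorem locPath (n : ℕ) : LocallyPathConnectedSpace (stdSimplex ℝ (Fin (n + 1))) :=
  (convex_stdSimplex ℝ (Fin (n + 1))).locallyPathConnectedSpace

theorem prf : S_LFT := by
  intro G _ A B _ _ _ _ π H N
  have hsc := simplyConn N
  have hlp := locPath N
  constructor
  · intro σ
    obtain ⟨e, he⟩ := H.surj (σ (vtx 0))
    obtain ⟨τ, ⟨_, hτ⟩, _⟩ := H.cov.existsUnique_continuousMap_lifts σ (vtx 0) e he
    exact ⟨τ, ContinuousMap.ext fun t => congrFun hτ t⟩
  · intro τ τ' h
    have h0 : π (τ (vtx 0)) = π (τ' (vtx 0)) := DFunLike.congr_fun h (vtx 0)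
    obtain ⟨g, hg⟩ := (H.orb _ _).1 h0
    refine ⟨g, ?_⟩
    have heq : (fun t => actS g τ t) = fun t => τ' t := by
      refine H.cov.eq_of_comp_eq (actS g τ).continuous τ'.continuous (funext fun t => ?_)
        (vtx 0) hg
      change π (g • τ t) = π (τ' t)
      have h1 : π (τ t) = π (τ' t) := DFunLike.congr_fun h t
      rw [← h1]
      exact ((H.orb _ _).2 ⟨g, rfl⟩).symm
    exact ContinuousMap.ext fun t => congrFun heq t

theorem prf2 : S_RHO := by
  intro Γ A _ hfree
  have hex : ∀ a : A, ∃ g : Γ,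
      g • (Quotient.out (Quotient.mk (MulAction.orbitRel Γ A) a) : A) = a := by
    intro a
    have h : (MulAction.orbitRel Γ A).r
        (Quotient.out (Quotient.mk (MulAction.orbitRel Γ A) a)) a :=
      Quotient.exact (Quotient.out_eq (Quotient.mk (MulAction.orbitRel Γ A) a))
    have h2 : a ∈ MulAction.orbit Γ (Quotient.out (Quotient.mk (MulAction.orbitRel Γ A) a)) :=
      MulAction.orbitRel_apply.1 ((MulAction.orbitRel Γ A).symm' h)
    obtain ⟨g, hg⟩ := h2
    exact ⟨g, hg⟩
  choose w hw using hex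
  refine ⟨fun a => w a • (0 : ℕ), fun g a => ?_⟩
  have hq : Quotient.mk (MulAction.orbitRel Γ A) (g • a) =
      Quotient.mk (MulAction.orbitRel Γ A) a :=
    Quotient.sound (MulAction.orbitRel_apply.2 ⟨g, rfl⟩)
  have h1 : w (g • a) • (Quotient.out (Quotient.mk (MulAction.orbitRel Γ A) a) : A) =
      (g * w a) • (Quotient.out (Quotient.mk (MulAction.orbitRel Γ A) a) : A) := by
    rw [mul_smul, hw a]
    have := hw (g • a)
    rw [hq] at this
    exact this
  have h2 : w (g • a) = g * w a := by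
    have h3 : ((g * w a)⁻¹ * w (g • a)) •
        (Quotient.out (Quotient.mk (MulAction.orbitRel Γ A) a) : A) =
        (Quotient.out (Quotient.mk (MulAction.orbitRel Γ A) a) : A) := by
      rw [mul_smul, h1, inv_smul_smul]
    have h4 := hfree _ _ h3
    exact (inv_mul_eq_one.1 h4).symm
  change w (g • a) • (0 : ℕ) = g • (w a • (0 : ℕ))
  rw [h2, mul_smul]

end LFTP

end MP8a95ee.Npc
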