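import Pool.Agent.Work.MP_8a95ee_gt.Fb.Stmts
import Pool.Agent.Work.MP_8a95ee_gt.Npc.PS3

/-!
# NL1: normalised local functions
-/

set_option autoImplicit false

namespace MP8a95ee.Npc.NL1P

open Classical

/-- subsets of faces are faces -/
theorem sub_mem {L : Finset (Finset ℕ)} (hf : FlagC L) {a b : Finset ℕ} (hb : b ∈ L)
    (hab : a ⊆ b) : a ∈ L :=
  (hf a).2 fun x hx y hy => (hf b).1 hb x (hab hx) y (hab hy)

/-- real version of an orientation is alternating -/
theorem alt_of {L : Finset (Finset ℕ)} {n : ℕ} {o : (Fin n → ℕ) → ℤ} (ho : IsOrient L n o) :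
    RA.IsAlt (verts L) (fun s => (o s : ℝ)) := by
  constructor
  · intro s i j hij
    have := ho.1 s i j hij
    simp only [this]
    push_cast
    ring
  · intro s hs
    have hs0 : o s ≠ 0 := fun h => hs (by simp [h])
    refine ⟨?_, ?_⟩
    · intro i j hij
      by_contra hne
      have h1 := ho.1 s i j hne
      have h2 : s ∘ Equiv.swap i j = s := by
        funext k
        rw [Function.comp_apply]
        by_cases hki : k = i
        · rw [hki, Equiv.swap_apply_left, hij]
        · by_cases hkj : k = j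
          · rw [hkj, Equiv.swap_apply_right, hij]
          · rw [Equiv.swap_apply_of_ne_of_ne hki hkj]
      rw [h2] at h1
      omega
    · intro i
      have h1 := ho.2.1 s hs0
      unfold verts
      rw [Finset.mem_biUnion]
      exact ⟨_, h1, Finset.mem_image_of_mem _ (Finset.mem_univ _)⟩

/-- the entries of the tuples of `zeta` -/
theorem supp_zeta {L : Finset (Finset ℕ)} (hf : FlagC L) {m : ℕ} {o : (Fin (m + 1) → ℕ) → ℤ}
    (ho : IsOrient L (m + 1) o) {T : Fin (m + 1) → Finset ℕ}
    (hT : T ∈ (RA.zeta L o).support) : KF L T := by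
  unfold RA.zeta at hT
  obtain ⟨s, _, hs⟩ := Finset.mem_biUnion.1 (Finsupp.support_finsetSum hT)
  obtain ⟨B, hB, hs⟩ := Finset.mem_biUnion.1 (Finsupp.support_finsetSum hs)
  have hne : (o s : ℝ) * (-1) ^ B.card ≠ 0 := by
    intro h0
    rw [h0, Finsupp.single_zero] at hs
    simp at hs
  have hTe : T = RA.zt s B := by
    have := Finsupp.support_single_subset hs
    simpa using this
  have hos : o s ≠ 0 := by
    intro h0
    apply hne
    simp [h0]
  have him := ho.2.1 s hos
  have hsub : ∀ j, RA.zt s B j ⊆ Finset.univ.image s := by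
    intro j a ha
    unfold RA.zt at ha
    rw [Finset.mem_insert] at ha
    rcases ha with ha | ha
    · rw [ha]
      exact Finset.mem_image_of_mem _ (Finset.mem_univ _)
    · rw [Finset.mem_symmDiff] at ha
      rcases ha with ha | ha
      · have h1 := Finset.mem_powerset.1 hB ha.1
        obtain ⟨i, _, hi⟩ := Finset.mem_image.1 h1
        rw [← hi]
        exact Finset.mem_image_of_mem _ (Finset.mem_univ _)
      · obtain ⟨i, _, hi⟩ := Finset.mem_image.1 ha.1
        rw [← hi]
        exact Finset.mem_image_of_mem _ (Finset.mem_univ _)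
  have hlast : ∀ j, s (Fin.last m) ∈ RA.zt s B j := fun j => Finset.mem_insert_self _ _
  rw [hTe]
  exact ⟨fun i => ⟨sub_mem hf him (hsub i), ⟨_, hlast i⟩⟩, Or.inl ⟨_, hlast⟩⟩

/-- `zeta` is a cycle -/
theorem bd_zeta (h7a : RA.S_B7a) {L : Finset (Finset ℕ)} {m : ℕ}
    {o : (Fin (m + 1) → ℕ) → ℤ} (ho : IsOrient L (m + 1) o) : RA.bdT (RA.zeta L o) = 0 := by
  cases m with
  | succ n =>
    have hz : RA.zeta L o = RA.zetaR (verts L) (fun s => (o s : ℝ)) := rfl
    rw [hz, h7a (verts L) n _ (alt_of ho)]
    have h0 : (fun g : Fin (n + 1) → ℕ => ∑ a ∈ verts L, ((o (Fin.cons a g) : ℤ) : ℝ)) =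
        fun _ => 0 := by
      funext g
      have h4 := ho.2.2.2 (Fin.cons 0 g) 0
      have h5 : ∑ a ∈ verts L, o (Fin.cons a g) = 0 := by
        rw [← h4]
        refine Finset.sum_congr rfl fun a _ => ?_
        rw [Fin.update_cons_zero]
      rw [← Int.cast_sum, h5, Int.cast_zero]
    rw [h0]
    unfold RA.zetaR
    simp
  | zero =>
    have hB : ∀ s : Fin 1 → ℕ,
        (Finset.univ.image fun i : Fin 0 => s i.castSucc).powerset = {∅} := by
      intro s
      rw [Finset.univ_eq_empty, Finset.image_empty, Finset.powerset_empty]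
    have h1 : RA.bdT (RA.zeta L o) =
        ∑ s ∈ Fintype.piFinset (fun _ : Fin 1 => verts L),
          Finsupp.single (fun j : Fin 0 => (j.elim0 : Finset ℕ)) (o s : ℝ) := by
      unfold RA.zeta
      rw [map_sum]
      refine Finset.sum_congr rfl fun s _ => ?_
      rw [hB s, Finset.sum_singleton]
      unfold RA.bdT RA.bdT0
      rw [Finsupp.linearCombination_single]
      have hs1 : ∑ i : Fin (0 + 1), Finsupp.single (fun j => RA.zt s ∅ (i.succAbove j))
          ((-1 : ℝ) ^ (i : ℕ)) = Finsupp.single (fun j : Fin 0 => (j.elim0 : Finset ℕ)) (1 : ℝ) := by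
        rw [show (∑ i : Fin (0 + 1), Finsupp.single (fun j => RA.zt s ∅ (i.succAbove j))
          ((-1 : ℝ) ^ (i : ℕ))) = Finsupp.single (fun j => RA.zt s ∅ ((0 : Fin 1).succAbove j))
          ((-1 : ℝ) ^ ((0 : Fin 1) : ℕ)) from Fin.sum_univ_one _]
        rw [show ((0 : Fin 1) : ℕ) = 0 from rfl, pow_zero]
        congr 1
        funext j
        exact j.elim0
      rw [hs1, Finsupp.smul_single, smul_eq_mul, Finset.card_empty, pow_zero, mul_one, mul_one]
    rw [h1]
    have h2 : ∑ s ∈ Fintype.piFinset (fun _ : Fin 1 => verts L),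
        Finsupp.single (fun j : Fin 0 => (j.elim0 : Finset ℕ)) (o s : ℝ) =
        Finsupp.single (fun j : Fin 0 => (j.elim0 : Finset ℕ))
          (∑ s ∈ Fintype.piFinset (fun _ : Fin 1 => verts L), (o s : ℝ)) := by
      rw [Finsupp.single_finsetSum]
    have h3 : ∑ s ∈ Fintype.piFinset (fun _ : Fin 1 => verts L), o s = 0 := by
      rw [← ho.2.2.2 (fun _ => 0) 0]
      symm
      refine Finset.sum_bij (fun x _ => Function.update (fun _ : Fin 1 => 0) 0 x) ?_ ?_ ?_ ?_
      · intro x hx
        rw [Fintype.mem_piFinset]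
        intro i
        rw [Subsingleton.elim i 0, Function.update_self]
        exact hx
      · intro x _ y _ hxy
        have := congrFun hxy 0
        simpa using this
      · intro s hs
        refine ⟨s 0, Fintype.mem_piFinset.1 hs 0, ?_⟩
        funext i
        rw [Subsingleton.elim i 0, Function.update_self]
      · intro x _
        rfl
    rw [h2, ← Int.cast_sum, h3, Int.cast_zero, Finsupp.single_zero]

theorem prf (hNR2 : S_NR2) (h7a : RA.S_B7a) : S_NL1 := by
  intro m
  obtain ⟨M, hM, hN⟩ := hNR2 m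
  refine ⟨M, hM, ?_⟩
  intro L hf o ho C hC f hdl hb hval
  have hf0 : ∀ T : Fin (m + 1) → Finset ℕ, (∀ i, T i ∈ L) →
      (if ∀ i, T i ∈ L then f T else 0) = f T := fun T hT => if_pos hT
  obtain ⟨f', h1, h2, h3, h4⟩ := hN (Finset ℕ) (fun k T => KF L T)
    (fun k l T g h => PS3.KF_comp h g)
    (fun T => if ∀ i, T i ∈ L then f T else 0)
    (by
      intro T hT
      refine Eq.trans ?_ (hdl T hT)
      unfold RA.dl
      refine Finset.sum_congr rfl fun i _ => ?_
      exact congrArg _ (hf0 _ fun j => (hT.1 _).1))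
    C
    (by
      intro T
      split_ifs with h
      · exact hb T h
      · rw [abs_zero]
        exact hC)
    (RA.zeta L o) (fun T hT => supp_zeta hf ho hT) (bd_zeta h7a ho)
  refine ⟨f', h1, h2, h3, ?_⟩
  rw [h4]
  refine hval.trans (le_of_eq ?_)
  rw [Finsupp.linearCombination_apply, Finsupp.linearCombination_apply]
  unfold Finsupp.sum
  refine Finset.sum_congr rfl fun T hT => ?_
  dsimp only
  rw [hf0 T fun i => ((supp_zeta hf ho hT).1 i).1]

end MP8a95ee.Npc.NL1P
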