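import Pool.Agent.Work.MP_8a95ee_gt.Fb.Stmts

/-!
# Item NR1: one step of the normalisation
-/

set_option autoImplicit false

namespace MP8a95ee.Npc.NR1P

/-- the face map -/
def dd (l j : ℕ) : ℕ := if j < l then j else j + 1

/-- the degeneracy -/
def ss (i j : ℕ) : ℕ := if j ≤ i then j else j - 1

lemma succAbove_val {n : ℕ} (l : Fin (n + 1)) (j : Fin n) :
    ((l.succAbove j : Fin (n + 1)) : ℕ) = dd l j := by
  unfold dd Fin.succAbove
  split_ifs <;> simp_all [Fin.lt_def]

lemma ss_lt {m i : ℕ} (hi : i < m) (j : Fin (m + 1)) : ss i j < m := by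
  have := j.2
  unfold ss
  split_ifs <;> omega

lemma key {S : Type} (F : (ℕ → S) → ℝ) (u : ℕ → S) (m i : ℕ) (hi : i < m)
    (H1 : ∀ g : ℕ → ℕ,
      ∑ l ∈ Finset.range (m + 2), (-1 : ℝ) ^ l * F (fun j => u (g (dd l j))) = 0)
    (H2 : ∀ g : ℕ → ℕ, ∀ j < i, u (g j) = u (g (j + 1)) → F (fun j => u (g j)) = 0)
    (j : ℕ) (hj : j ≤ i) (hu : u j = u (j + 1)) :
    F u = ∑ l ∈ Finset.range (m + 1),
      (-1 : ℝ) ^ l * ((-1 : ℝ) ^ i * F (fun k => u (dd l (ss i k)))) := by
  have hcanc : ∀ k, u (dd j k) = u (dd (j + 1) k) := by
    intro k
    unfold dd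
    rcases lt_trichotomy k j with h | h | h
    · rw [if_pos h, if_pos (by omega)]
    · subst h
      rw [if_neg (lt_irrefl _), if_pos (by omega), hu]
    · rw [if_neg (by omega), if_neg (by omega)]
  rcases Nat.lt_or_ge j i with hji | hji
  · have h0 : F u = 0 := H2 id j hji hu
    rw [h0]
    symm
    have hsub : ({j, j + 1} : Finset ℕ) ⊆ Finset.range (m + 1) := by
      intro x hx
      simp only [Finset.mem_insert, Finset.mem_singleton] at hx
      rw [Finset.mem_range]
      omega
    rw [← Finset.sum_subset hsub]
    · rw [Finset.sum_pair (by omega)]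
      have : (fun k => u (dd (j + 1) (ss i k))) = fun k => u (dd j (ss i k)) := by
        funext k
        rw [hcanc]
      rw [this, pow_succ]
      ring
    · intro l _ hl
      simp only [Finset.mem_insert, Finset.mem_singleton, not_or] at hl
      have : F (fun k => u (dd l (ss i k))) = 0 := by
        rcases lt_trichotomy l j with h | h | h
        · refine H2 (fun k => dd l (ss i k)) (j - 1) (by omega) ?_
          have e1 : dd l (ss i (j - 1)) = j := by
            unfold dd ss
            rw [if_pos (show j - 1 ≤ i by omega), if_neg (by omega)]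
            omega
          have e2 : dd l (ss i (j - 1 + 1)) = j + 1 := by
            unfold dd ss
            rw [if_pos (show j - 1 + 1 ≤ i by omega), if_neg (by omega)]
            omega
          show u (dd l (ss i (j - 1))) = u (dd l (ss i (j - 1 + 1)))
          rw [e1, e2, hu]
        · exact absurd h hl.1
        · refine H2 (fun k => dd l (ss i k)) j hji ?_
          have e1 : dd l (ss i j) = j := by
            unfold dd ss
            rw [if_pos (show j ≤ i by omega), if_pos (by omega)]
          have e2 : dd l (ss i (j + 1)) = j + 1 := by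
            unfold dd ss
            rw [if_pos (show j + 1 ≤ i by omega), if_pos (by omega)]
          show u (dd l (ss i j)) = u (dd l (ss i (j + 1)))
          rw [e1, e2, hu]
      rw [this]
      ring
  · obtain rfl : j = i := le_antisymm hj hji
    -- `b l` and `c l`
    set b : ℕ → ℝ := fun l => (-1 : ℝ) ^ l * F (fun k => u (ss j (dd l k))) with hb
    set c : ℕ → ℝ := fun l => (-1 : ℝ) ^ l * F (fun k => u (dd l (ss j k))) with hc
    have hb0 : ∀ l < j, b l = 0 := by
      intro l hl
      have : F (fun k => u (ss j (dd l k))) = 0 := by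
        refine H2 (fun k => ss j (dd l k)) (j - 1) (by omega) ?_
        have e1 : ss j (dd l (j - 1)) = j := by
          unfold dd ss
          split_ifs <;> omega
        have e2 : ss j (dd l (j - 1 + 1)) = j := by
          unfold dd ss
          split_ifs <;> omega
        show u (ss j (dd l (j - 1))) = u (ss j (dd l (j - 1 + 1)))
        rw [e1, e2]
      rw [hb]
      simp only
      rw [this, mul_zero]
    have hc0 : ∀ l < j, c l = 0 := by
      intro l hl
      have : F (fun k => u (dd l (ss j k))) = 0 := by
        refine H2 (fun k => dd l (ss j k)) (j - 1) (by omega) ?_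
        have e1 : dd l (ss j (j - 1)) = j := by
          unfold dd ss
          split_ifs <;> omega
        have e2 : dd l (ss j (j - 1 + 1)) = j + 1 := by
          unfold dd ss
          split_ifs <;> omega
        show u (dd l (ss j (j - 1))) = u (dd l (ss j (j - 1 + 1)))
        rw [e1, e2, hu]
      rw [hc]
      simp only
      rw [this, mul_zero]
    have hb1 : b j = (-1 : ℝ) ^ j * F u := by
      have : (fun k => u (ss j (dd j k))) = u := by
        funext k
        have : ss j (dd j k) = k := by
          unfold dd ss
          split_ifs <;> omega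
        rw [this]
      rw [hb]
      simp only
      rw [this]
    have hb2 : b (j + 1) = -((-1 : ℝ) ^ j * F u) := by
      have : (fun k => u (ss j (dd (j + 1) k))) = u := by
        funext k
        have : ss j (dd (j + 1) k) = k := by
          unfold dd ss
          split_ifs <;> omega
        rw [this]
      rw [hb]
      simp only
      rw [this, pow_succ]
      ring
    have hb3 : b (j + 2) = (-1 : ℝ) ^ j * F u := by
      have : (fun k => u (ss j (dd (j + 2) k))) = u := by
        funext k
        by_cases hk : k = j + 1
        · have : ss j (dd (j + 2) k) = j := by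
            unfold dd ss
            split_ifs <;> omega
          rw [this, hk, hu]
        · have : ss j (dd (j + 2) k) = k := by
            unfold dd ss
            split_ifs <;> omega
          rw [this]
      rw [hb]
      simp only
      rw [this, pow_succ, pow_succ]
      ring
    have hc12 : c (j + 1) = - c j := by
      have : (fun k => u (dd (j + 1) (ss j k))) = fun k => u (dd j (ss j k)) := by
        funext k
        rw [hcanc]
      rw [hc]
      simp only
      rw [this, pow_succ]
      ring
    have hbc : ∀ l, j + 1 ≤ l → b (l + 1) = - c l := by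
      intro l hl
      have : (fun k => u (ss j (dd (l + 1) k))) = fun k => u (dd l (ss j k)) := by
        funext k
        have : ss j (dd (l + 1) k) = dd l (ss j k) := by
          unfold dd ss
          split_ifs <;> omega
        rw [this]
      rw [hb, hc]
      simp only
      rw [this, pow_succ]
      ring
    have hP : ∀ n, j + 1 ≤ n → ∑ l ∈ Finset.range (n + 2), b l =
        (-1 : ℝ) ^ j * F u - ∑ l ∈ Finset.range (n + 1), c l := by
      intro n hn
      induction n, hn using Nat.le_induction with
      | base =>
        rw [Finset.sum_range_succ, Finset.sum_range_succ, Finset.sum_range_succ,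
          Finset.sum_range_succ, Finset.sum_range_succ,
          Finset.sum_eq_zero (fun l hl => hb0 l (Finset.mem_range.1 hl)),
          Finset.sum_eq_zero (fun l hl => hc0 l (Finset.mem_range.1 hl)), hb1, hb2, hb3, hc12]
        ring
      | succ n hn ih =>
        rw [Finset.sum_range_succ, ih, Finset.sum_range_succ _ (n + 1), hbc (n + 1) (by omega)]
        ring
    have h1 := hP m (by omega)
    have h2 : ∑ l ∈ Finset.range (m + 2), b l = 0 := H1 (ss j)
    rw [h2] at h1
    have h3 : ∑ l ∈ Finset.range (m + 1),
        (-1 : ℝ) ^ l * ((-1 : ℝ) ^ j * F (fun k => u (dd l (ss j k)))) =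
        (-1 : ℝ) ^ j * ∑ l ∈ Finset.range (m + 1), c l := by
      rw [Finset.mul_sum]
      refine Finset.sum_congr rfl fun l _ => ?_
      rw [hc]
      ring
    rw [h3]
    have h4 : ∑ l ∈ Finset.range (m + 1), c l = (-1 : ℝ) ^ j * F u := by linarith
    rw [h4, ← mul_assoc, ← mul_pow]
    norm_num

/-- NR1. -/
theorem prf : S_NR1 := by
  intro S K hK m i hi f h1 h2
  have hm : 0 < m := by omega
  refine ⟨fun T => (-1 : ℝ) ^ i * f fun j : Fin (m + 1) => T ⟨ss i j, ss_lt hi j⟩, ?_, ?_⟩
  · intro C hC T
    simp only
    rw [abs_mul, abs_pow, abs_neg, abs_one, one_pow, one_mul]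
    exact hC _
  · intro T hT j hj hTj
    rw [sub_eq_zero]
    set u : ℕ → S := fun k => T ⟨min k m, by omega⟩ with hu
    have huT : ∀ k : Fin (m + 1), u k = T k := by
      intro k
      rw [hu]
      simp only
      congr 1
      apply Fin.ext
      have := k.2
      simp only
      omega
    have hKu : ∀ (n : ℕ) (g : ℕ → ℕ), K n fun k : Fin n => u (g k) := by
      intro n g
      exact hK (m + 1) n T (fun k => ⟨min (g k) m, by omega⟩) hT
    have hmain := key (fun v : ℕ → S => f fun k : Fin (m + 1) => v k) u m i hi ?_ ?_ j hj ?_
    · have e1 : (fun k : Fin (m + 1) => u k) = T := by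
        funext k
        exact huT k
      simp only at hmain
      rw [e1] at hmain
      rw [hmain]
      unfold RA.dl
      rw [Finset.sum_range]
      refine Finset.sum_congr rfl fun l _ => ?_
      rw [smul_eq_mul]
      congr 3
      funext k
      show u (dd (↑l) (ss i ↑k)) = T (l.succAbove ⟨ss i ↑k, ss_lt hi k⟩)
      rw [← huT, succAbove_val]
    · intro g
      have := h1 (fun k : Fin (m + 2) => u (g k)) (hKu _ _)
      unfold RA.dl at this
      rw [Finset.sum_range, ← this]
      refine Finset.sum_congr rfl fun l _ => ?_
      rw [smul_eq_mul]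
      congr 2
      funext k
      show u (g (dd (↑l) ↑k)) = u (g ↑(l.succAbove k))
      rw [succAbove_val]
    · intro g k hk hgk
      refine h2 (fun k : Fin (m + 1) => u (g k)) (hKu _ _) ⟨k, by omega⟩ hk ?_
      simpa using hgk
    · have a1 := huT j.castSucc
      have a2 := huT j.succ
      rw [Fin.val_castSucc] at a1
      rw [Fin.val_succ] at a2
      rw [a1, a2, hTj]

end MP8a95ee.Npc.NR1P
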