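import Pool.Agent.Work.MP_8a95ee_gt.Fb.Stmts

/-!
# NR2: normalisation of a cocycle on `K`-tuples
-/

set_option autoImplicit false

namespace MP8a95ee.Npc.NR2P

open Classical MP8a95ee.RA

theorem dl_dl' {S : Type} {n : ℕ} (f : (Fin n → S) → ℝ) (T : Fin (n + 2) → S) :
    dl (dl f) T = 0 := by
  unfold dl
  simp only [Finset.smul_sum]
  rw [← Finset.sum_product' (Finset.univ : Finset (Fin (n + 2)))
    (Finset.univ : Finset (Fin (n + 1)))
    (fun i j => (-1 : ℝ) ^ (i : ℕ) • ((-1 : ℝ) ^ (j : ℕ) •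
      f (fun k => T (i.succAbove (j.succAbove k)))))]
  refine Finset.sum_involution (fun p _ => (p.1.succAbove p.2, p.2.predAbove p.1)) ?_ ?_ ?_ ?_
  · rintro ⟨i, j⟩ _
    simp only [Fin.succAbove_succAbove_succAbove_predAbove]
    have h := Fin.neg_one_pow_succAbove_add_predAbove (R := ℝ) i j
    rw [smul_smul, smul_smul, ← pow_add, ← pow_add, h, ← add_smul]
    rw [add_neg_cancel, zero_smul]
  · rintro ⟨i, j⟩ _ _ h
    exact Fin.succAbove_ne i j (Prod.ext_iff.1 h).1
  · intro _ _
    exact Finset.mem_univ _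
  · rintro ⟨i, j⟩ _
    exact Prod.ext (Fin.succAbove_succAbove_predAbove _ _) (Fin.predAbove_predAbove_succAbove _ _)

theorem lc_dl {S : Type} {m : ℕ} (h : (Fin m → S) → ℝ) (z : Ch S (m + 1)) :
    Finsupp.linearCombination ℝ (dl h) z = Finsupp.linearCombination ℝ h (bdT z) := by
  induction z using Finsupp.induction_linear with
  | zero => simp
  | add a b ha hb => rw [map_add, map_add, map_add, ha, hb]
  | single T c =>
    have h1 : bdT (Finsupp.single T c) = c • bdT0 T := by
      unfold bdT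
      rw [Finsupp.linearCombination_single]
    rw [h1, Finsupp.linearCombination_single, map_smul]
    congr 1
    unfold bdT0 dl
    rw [map_sum]
    refine Finset.sum_congr rfl fun i _ => ?_
    rw [Finsupp.linearCombination_single]

theorem dl_bound {S : Type} {m : ℕ} {h : (Fin m → S) → ℝ} {B : ℝ} (hB : ∀ T, |h T| ≤ B)
    (T : Fin (m + 1) → S) : |dl h T| ≤ (m + 1) * B := by
  unfold dl
  refine (Finset.abs_sum_le_sum_abs _ _).trans ?_
  have h1 : ∀ i ∈ (Finset.univ : Finset (Fin (m + 1))),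
      |((-1 : ℝ) ^ (i : ℕ)) • h fun j => T (i.succAbove j)| ≤ B := by
    intro i _
    rw [smul_eq_mul, abs_mul, abs_pow, abs_neg, abs_one, one_pow, one_mul]
    exact hB _
  refine (Finset.sum_le_sum h1).trans (le_of_eq ?_)
  simp

theorem step (h1 : S_NR1) {S : Type} {K : ∀ k : ℕ, (Fin k → S) → Prop}
    (hK : ∀ (k l : ℕ) (T : Fin k → S) (g : Fin l → Fin k), K k T → K l fun i => T (g i))
    {m : ℕ} {f : (Fin (m + 1) → S) → ℝ} (hf : ∀ T : Fin (m + 2) → S, K (m + 2) T → dl f T = 0)
    {C : ℝ} (hC : ∀ T, |f T| ≤ C) {z : Ch S (m + 1)} (hz : bdT z = 0) :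
    ∀ i : ℕ, i ≤ m → ∃ f' : (Fin (m + 1) → S) → ℝ,
      (∀ T : Fin (m + 2) → S, K (m + 2) T → dl f' T = 0) ∧
      (∀ T, |f' T| ≤ ((m : ℝ) + 2) ^ i * C) ∧
      (∀ T : Fin (m + 1) → S, K (m + 1) T → ∀ j : Fin m, (j : ℕ) < i →
        T j.castSucc = T j.succ → f' T = 0) ∧
      Finsupp.linearCombination ℝ f' z = Finsupp.linearCombination ℝ f z := by
  intro i
  induction i with
  | zero =>
    intro _
    exact ⟨f, hf, fun T => by simpa using hC T, fun T _ j hj => absurd hj (Nat.not_lt_zero _), rfl⟩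
  | succ i ih =>
    intro hi
    obtain ⟨f', h2, h3, h4, h5⟩ := ih (by omega)
    obtain ⟨h, h6, h7⟩ := h1 S K hK m i (by omega) f' h2 h4
    refine ⟨fun T => f' T - dl h T, ?_, ?_, ?_, ?_⟩
    · intro T hT
      have e1 : dl (fun T => f' T - dl h T) T = dl f' T - dl (dl h) T := by
        unfold dl
        rw [← Finset.sum_sub_distrib]
        refine Finset.sum_congr rfl fun i _ => ?_
        rw [smul_sub]
      rw [e1, h2 T hT, dl_dl', sub_zero]
    · intro T
      have e1 := h3 T
      have e2 := dl_bound (h6 _ h3) T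
      have e3 : |f' T - dl h T| ≤ |f' T| + |dl h T| := abs_sub _ _
      rw [pow_succ]
      nlinarith
    · intro T hT j hj hjT
      exact h7 T hT j (by omega) hjT
    · have e1 : Finsupp.linearCombination ℝ (fun T => f' T - dl h T) z =
          Finsupp.linearCombination ℝ f' z - Finsupp.linearCombination ℝ (dl h) z := by
        simp only [Finsupp.linearCombination_apply, Finsupp.sum, smul_sub, Finset.sum_sub_distrib]
      rw [e1, lc_dl, hz, map_zero, sub_zero, h5]

theorem prf (h1 : S_NR1) : S_NR2 := by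
  intro m
  refine ⟨((m : ℝ) + 2) ^ m, by positivity, ?_⟩
  intro S K hK f hf C hC z hz hbz
  obtain ⟨f', h2, h3, h4, h5⟩ := step h1 hK hf hC hbz m le_rfl
  refine ⟨fun T => if K (m + 1) T then f' T else 0, ?_, ?_, ?_, ?_⟩
  · intro T hT
    refine Eq.trans ?_ (h2 T hT)
    unfold dl
    refine Finset.sum_congr rfl fun i _ => ?_
    dsimp only
    rw [if_pos (hK (m + 2) (m + 1) T i.succAbove hT)]
  · intro T
    dsimp only
    split_ifs with hT
    · exact h3 T
    · rw [abs_zero]
      have : 0 ≤ C := (abs_nonneg _).trans (hC T)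
      positivity
  · intro T j hj
    dsimp only
    split_ifs with hT
    · exact h4 T hT j j.2 hj
    · rfl
  · rw [← h5]
    simp only [Finsupp.linearCombination_apply]
    refine Finsupp.sum_congr fun T hT => ?_
    rw [if_pos (hz T hT)]

end MP8a95ee.Npc.NR2P
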