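import Pool.Agent.Work.MP_8a95ee_gt.Fb.Stmts

/-!
# Item PRI: the prism formula
-/

set_option autoImplicit false

namespace MP8a95ee.Npc.PRIP

open Classical

/-- the combinatorics of the double sum -/
theorem comb (m : ℕ) (f K : ℕ → ℕ → ℝ) (D : ℕ → ℝ)
    (h1 : ∀ j i, i ≤ j → f (j + 1) i = K i j)
    (h2 : ∀ j, f j j = D j)
    (h3 : ∀ j, f j (j + 1) = D (j + 1))
    (h4 : ∀ j i, j < i → f j (i + 1) = K i j) :
    ∑ j ∈ Finset.range (m + 2), ∑ i ∈ Finset.range (m + 3), (-1 : ℝ) ^ (i + j) * f j i =
      D 0 - D (m + 2) -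
        ∑ j ∈ Finset.range (m + 1), ∑ i ∈ Finset.range (m + 2), (-1 : ℝ) ^ (i + j) * K i j := by
  have e1 : ∀ j i, (-1 : ℝ) ^ (i + j) * f j i =
      (if i < j then (-1 : ℝ) ^ (i + j) * f j i else 0) +
      (if i = j then f j i else 0) - (if i = j + 1 then f j i else 0) +
      (if j + 1 < i then (-1 : ℝ) ^ (i + j) * f j i else 0) := by
    intro j i
    rcases lt_trichotomy i j with h | h | h
    · simp [h, h.ne, show ¬ i = j + 1 by omega, show ¬ j + 1 < i by omega]
    · subst h
      rw [if_neg (lt_irrefl _), if_pos rfl, if_neg (by omega), if_neg (by omega),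
        Even.neg_one_pow ⟨i, rfl⟩]
      ring
    · rcases eq_or_lt_of_le (Nat.succ_le_of_lt h) with h' | h'
      · have : i = j + 1 := by omega
        subst this
        rw [if_neg (by omega), if_neg (by omega), if_pos rfl, if_neg (by omega),
          Odd.neg_one_pow ⟨j, by omega⟩]
        ring
      · rw [if_neg (by omega), if_neg (by omega), if_neg (by omega), if_pos (by omega)]
        ring
  rw [Finset.sum_congr rfl fun j _ => Finset.sum_congr rfl fun i _ => e1 j i]
  simp only [Finset.sum_add_distrib, Finset.sum_sub_distrib]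
  have a1 : ∑ j ∈ Finset.range (m + 2), ∑ i ∈ Finset.range (m + 3),
      (if i < j then (-1 : ℝ) ^ (i + j) * f j i else 0) =
      - ∑ j ∈ Finset.range (m + 1), ∑ i ∈ Finset.range (m + 2),
        (if i ≤ j then (-1 : ℝ) ^ (i + j) * K i j else 0) := by
    rw [Finset.sum_range_succ']
    simp only [Nat.not_lt_zero, if_false, Finset.sum_const_zero, add_zero]
    rw [← Finset.sum_neg_distrib]
    refine Finset.sum_congr rfl fun j hj => ?_
    rw [Finset.mem_range] at hj
    rw [Finset.sum_range_succ, if_neg (by omega), add_zero, ← Finset.sum_neg_distrib]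
    refine Finset.sum_congr rfl fun i hi => ?_
    by_cases h : i ≤ j
    · rw [if_pos (by omega), if_pos h, h1 j i h, ← add_assoc, pow_succ]
      ring
    · rw [if_neg (by omega), if_neg h, neg_zero]
  have a4 : ∑ j ∈ Finset.range (m + 2), ∑ i ∈ Finset.range (m + 3),
      (if j + 1 < i then (-1 : ℝ) ^ (i + j) * f j i else 0) =
      - ∑ j ∈ Finset.range (m + 1), ∑ i ∈ Finset.range (m + 2),
        (if j < i then (-1 : ℝ) ^ (i + j) * K i j else 0) := by
    have b : ∀ j, ∑ i ∈ Finset.range (m + 3),
      (if j + 1 < i then (-1 : ℝ) ^ (i + j) * f j i else 0) =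
      - ∑ i ∈ Finset.range (m + 2), (if j < i then (-1 : ℝ) ^ (i + j) * K i j else 0) := by
      intro j
      rw [Finset.sum_range_succ', if_neg (by omega), add_zero, ← Finset.sum_neg_distrib]
      refine Finset.sum_congr rfl fun i hi => ?_
      by_cases h : j < i
      · rw [if_pos (by omega), if_pos h, h4 j i h,
          show i + 1 + j = i + j + 1 by omega, pow_succ]
        ring
      · rw [if_neg (by omega), if_neg h, neg_zero]
    rw [Finset.sum_range_succ, b (m + 1)]
    rw [Finset.sum_eq_zero (s := Finset.range (m + 2))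
      (f := fun i => if m + 1 < i then (-1 : ℝ) ^ (i + (m + 1)) * K i (m + 1) else 0)
      (fun i hi => by
        rw [Finset.mem_range] at hi
        exact if_neg (by omega))]
    rw [neg_zero, add_zero, ← Finset.sum_neg_distrib]
    exact Finset.sum_congr rfl fun j _ => b j
  have a2 : ∑ j ∈ Finset.range (m + 2), ∑ i ∈ Finset.range (m + 3),
      (if i = j then f j i else 0) = ∑ j ∈ Finset.range (m + 2), D j := by
    refine Finset.sum_congr rfl fun j hj => ?_
    rw [Finset.mem_range] at hj
    rw [Finset.sum_ite_eq', if_pos (Finset.mem_range.2 (by omega)), h2]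
  have a3 : ∑ j ∈ Finset.range (m + 2), ∑ i ∈ Finset.range (m + 3),
      (if i = j + 1 then f j i else 0) = ∑ j ∈ Finset.range (m + 2), D (j + 1) := by
    refine Finset.sum_congr rfl fun j hj => ?_
    rw [Finset.mem_range] at hj
    rw [Finset.sum_ite_eq', if_pos (Finset.mem_range.2 (by omega)), h3]
  rw [a1, a2, a3, a4]
  have a5 : ∑ j ∈ Finset.range (m + 2), D j - ∑ j ∈ Finset.range (m + 2), D (j + 1) =
      D 0 - D (m + 2) := by
    rw [← Finset.sum_sub_distrib, Finset.sum_range_sub']
  have a6 : ∑ j ∈ Finset.range (m + 1), ∑ i ∈ Finset.range (m + 2), (-1 : ℝ) ^ (i + j) * K i j =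
      ∑ j ∈ Finset.range (m + 1), ∑ i ∈ Finset.range (m + 2),
        (if i ≤ j then (-1 : ℝ) ^ (i + j) * K i j else 0) +
      ∑ j ∈ Finset.range (m + 1), ∑ i ∈ Finset.range (m + 2),
        (if j < i then (-1 : ℝ) ^ (i + j) * K i j else 0) := by
    rw [← Finset.sum_add_distrib]
    refine Finset.sum_congr rfl fun j _ => ?_
    rw [← Finset.sum_add_distrib]
    refine Finset.sum_congr rfl fun i _ => ?_
    by_cases h : i ≤ j
    · rw [if_pos h, if_neg (by omega), add_zero]
    · rw [if_neg h, if_pos (by omega), zero_add]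
  rw [a6]
  linarith

/-- `succAbove` on natural numbers -/
def sa (i k : ℕ) : ℕ := if k < i then k else k + 1

theorem sa_val {n : ℕ} (i : Fin (n + 1)) (k : Fin n) : ((i.succAbove k : Fin (n + 1)) : ℕ) =
    sa i k := by
  unfold sa Fin.succAbove
  simp only [Fin.lt_def, Fin.val_castSucc]
  split_ifs <;> simp

theorem pa_val {n : ℕ} (j : Fin n) (l : Fin (n + 1)) : ((j.predAbove l : Fin n) : ℕ) =
    if (l : ℕ) ≤ j then (l : ℕ) else (l : ℕ) - 1 := by
  unfold Fin.predAbove
  by_cases h : j.castSucc < l
  · rw [dif_pos h]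
    rw [Fin.lt_def, Fin.val_castSucc] at h
    rw [if_neg (by omega)]
    simp
  · rw [dif_neg h]
    rw [Fin.lt_def, Fin.val_castSucc] at h
    rw [if_pos (by omega)]
    simp

theorem prf : S_PRI := by
  intro P m c hc r r' p
  obtain ⟨pe, hpe⟩ : ∃ pe : ℕ → P, ∀ x : Fin (m + 2), p x = pe x := by
    refine ⟨fun n => if h : n < m + 2 then p ⟨n, h⟩ else p 0, fun x => ?_⟩
    simp only [x.2, dif_pos]
  let f : ℕ → ℕ → ℝ := fun j i => c fun l : Fin (m + 2) =>
    if sa i l ≤ j then r (pe (sa i l)) else r' (pe (sa i l - 1))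
  let K : ℕ → ℕ → ℝ := fun i j => c fun l : Fin (m + 2) =>
    if (l : ℕ) ≤ j then r (pe (sa i l)) else r' (pe (sa i (l - 1)))
  let D : ℕ → ℝ := fun j => c fun l : Fin (m + 2) =>
    if (l : ℕ) < j then r (pe l) else r' (pe l)
  have key := comb m f K D
    (by
      intro j i hij
      show c _ = c _
      congr 1
      funext l
      by_cases h : (l : ℕ) ≤ j
      · have : sa i l ≤ j + 1 := by unfold sa; split_ifs <;> omega
        rw [if_pos this, if_pos h]
      · have h1 : sa i l = l + 1 := by unfold sa; rw [if_neg (by omega)]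
        have h2 : sa i (l - 1) = l := by unfold sa; rw [if_neg (by omega)]; omega
        rw [if_neg (by omega), if_neg h, h1, h2]
        rfl)
    (by
      intro j
      show c _ = c _
      congr 1
      funext l
      by_cases h : (l : ℕ) < j
      · have : sa j l = l := by unfold sa; rw [if_pos h]
        rw [this, if_pos (by omega), if_pos h]
      · have : sa j l = l + 1 := by unfold sa; rw [if_neg h]
        rw [this, if_neg (by omega), if_neg h]
        rfl)
    (by
      intro j
      show c _ = c _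
      congr 1
      funext l
      by_cases h : (l : ℕ) < j + 1
      · have : sa (j + 1) l = l := by unfold sa; rw [if_pos h]
        rw [this, if_pos (by omega), if_pos h]
      · have : sa (j + 1) l = l + 1 := by unfold sa; rw [if_neg h]
        rw [this, if_neg (by omega), if_neg h]
        rfl)
    (by
      intro j i hij
      show c _ = c _
      congr 1
      funext l
      by_cases h : (l : ℕ) ≤ j
      · have h1 : sa (i + 1) l = l := by unfold sa; rw [if_pos (by omega)]
        have h2 : sa i l = l := by unfold sa; rw [if_pos (by omega)]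
        rw [h1, h2, if_pos h, if_pos h]
      · have h1 : sa (i + 1) l - 1 = sa i (l - 1) := by
          unfold sa; split_ifs <;> omega
        have h2 : ¬ sa (i + 1) l ≤ j := by unfold sa; split_ifs <;> omega
        rw [h1, if_neg h2, if_neg h])
  -- the left-hand side vanishes
  have z : ∑ j ∈ Finset.range (m + 2), ∑ i ∈ Finset.range (m + 3),
      (-1 : ℝ) ^ (i + j) * f j i = 0 := by
    refine Finset.sum_eq_zero fun j hj => ?_
    rw [Finset.mem_range] at hj
    have := hc fun l : Fin (m + 3) => if (l : ℕ) ≤ j then r (pe l) else r' (pe (l - 1))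
    unfold RA.dl at this
    simp only [smul_eq_mul, sa_val] at this
    rw [← Fin.sum_univ_eq_sum_range fun i => (-1 : ℝ) ^ (i + j) * f j i]
    have h2 : ∀ i : Fin (m + 3), (-1 : ℝ) ^ ((i : ℕ) + j) * f j i =
        (-1 : ℝ) ^ j * ((-1 : ℝ) ^ (i : ℕ) * c fun l : Fin (m + 2) =>
          if sa i l ≤ j then r (pe (sa i l)) else r' (pe (sa i l - 1))) := by
      intro i
      rw [pow_add]
      show _ * c _ = _
      ring
    rw [Finset.sum_congr rfl fun i _ => h2 i, ← Finset.mul_sum, this, mul_zero]
  have hD0 : D 0 = c fun i => r' (p i) := by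
    show c _ = c _
    congr 1
    funext l
    rw [if_neg (by omega), hpe]
  have hDm : D (m + 2) = c fun i => r (p i) := by
    show c _ = c _
    congr 1
    funext l
    rw [if_pos l.2, hpe]
  have hB : RA.dl (prm c r r') p =
      ∑ j ∈ Finset.range (m + 1), ∑ i ∈ Finset.range (m + 2), (-1 : ℝ) ^ (i + j) * K i j := by
    unfold RA.dl prm
    rw [Finset.sum_comm, ← Fin.sum_univ_eq_sum_range
      (fun i => ∑ j ∈ Finset.range (m + 1), (-1 : ℝ) ^ (i + j) * K i j)]
    refine Finset.sum_congr rfl fun i _ => ?_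
    rw [smul_eq_mul, Finset.mul_sum, ← Fin.sum_univ_eq_sum_range
      (fun j => (-1 : ℝ) ^ ((i : ℕ) + j) * K i j)]
    refine Finset.sum_congr rfl fun j _ => ?_
    rw [← mul_assoc, ← pow_add]
    congr 1
    show c _ = c _
    congr 1
    funext l
    by_cases h : (l : ℕ) ≤ j
    · rw [if_pos (show l ≤ j.castSucc by rw [Fin.le_def]; exact h), if_pos h]
      show r (p (i.succAbove (j.predAbove l))) = _
      rw [hpe, sa_val, pa_val, if_pos h]
    · rw [if_neg (show ¬ l ≤ j.castSucc by rw [Fin.le_def]; exact h), if_neg h]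
      show r' (p (i.succAbove (j.predAbove l))) = _
      rw [hpe, sa_val, pa_val, if_neg h]
  rw [z, hD0, hDm, ← hB] at key
  linarith

end MP8a95ee.Npc.PRIP
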