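import Pool.Agent.Work.MP_8a95ee_gt.Fb.Stmts

/-!
# Items SDE and RLZ: iterated faces, and the realisation is a chain map
-/

set_option autoImplicit false

namespace MP8a95ee.Npc.SDEP

open MP8a95ee MP8a95ee.Npc

/-- a strictly increasing map which misses `i` factors through `i.succAbove` -/
theorem factor {j N : ℕ} (δ : Fin (j + 1) → Fin (N + 1 + 1)) (hδ : StrictMono δ)
    (i : Fin (N + 1 + 1)) (hi : ∀ k, δ k ≠ i) :
    ∃ δ' : Fin (j + 1) → Fin (N + 1), StrictMono δ' ∧ ∀ k, i.succAbove (δ' k) = δ k := by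
  have h : ∀ k, ∃ y : Fin (N + 1), i.succAbove y = δ k := fun k =>
    Fin.exists_succAbove_eq (hi k)
  choose δ' h' using h
  refine ⟨δ', fun a c hac => ?_, h'⟩
  have h1 : i.succAbove (δ' a) < i.succAbove (δ' c) := by
    rw [h', h']; exact hδ hac
  exact (Fin.strictMono_succAbove i).lt_iff_lt.mp h1

/-- a strictly increasing surjective map is the identity -/
theorem surj_id {j N : ℕ} (δ : Fin (j + 1) → Fin (N + 1)) (hδ : StrictMono δ)
    (hs : ∀ i, ∃ k, δ k = i) : ∃ h : j = N, ∀ k, δ k = Fin.cast (by rw [h]) k := by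
  have hc : Fintype.card (Fin (j + 1)) = Fintype.card (Fin (N + 1)) :=
    Fintype.card_of_bijective ⟨hδ.injective, hs⟩
  have h : j = N := by simpa using hc
  subst h
  refine ⟨rfl, fun k => ?_⟩
  have e : OrderIso.refl (Fin (j + 1)) = StrictMono.orderIsoOfSurjective δ hδ hs :=
    Subsingleton.elim _ _
  have := congrArg (fun f : Fin (j + 1) ≃o Fin (j + 1) => f k) e
  simpa using this.symm

theorem main (X : SimpleGraph ℕ) (Γ : Subgroup (Equiv.Perm ℕ)) (A P : Type)
    [TopologicalSpace A] [MulAction Γ A] [PartialOrder P] [MulAction Γ P] (q : P → Finset ℕ)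
    (S : ∀ k : ℕ, (Fin (k + 1) → P) → SSimplex A k) (hT : IsTri X Γ q S) :
    ∀ (N j : ℕ) (δ : Fin (j + 1) → Fin (N + 1)) (_ : StrictMono δ) (p : Fin (N + 1) → P)
      (_ : StrictMono p) (t : stdSimplex ℝ (Fin (j + 1))),
      S N p (stdSimplex.map δ t) = S j (fun i => p (δ i)) t := by
  intro N
  induction N with
  | zero =>
    intro j δ hδ p hp t
    have hs : ∀ i : Fin (0 + 1), ∃ k, δ k = i := fun i => ⟨0, by apply Fin.ext; omega⟩
    obtain ⟨h, hk⟩ := surj_id δ hδ hs
    subst h
    have hid : δ = id := by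
      funext k
      rw [hk k]; rfl
    subst hid
    simp
  | succ N ih =>
    intro j δ hδ p hp t
    by_cases hs : ∀ i, ∃ k, δ k = i
    · obtain ⟨h, hk⟩ := surj_id δ hδ hs
      subst h
      have hid : δ = id := by
        funext k
        rw [hk k]; rfl
      subst hid
      simp
    · push Not at hs
      obtain ⟨i, hi⟩ := hs
      obtain ⟨δ', hδ', hf⟩ := factor δ hδ i hi
      have hcomp : δ = i.succAbove ∘ δ' := by
        funext k
        exact (hf k).symm
      have hmap : stdSimplex.map δ t = stdSimplex.map i.succAbove (stdSimplex.map δ' t) := by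
        rw [hcomp, stdSimplex.map_comp_apply]
      rw [hmap]
      have h1 := hT.face N p hp i
      have h2 : S (N + 1) p (stdSimplex.map i.succAbove (stdSimplex.map δ' t)) =
          (MP8a95ee.face (S (N + 1) p) i) (stdSimplex.map δ' t) := rfl
      rw [h2, h1, ih j δ' hδ' (fun k => p (i.succAbove k))
        (hp.comp (Fin.strictMono_succAbove i)) t]
      congr 2
      funext k
      rw [hf k]

theorem prf : S_SDE := by
  intro X Γ A P _ _ _ _ q S hT j N δ hδ p hp t
  exact main X Γ A P q S hT N j δ hδ p hp t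

/-- the boundary as a linear map -/
noncomputable def bdL {A : Type} [TopologicalSpace A] {n : ℕ} :
    SChain A (n + 1) →ₗ[ℝ] SChain A n :=
  Finsupp.linearCombination ℝ fun σ => ∑ i : Fin (n + 2),
    Finsupp.single (MP8a95ee.face σ i) ((-1 : ℝ) ^ (i : ℕ))

theorem bd_eq {A : Type} [TopologicalSpace A] {n : ℕ} (c : SChain A (n + 1)) :
    bd c = bdL c := by
  unfold bd bdL
  rw [Finsupp.linearCombination_apply]
  refine Finsupp.sum_congr fun σ _ => ?_
  rw [Finset.smul_sum]
  refine Finset.sum_congr rfl fun i _ => ?_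
  rw [Finsupp.smul_single, smul_eq_mul, mul_comm]

theorem prf2 : S_RLZ := by
  intro X Γ A P _ _ _ _ q S hT b y hy
  rw [bd_eq]
  have hy' : y = ∑ p ∈ y.support, Finsupp.single p (y p) := by
    conv_lhs => rw [← Finsupp.sum_single y]
    rfl
  rw [hy', map_sum, map_sum, map_sum, map_sum]
  refine Finset.sum_congr rfl fun p hp => ?_
  have hm := hy p hp
  have h1 : rlz S (b + 1) (Finsupp.single p (y p)) =
      Finsupp.single (S (b + 1) p) (y p) := by
    unfold rlz
    rw [Finsupp.linearCombination_single, Finsupp.smul_single, smul_eq_mul, mul_one]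
  rw [h1]
  unfold bdL RA.bdT
  rw [Finsupp.linearCombination_single, Finsupp.linearCombination_single, map_smul]
  congr 1
  unfold RA.bdT0
  rw [map_sum]
  refine Finset.sum_congr rfl fun i _ => ?_
  unfold rlz
  rw [Finsupp.linearCombination_single, Finsupp.smul_single, smul_eq_mul, mul_one,
    hT.face b p hm i]

end MP8a95ee.Npc.SDEP
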