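import Pool.Agent.Work.MP_8a95ee_gt.Fb.Stmts
import Pool.Agent.Work.MP_8a95ee_gt.Fb.I_FL0
import Pool.Agent.Work.MP_8a95ee_gt.Fb.I_DLI

/-!
# Item TB: flags with missing vertex
-/

set_option autoImplicit false

namespace MP8a95ee.Npc.TBP

open Classical

variable {X : SimpleGraph ℕ}

/-- the vertex of a flag -/
theorem flg_zero (h1 : S_CU1) (hX : IsMedianGraph X) (hL : LocFin X) {m u : ℕ}
    {r : Fin (m + 1) → ℕ} (hr : r ∈ Dom X (m + 1) u) : flg X u r 0 = {u} := by
  unfold flg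
  have e : ((0 : Fin (m + 1 + 1)) : ℕ) = 0 := rfl
  rw [e, Sp.pre_zero]
  unfold cubeSet
  rw [Finset.powerset_empty, Finset.image_singleton,
    (h1 X hX hL u _ (FL0P.pre_link hr 0)).1]

/-- change of the corner, with the directions -/
theorem cube_rb (h3 : S_CU3) (hX : IsMedianGraph X) (hL : LocFin X) {x : ℕ} {s : Finset ℕ}
    (hs : s ∈ link X x) {T : Finset ℕ} (hT : T ⊆ s) :
    cubeSet X (corner X x T) (s.image (rb X x T)) = cubeSet X x s := by
  obtain ⟨-, hc⟩ := h3 X hX hL x s hs T hT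
  unfold cubeSet
  ext y
  simp only [Finset.mem_image, Finset.mem_powerset]
  constructor
  · rintro ⟨W, hW, rfl⟩
    obtain ⟨U, hU, rfl⟩ := Finset.subset_image_iff.1 hW
    have hU' : U ⊆ s := hU
    refine ⟨symmDiff T U, ?_, (hc U hU').symm⟩
    intro a ha
    rw [Finset.mem_symmDiff] at ha
    rcases ha with ha | ha
    · exact hT ha.1
    · exact hU' ha.1
  · rintro ⟨U, hU, rfl⟩
    have hTU : symmDiff T U ⊆ s := by
      intro a ha
      rw [Finset.mem_symmDiff] at ha
      rcases ha with ha | ha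
      · exact hT ha.1
      · exact hU ha.1
    refine ⟨(symmDiff T U).image (rb X x T), Finset.image_subset_image hTU, ?_⟩
    rw [hc _ hTU, symmDiff_symmDiff_cancel_left]

/-- the directions at the neighbour `s 0` -/
theorem dirs (h1 : S_CU1) (hX : IsMedianGraph X) (hL : LocFin X) {m v : ℕ}
    {s : Fin (m + 1) → ℕ} (hs : s ∈ Dom X (m + 1) v) :
    (fun j : Fin (m + 1) => if j = 0 then v else corner X v {s 0, s j}) =
      fun j => rb X v {s 0} (s j) := by
  obtain ⟨hinj, hlk⟩ := FL0P.dom_inj hs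
  funext j
  unfold rb
  by_cases hj : j = 0
  · subst hj
    rw [if_pos rfl, symmDiff_self, Finset.bot_eq_empty, (h1 X hX hL v _ hlk).1]
  · rw [if_neg hj]
    congr 1
    have hne : s 0 ≠ s j := fun e => hj (hinj e).symm
    ext a
    rw [Finset.mem_insert, Finset.mem_singleton, Finset.mem_symmDiff, Finset.mem_singleton,
      Finset.mem_singleton]
    constructor
    · rintro (rfl | rfl)
      · exact Or.inl ⟨rfl, hne⟩
      · exact Or.inr ⟨rfl, hne.symm⟩
    · rintro (h | h)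
      · exact Or.inl h.1
      · exact Or.inr h.1

theorem s0_mem {m : ℕ} (s : Fin (m + 1) → ℕ) {k : ℕ} (hk : 0 < k) : s 0 ∈ Sp.pre s k :=
  Sp.mem_pre.2 ⟨0, hk, rfl⟩

theorem pre_map {n : ℕ} (s : Fin n → ℕ) (f : ℕ → ℕ) (k : ℕ) :
    Sp.pre (fun j => f (s j)) k = (Sp.pre s k).image f := by
  ext a
  rw [Sp.mem_pre, Finset.mem_image]
  constructor
  · rintro ⟨j, hj, rfl⟩
    exact ⟨s j, Sp.mem_pre.2 ⟨j, hj, rfl⟩, rfl⟩
  · rintro ⟨b, hb, rfl⟩
    obtain ⟨j, hj, rfl⟩ := Sp.mem_pre.1 hb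
    exact ⟨j, hj, rfl⟩

/-- the tuple at the neighbour is a tuple of directions -/
theorem dom_rb (h1 : S_CU1) (h3 : S_CU3) (hX : IsMedianGraph X) (hL : LocFin X) {m v : ℕ}
    {s : Fin (m + 1) → ℕ} (hs : s ∈ Dom X (m + 1) v) :
    (fun j => rb X v {s 0} (s j)) ∈ Dom X (m + 1) (s 0) := by
  obtain ⟨hinj, hlk⟩ := FL0P.dom_inj hs
  have h0 : s 0 ∈ Finset.univ.image s := Finset.mem_image_of_mem _ (Finset.mem_univ _)
  have hT : ({s 0} : Finset ℕ) ⊆ Finset.univ.image s := Finset.singleton_subset_iff.2 h0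
  have c1 := h1 X hX hL v _ hlk
  have hl := (h3 X hX hL v _ hlk {s 0} hT).1
  rw [c1.2.1 _ h0, Finset.image_image] at hl
  have hl' : Finset.univ.image (fun j => rb X v {s 0} (s j)) ∈ link X (s 0) := hl
  unfold Dom
  rw [Finset.mem_filter, Fintype.mem_piFinset]
  refine ⟨fun i => (mem_link.1 hl').1 (Finset.mem_image_of_mem _ (Finset.mem_univ _)), ?_, hl'⟩
  intro i j hij
  exact hinj (c1.2.2.2.1 {s 0} hT (s i) (Finset.mem_image_of_mem _ (Finset.mem_univ _)) (s j)
    (Finset.mem_image_of_mem _ (Finset.mem_univ _)) hij)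

/-- the cubes of positive dimension are the same -/
theorem flg_rb (h1 : S_CU1) (h3 : S_CU3) (hX : IsMedianGraph X) (hL : LocFin X) {m v : ℕ}
    {s : Fin (m + 1) → ℕ} (hs : s ∈ Dom X (m + 1) v) (i : Fin (m + 2)) (hi : i ≠ 0) :
    flg X (s 0) (fun j => rb X v {s 0} (s j)) i = flg X v s i := by
  have hi' : 0 < (i : ℕ) := Nat.pos_of_ne_zero fun e => hi (Fin.ext e)
  unfold flg
  rw [pre_map s (rb X v {s 0})]
  have h0 : s 0 ∈ Sp.pre s (i : ℕ) := s0_mem s hi'
  have hlk := FL0P.pre_link hs (i : ℕ)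
  have h4 := cube_rb h3 hX hL hlk (T := {s 0}) (Finset.singleton_subset_iff.2 h0)
  rw [(h1 X hX hL v _ hlk).2.1 _ h0] at h4
  exact h4

/-- the edge of a flag -/
theorem mem_one (h1 : S_CU1) (hX : IsMedianGraph X) (hL : LocFin X) {m v : ℕ}
    {s : Fin (m + 1) → ℕ} (hs : s ∈ Dom X (m + 1) v) {u : ℕ} (hu : u ∈ flg X v s 1) :
    u = v ∨ u = s 0 := by
  have hlk := FL0P.pre_link hs 1
  have c1 := h1 X hX hL v _ hlk
  have e1 : ((1 : Fin (m + 1 + 1)) : ℕ) = 1 := by simp
  unfold flg cubeSet at hu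
  rw [e1, Finset.mem_image] at hu
  obtain ⟨U, hU, rfl⟩ := hu
  rw [Finset.mem_powerset] at hU
  have h2 : Sp.pre s 1 = {s 0} := by
    ext a
    rw [Sp.mem_pre, Finset.mem_singleton]
    constructor
    · rintro ⟨j, hj, rfl⟩
      have : j = 0 := Fin.ext (by
        have e : ((0 : Fin (m + 1)) : ℕ) = 0 := rfl
        omega)
      rw [this]
    · rintro rfl
      exact ⟨0, Nat.one_pos, rfl⟩
  rw [h2] at hU
  rcases Finset.subset_singleton_iff.1 hU with rfl | rfl
  · exact Or.inl c1.1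
  · exact Or.inr (c1.2.1 _ (by rw [h2]; exact Finset.mem_singleton_self _))

/-- flags with the given cubes -/
theorem flags (h1 : S_CU1) (h2 : S_CU2) (h3 : S_CU3) (hX : IsMedianGraph X) (hL : LocFin X)
    {m : ℕ} (hm : ∀ x, ∀ s ∈ link X x, s.card ≤ m + 1) {v : ℕ} {s : Fin (m + 1) → ℕ}
    (hs : s ∈ Dom X (m + 1) v) {Q : Fin (m + 2) → Finset ℕ} (hQ : ∀ i, IsCube X (Q i))
    (hmono : Monotone Q) (hinj : Function.Injective Q) (l : Fin (m + 2))
    (hl : (fun i => Q (l.succAbove i)) = fun l : Fin (m + 1) => flg X v s (Fin.succAbove 0 l)) :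
    Q = flg X v s ∨ Q = flg X (s 0) (fun j => rb X v {s 0} (s j)) := by
  obtain ⟨v', s', hs', rfl⟩ := FL0P.flag_exists h1 h2 h3 hX hL m hm Q hQ hmono hinj
  have hs2 := dom_rb h1 h3 hX hL hs
  have hc := (FL0P.flag_props h1 hX hL hs).2.2.2
  have hc' := (FL0P.flag_props h1 hX hL hs').2.2.2
  have hlp : l = 0 := by
    apply Fin.succAbove_left_injective
    funext i
    apply Fin.ext
    have h4 := congrArg Finset.card (congrFun hl i)
    rw [hc, hc'] at h4
    exact Nat.pow_right_injective (le_refl 2) h4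
  subst hlp
  have hi : ∀ i : Fin (m + 2), i ≠ 0 → flg X v' s' i = flg X v s i := by
    intro i hi
    obtain ⟨a, rfl⟩ := Fin.exists_succAbove_eq hi
    exact congrFun hl a
  have hmem : v' ∈ flg X v s 1 := by
    rw [← hi 1 (by
      intro e
      have h5 := congrArg Fin.val e
      simp at h5)]
    apply (FL0P.flag_props h1 hX hL hs').1 (Fin.zero_le 1)
    rw [flg_zero h1 hX hL hs']
    exact Finset.mem_singleton_self _
  rcases mem_one h1 hX hL hs hmem with e | e
  · left
    funext i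
    by_cases h0 : i = 0
    · rw [h0, flg_zero h1 hX hL hs', flg_zero h1 hX hL hs, e]
    · exact hi i h0
  · right
    funext i
    by_cases h0 : i = 0
    · rw [h0, flg_zero h1 hX hL hs', flg_zero h1 hX hL hs2, e]
    · rw [flg_rb h1 h3 hX hL hs i h0]
      exact hi i h0

/-- **Item TB.** -/
theorem prf (h1 : S_CU1) (h2 : S_CU2) (h3 : S_CU3) : S_TB := by
  intro X hX hL m hm v s hs Q hQ hmono
  rw [dirs h1 hX hL hs]
  have hs2 := dom_rb h1 h3 hX hL hs
  have hF := (FL0P.flag_props h1 hX hL hs).2.1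
  have hF2 := (FL0P.flag_props h1 hX hL hs2).2.1
  have hR : Function.Injective fun l : Fin (m + 1) => flg X v s (Fin.succAbove 0 l) :=
    fun a b hab => Fin.succAbove_right_injective (hF hab)
  have hD := DLIP.prf m _ hR Q hmono
  have hne : flg X v s ≠ flg X (s 0) (fun j => rb X v {s 0} (s j)) := by
    intro e
    have h4 := (FL0P.flag_inj h1 h2 hX hL hs hs2 e).1
    obtain ⟨hinj, hlk⟩ := FL0P.dom_inj hs
    have c1 := h1 X hX hL v _ hlk
    have h0 : s 0 ∈ Finset.univ.image s := Finset.mem_image_of_mem _ (Finset.mem_univ _)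
    have h5 := c1.2.2.1 ∅ (Finset.empty_subset _) {s 0} (Finset.singleton_subset_iff.2 h0) (by
      rw [c1.1, c1.2.1 _ h0]
      exact h4)
    exact Finset.singleton_ne_empty _ h5.symm
  have hsw : (fun i : Fin (m + 1) => flg X (s 0) (fun j => rb X v {s 0} (s j))
      (Fin.succAbove 0 i)) = fun l : Fin (m + 1) => flg X v s (Fin.succAbove 0 l) := by
    funext i
    exact flg_rb h1 h3 hX hL hs _ (Fin.succAbove_ne _ _)
  have hone : ((-1 : ℝ)) ^ (((0 : Fin (m + 2)) : ℕ)) = 1 := by simp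
  by_cases hinj : Function.Injective Q
  · by_cases hA : Q = flg X v s
    · have h4 := hD.2.1 0 hinj (by rw [hA])
      rw [h4, hone]
      unfold ind
      rw [if_pos hA, if_neg (fun h => hne (hA.symm.trans h)), add_zero]
    · by_cases hB : Q = flg X (s 0) (fun j => rb X v {s 0} (s j))
      · have h4 := hD.2.1 0 hinj (by rw [hB]; exact hsw)
        rw [h4, hone]
        unfold ind
        rw [if_neg hA, if_pos hB, zero_add]
      · have h4 := hD.2.2 (fun l hl => by
          rcases flags h1 h2 h3 hX hL hm hs hQ hmono hinj l hl with h | h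
          · exact hA h
          · exact hB h)
        rw [h4]
        unfold ind
        rw [if_neg hA, if_neg hB, add_zero]
  · rw [hD.1 hinj]
    unfold ind
    rw [if_neg (fun h => hinj (by rw [h]; exact hF)),
      if_neg (fun h => hinj (by rw [h]; exact hF2)), add_zero]

end MP8a95ee.Npc.TBP
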