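import Pool.Agent.Work.MP_8a95ee_gt.Fb.I_FL0

/-!
# Item TC: flags with missing top cube
-/

set_option autoImplicit false

namespace MP8a95ee.Npc.TCP

open Classical

variable {X : SimpleGraph ℕ}

/-- the last entry is not seen by the smaller initial segments -/
theorem pre_update {m : ℕ} (s : Fin (m + 1) → ℕ) (a : ℕ) {k : ℕ} (hk : k ≤ m) :
    Sp.pre (Function.update s (Fin.last m) a) k = Sp.pre s k := by
  have key : ∀ j : Fin (m + 1), (j : ℕ) < k → Function.update s (Fin.last m) a j = s j := by
    intro j hj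
    rw [Function.update_of_ne]
    intro h
    subst h
    rw [Fin.val_last] at hj
    omega
  ext x
  rw [Sp.mem_pre, Sp.mem_pre]
  constructor
  · rintro ⟨j, hj, h⟩
    exact ⟨j, hj, by rw [← key j hj]; exact h⟩
  · rintro ⟨j, hj, h⟩
    exact ⟨j, hj, by rw [key j hj]; exact h⟩

theorem flg_update {m : ℕ} (v : ℕ) (s : Fin (m + 1) → ℕ) (a : ℕ) (i : Fin (m + 1)) :
    flg X v (Function.update s (Fin.last m) a) i.castSucc = flg X v s i.castSucc := by
  unfold flg
  rw [Fin.val_castSucc, pre_update s a (by omega)]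

theorem flg_zero (h1 : S_CU1) (hX : IsMedianGraph X) (hL : LocFin X) {m : ℕ} (u : ℕ)
    (r : Fin (m + 1) → ℕ) (hr : r ∈ Dom X (m + 1) u) : flg X u r 0 = {u} := by
  unfold flg
  have e : ((0 : Fin (m + 1 + 1)) : ℕ) = 0 := rfl
  rw [e, Sp.pre_zero]
  unfold cubeSet
  rw [Finset.powerset_empty, Finset.image_singleton, (h1 X hX hL u _ (FL0P.pre_link hr 0)).1]

/-- two flags which agree except at the top -/
theorem agree (h1 : S_CU1) (h2 : S_CU2) (hX : IsMedianGraph X) (hL : LocFin X) {m v v' : ℕ}
    {s s' : Fin (m + 1) → ℕ} (hs : s ∈ Dom X (m + 1) v) (hs' : s' ∈ Dom X (m + 1) v')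
    (h : ∀ i : Fin (m + 1), flg X v' s' i.castSucc = flg X v s i.castSucc) :
    v' = v ∧ s' = Function.update s (Fin.last m) (s' (Fin.last m)) := by
  have hv : v' = v := by
    have h3 := h 0
    rw [Fin.castSucc_zero, flg_zero h1 hX hL v' s' hs', flg_zero h1 hX hL v s hs] at h3
    exact Finset.singleton_inj.1 h3
  subst hv
  refine ⟨rfl, ?_⟩
  have hp : ∀ k : ℕ, k ≤ m → Sp.pre s' k = Sp.pre s k := by
    intro k hk
    have h3 : cubeSet X v' (Sp.pre s' k) = cubeSet X v' (Sp.pre s k) :=
      h ⟨k, by omega⟩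
    exact Finset.Subset.antisymm
      (FL0P.dir_mono h1 h2 hX hL (FL0P.pre_link hs' _) (FL0P.pre_link hs _) h3.subset)
      (FL0P.dir_mono h1 h2 hX hL (FL0P.pre_link hs _) (FL0P.pre_link hs' _) h3.symm.subset)
  funext j
  by_cases hj : j = Fin.last m
  · rw [hj, Function.update_self]
  rw [Function.update_of_ne hj]
  have hjm : (j : ℕ) < m := by
    have h4 := j.2
    have h5 : (j : ℕ) ≠ m := fun h => hj (Fin.ext (by rw [h, Fin.val_last]))
    omega
  have m1 : s' j ∈ Sp.pre s ((j : ℕ) + 1) := by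
    rw [← hp _ (by omega), Sp.mem_pre]
    exact ⟨j, by omega, rfl⟩
  rw [Sp.mem_pre] at m1
  obtain ⟨i, hi, hij⟩ := m1
  by_cases hlt : (i : ℕ) < j
  · exfalso
    have m2 : s' j ∈ Sp.pre s' (j : ℕ) := by
      rw [hp _ (by omega), Sp.mem_pre]
      exact ⟨i, hlt, hij⟩
    rw [Sp.mem_pre] at m2
    obtain ⟨i', hi', hij'⟩ := m2
    have := (FL0P.dom_inj hs').1 hij'
    rw [this] at hi'
    omega
  · have hij2 : i = j := Fin.ext (by omega)
    rw [← hij, hij2]

/-- **Item TC.** -/
theorem prf (hdli : S_DLI) (hfl : S_FL0) (h1 : S_CU1) (h2 : S_CU2) : S_TC := by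
  intro X hX hL m hcard v s hs Q hQ hmono
  obtain ⟨f1, f2, f3⟩ := hfl X hX hL m hcard
  have hRl : ∀ l : Fin (m + 1), (Fin.last (m + 1)).succAbove l = l.castSucc := by
    intro l
    rw [Fin.succAbove_last]
  have hRinj : Function.Injective
      (fun l : Fin (m + 1) => flg X v s ((Fin.last (m + 1)).succAbove l)) := by
    intro a b hab
    have := (f1 v s hs).2.1 hab
    exact Fin.succAbove_right_injective this
  obtain ⟨d1, d2, d3⟩ := hdli m _ hRinj Q hmono
  by_cases hinj : Function.Injective Q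
  swap
  · rw [d1 hinj, Finset.sum_eq_zero, mul_zero]
    intro a ha
    unfold ind
    rw [if_neg]
    intro he
    apply hinj
    rw [he]
    exact (f1 v _ (Finset.mem_filter.1 ha).2).2.1
  obtain ⟨v', s', hs', hQe⟩ := f3 Q hQ hmono hinj
  by_cases hall : ∀ l : Fin (m + 2), (fun i => Q (l.succAbove i)) ≠
      fun l : Fin (m + 1) => flg X v s ((Fin.last (m + 1)).succAbove l)
  · rw [d3 hall, Finset.sum_eq_zero, mul_zero]
    intro a ha
    unfold ind
    rw [if_neg]
    intro he
    apply hall (Fin.last (m + 1))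
    funext l
    rw [he, hRl l, flg_update]
  push Not at hall
  obtain ⟨l, hl⟩ := hall
  have hlast : l = Fin.last (m + 1) := by
    by_contra hne
    have h3 : (Q (l.succAbove (Fin.last m))).card =
        (flg X v s ((Fin.last (m + 1)).succAbove (Fin.last m))).card :=
      congrArg Finset.card (congrFun hl (Fin.last m))
    have hlt : l < Fin.last (m + 1) := lt_of_le_of_ne (Fin.le_last l) hne
    have hval : ((l.succAbove (Fin.last m) : Fin (m + 2)) : ℕ) = m + 1 := by
      rw [Fin.succAbove_of_le_castSucc, Fin.val_succ, Fin.val_last]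
      rw [Fin.le_iff_val_le_val, Fin.val_castSucc, Fin.val_last]
      have h4 : (l : ℕ) < m + 1 := hlt
      omega
    rw [hRl (Fin.last m), hQe, (f1 v' s' hs').2.2.2, (f1 v s hs).2.2.2, hval, Fin.val_castSucc,
      Fin.val_last] at h3
    have := Nat.pow_right_injective (le_refl 2) h3
    omega
  subst hlast
  rw [d2 _ hinj hl]
  have hag : ∀ i : Fin (m + 1), flg X v' s' i.castSucc = flg X v s i.castSucc := by
    intro i
    have h3 : Q ((Fin.last (m + 1)).succAbove i) =
        flg X v s ((Fin.last (m + 1)).succAbove i) := congrFun hl i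
    rw [hRl i, hQe] at h3
    exact h3
  obtain ⟨hv, hs'e⟩ := agree h1 h2 hX hL hs hs' hag
  subst hv
  have hsum : ∑ a ∈ (nbr X v').filter
      (fun a => Function.update s (Fin.last m) a ∈ Dom X (m + 1) v'),
        ind (flg X v' (Function.update s (Fin.last m) a)) Q = 1 := by
    rw [Finset.sum_eq_single (s' (Fin.last m))]
    · unfold ind
      rw [if_pos]
      rw [← hs'e]
      exact hQe
    · intro a ha hne
      unfold ind
      rw [if_neg]
      intro he
      rw [hQe] at he
      have h4 := (f2 v' s' hs' v' _ (Finset.mem_filter.1 ha).2 he).2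
      apply hne
      have h5 := congrFun h4 (Fin.last m)
      rw [Function.update_self] at h5
      exact h5.symm
    · intro hni
      exfalso
      apply hni
      rw [Finset.mem_filter]
      refine ⟨?_, ?_⟩
      · have h6 := hs'
        unfold Dom at h6
        rw [Finset.mem_filter, Fintype.mem_piFinset] at h6
        exact h6.1 (Fin.last m)
      · rw [← hs'e]
        exact hs'
  rw [hsum, mul_one, Fin.val_last]

end MP8a95ee.Npc.TCP
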