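import Pool.Agent.Work.MP_8a95ee_gt.Fb.Stmts
import Pool.Agent.Work.MP_8a95ee_gt.Bd.B05

/-!
# Item TR2: top dimensional cycles of a homology sphere are proportional (helper5)
-/

set_option autoImplicit false

namespace MP8a95ee.Npc.TR2P

open Classical RA

/-- a function which is alternating for adjacent transpositions is alternating -/
theorem perm_adj {m : ℕ} {o' : (Fin (m + 1) → ℕ) → ℝ}
    (h : ∀ s, ∀ j : Fin m, o' (s ∘ Equiv.swap j.castSucc j.succ) = - o' s)
    (π : Equiv.Perm (Fin (m + 1))) :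
    ∀ s : Fin (m + 1) → ℕ, o' (s ∘ π) = ((Equiv.Perm.sign π : ℤ) : ℝ) * o' s := by
  have hπ : π ∈ Submonoid.closure (Set.range fun i : Fin m => Equiv.swap i.castSucc i.succ) := by
    rw [Equiv.Perm.mclosure_swap_castSucc_succ]
    exact Submonoid.mem_top π
  induction hπ using Submonoid.closure_induction with
  | mem x hx =>
    obtain ⟨i, rfl⟩ := hx
    intro s
    rw [h s i, Equiv.Perm.sign_swap (Fin.castSucc_lt_succ (i := i)).ne]
    simp
  | one =>
    intro s
    simp
  | mul x y _ _ ihx ihy =>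
    intro s
    have e1 : s ∘ ⇑(x * y) = (s ∘ x) ∘ y := rfl
    rw [e1, ihy, ihx, Equiv.Perm.sign_mul]
    push_cast
    ring

/-- the function on sets -/
noncomputable def oR {n : ℕ} (o : (Fin n → ℕ) → ℝ) (t : Finset ℕ) : ℝ :=
  if h : t.card = n then o (t.orderEmbOfFin h) else 0

theorem oR_card {n : ℕ} {o : (Fin n → ℕ) → ℝ} {t : Finset ℕ} (h : oR o t ≠ 0) : t.card = n := by
  by_contra hc
  apply h
  unfold oR
  rw [dif_neg hc]

theorem img_emb {n : ℕ} {t : Finset ℕ} (h : t.card = n) :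
    Finset.univ.image (t.orderEmbOfFin h : Fin n → ℕ) = t := by
  apply Finset.coe_injective
  rw [Finset.coe_image, Finset.coe_univ, Set.image_univ, Finset.range_orderEmbOfFin]

theorem oR_insert {m : ℕ} {o' : (Fin (m + 1) → ℕ) → ℝ}
    (h : ∀ s, ∀ j : Fin m, o' (s ∘ Equiv.swap j.castSucc j.succ) = - o' s)
    {t : Finset ℕ} {a : ℕ} (ha : a ∉ t) (ht : t.card = m) :
    oR o' (insert a t) = sg a t * o' (Fin.cons a (t.orderEmbOfFin ht)) := by
  have hat : (insert a t).card = m + 1 := by
    rw [Finset.card_insert_of_notMem ha, ht]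
  obtain ⟨j, hj, he⟩ := h61_enum ha ht hat
  unfold oR
  rw [dif_pos hat, he]
  have e1 : j.insertNth (α := fun _ => ℕ) a (t.orderEmbOfFin ht) =
      (Fin.cons a (t.orderEmbOfFin ht) : Fin (m + 1) → ℕ) ∘ j.cycleRange :=
    (Fin.cons_comp_cycleRange a _ j).symm
  rw [e1, perm_adj h, Fin.sign_cycleRange]
  unfold sg
  rw [← hj]
  push_cast
  rfl

theorem cons_snoc {m : ℕ} {o' : (Fin (m + 1) → ℕ) → ℝ}
    (h : ∀ s, ∀ j : Fin m, o' (s ∘ Equiv.swap j.castSucc j.succ) = - o' s)
    (e : Fin m → ℕ) (a : ℕ) :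
    o' (Fin.snoc (α := fun _ => ℕ) e a) = (-1) ^ m * o' (Fin.cons a e) := by
  have e1 : (Fin.snoc (α := fun _ => ℕ) e a) =
      (Fin.cons a e : Fin (m + 1) → ℕ) ∘ (Fin.last m).cycleRange := by
    rw [Fin.cons_comp_cycleRange a e (Fin.last m), Fin.insertNth_last']
  rw [e1, perm_adj h, Fin.sign_cycleRange]
  push_cast
  rfl

theorem prf (h8a : RA.S_B8a) : S_TR2 := by
  intro L hf m hS o ho o' hsup halt hcyc
  have hcycle : ∀ e : Fin m → ℕ, ∑ a ∈ verts L, o' (Fin.cons a e) = 0 := by
    intro e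
    have h1 := hcyc (Fin.snoc (α := fun _ => ℕ) e 0)
    simp only [Fin.update_snoc_last] at h1
    rw [Finset.sum_congr rfl fun a _ => cons_snoc halt e a, ← Finset.mul_sum] at h1
    rcases mul_eq_zero.1 h1 with h2 | h2
    · exact absurd h2 (pow_ne_zero _ (by norm_num))
    · exact h2
  have hLk : ∀ u, oR o' u ≠ 0 → u ∈ L ∧ Disjoint (∅ : Finset ℕ) u ∧ ∅ ∪ u ∈ L ∧
      u.card = m + 1 := by
    intro u hu
    have hc := oR_card hu
    have h1 : u ∈ L := by
      unfold oR at hu
      rw [dif_pos hc] at hu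
      have := (hsup _ hu).2
      rwa [img_emb] at this
    exact ⟨h1, Finset.disjoint_empty_left _, by rwa [Finset.empty_union], hc⟩
  have hbd : bdN L ∅ (oR o') = 0 := by
    funext t
    unfold bdN
    rw [Finset.empty_union, Pi.zero_apply]
    by_cases hc : t.card = m
    swap
    · refine Finset.sum_eq_zero fun a ha => ?_
      have : oR o' (insert a t) = 0 := by
        by_contra h0
        have := oR_card h0
        rw [Finset.card_insert_of_notMem (Finset.mem_sdiff.1 ha).2] at this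
        omega
      rw [this, smul_zero]
    have h1 : ∀ a ∈ verts L \ t, sg a t • oR o' (insert a t) =
        o' (Fin.cons a (t.orderEmbOfFin hc)) := by
      intro a ha
      rw [oR_insert halt (Finset.mem_sdiff.1 ha).2 hc, smul_eq_mul, ← mul_assoc, sg_sq, one_mul]
    rw [Finset.sum_congr rfl h1, ← hcycle (t.orderEmbOfFin hc)]
    refine Finset.sum_subset Finset.sdiff_subset ?_
    intro a haL ha
    have hat : a ∈ t := by
      by_contra h
      exact ha (Finset.mem_sdiff.2 ⟨haL, h⟩)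
    have h3 : a ∈ Set.range (t.orderEmbOfFin hc) := by
      rw [Finset.range_orderEmbOfFin]
      exact Finset.mem_coe.2 hat
    obtain ⟨i, hi⟩ := h3
    by_contra h4
    have h5 := (hsup _ h4).1
    have h6 : (0 : Fin (m + 1)) = i.succ := by
      apply h5
      rw [Fin.cons_zero, Fin.cons_succ, hi]
    exact (Fin.succ_ne_zero i) h6.symm
  have hempty : ∅ ∈ L := (hf ∅).2 (by simp)
  obtain ⟨y, -, hy⟩ := itemB8c h8a L hf (m + 1) hS o ho ℝ ⊤ ∅ hempty (m + 1) (by simp)
    (oR o') (fun u => ⟨hLk u, Submodule.mem_top⟩) hbd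
  refine ⟨y, fun s => ?_⟩
  have hoL : ∀ u, oR o' u = oF o u * y := by
    intro u
    rw [hy u]
    unfold oLk sgg
    simp
  by_cases hs : Function.Injective s
  swap
  · have h1 : o' s = 0 := by
      by_contra h
      exact hs (hsup s h).1
    have h2 : o s = 0 := by
      unfold Function.Injective at hs
      push Not at hs
      obtain ⟨i, j, hij, hne⟩ := hs
      exact h61_noninj ho.1 s hne hij
    rw [h1, h2]
    simp
  · set t : Finset ℕ := Finset.univ.image s with ht
    have hc : t.card = m + 1 := by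
      rw [ht, Finset.card_image_of_injective _ hs, Finset.card_univ, Fintype.card_fin]
    set σ := Tuple.sort s with hσ
    have he : s ∘ σ = t.orderEmbOfFin hc := by
      refine Finset.orderEmbOfFin_unique hc ?_ ?_
      · intro i
        rw [ht]
        exact Finset.mem_image_of_mem s (Finset.mem_univ _)
      · exact (Tuple.monotone_sort s).strictMono_of_injective (hs.comp σ.injective)
    have h1 := hoL t
    unfold oR oF at h1
    rw [dif_pos hc, dif_pos hc, ← he, perm_adj halt, h61_perm ho.1] at h1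
    push_cast at h1
    have h2 : (((Equiv.Perm.sign σ : ℤ) : ℝ)) * ((Equiv.Perm.sign σ : ℤ) : ℝ) = 1 := by
      rcases Int.units_eq_one_or (Equiv.Perm.sign σ) with h | h <;> rw [h] <;> norm_num
    calc o' s = (((Equiv.Perm.sign σ : ℤ) : ℝ) * ((Equiv.Perm.sign σ : ℤ) : ℝ)) * o' s := by
          rw [h2, one_mul]
      _ = ((Equiv.Perm.sign σ : ℤ) : ℝ) * (((Equiv.Perm.sign σ : ℤ) : ℝ) * o' s) := by ring
      _ = ((Equiv.Perm.sign σ : ℤ) : ℝ) * (((Equiv.Perm.sign σ : ℤ) : ℝ) * (o s : ℝ) * y) := by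
          rw [h1]
      _ = (((Equiv.Perm.sign σ : ℤ) : ℝ) * ((Equiv.Perm.sign σ : ℤ) : ℝ)) * (y * (o s : ℝ)) := by
          ring
      _ = y * (o s : ℝ) := by rw [h2, one_mul]

end MP8a95ee.Npc.TR2P
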