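import Pool.Agent.Work.MP_8a95ee_gt.Fb.Stmts
import Pool.Agent.Work.MP_8a95ee_gt.Npc.ZC4

/-!
# Item TR3: compatible families of top dimensional cycles of the links (helper29)
-/

set_option autoImplicit false

namespace MP8a95ee.Npc.TR3P

open Classical

theorem swap_Dom {X : SimpleGraph ℕ} {m v : ℕ} {s : Fin (m + 1) → ℕ} (hs : s ∈ Dom X (m + 1) v)
    (j : Fin m) : s ∘ Equiv.swap j.castSucc j.succ ∈ Dom X (m + 1) v := by
  rw [ZC4.mem_Dom] at hs ⊢
  refine ⟨hs.1.comp (Equiv.injective _), ?_⟩
  have h : Finset.univ.image (s ∘ Equiv.swap j.castSucc j.succ) = Finset.univ.image s := by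
    ext a
    simp only [Finset.mem_image, Finset.mem_univ, true_and, Function.comp]
    constructor
    · rintro ⟨i, hi⟩
      exact ⟨_, hi⟩
    · rintro ⟨i, hi⟩
      exact ⟨Equiv.swap j.castSucc j.succ i, by rw [Equiv.swap_apply_self]; exact hi⟩
  rw [h]
  exact hs.2

theorem swap_Dom_iff {X : SimpleGraph ℕ} {m v : ℕ} {s : Fin (m + 1) → ℕ}
    (j : Fin m) : s ∘ Equiv.swap j.castSucc j.succ ∈ Dom X (m + 1) v ↔ s ∈ Dom X (m + 1) v := by
  constructor
  · intro h
    have h2 := swap_Dom h j
    have h3 : (s ∘ Equiv.swap j.castSucc j.succ) ∘ Equiv.swap j.castSucc j.succ = s := by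
      funext i
      simp only [Function.comp, Equiv.swap_apply_self]
    rwa [h3] at h2
  · exact fun h => swap_Dom h j

/-- a face of the link with a given vertex, as an ordered tuple which starts with this vertex -/
theorem exists_tuple {t : Finset ℕ} {m a : ℕ} (ha : a ∈ t) (ht : t.card = m + 1) :
    ∃ s : Fin (m + 1) → ℕ, Function.Injective s ∧ Finset.univ.image s = t ∧ s 0 = a := by
  have hc : (t.erase a).card = m := by
    rw [Finset.card_erase_of_mem ha, ht]
    rfl
  have hmem : ∀ j, (t.erase a).orderEmbOfFin hc j ∈ t.erase a := fun j =>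
    Finset.orderEmbOfFin_mem _ hc j
  refine ⟨Fin.cons a ((t.erase a).orderEmbOfFin hc), ?_, ?_, Fin.cons_zero _ _⟩
  · rw [Fin.cons_injective_iff]
    refine ⟨?_, ((t.erase a).orderEmbOfFin hc).injective⟩
    rintro ⟨j, hj⟩
    have h := hmem j
    rw [hj] at h
    exact (Finset.notMem_erase a t) h
  · ext b
    simp only [Finset.mem_image, Finset.mem_univ, true_and]
    constructor
    · rintro ⟨i, rfl⟩
      refine Fin.cases ?_ (fun j => ?_) i
      · rw [Fin.cons_zero]
        exact ha
      · rw [Fin.cons_succ]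
        exact Finset.mem_of_mem_erase (hmem j)
    · intro hb
      by_cases hba : b = a
      · exact ⟨0, by rw [Fin.cons_zero, hba]⟩
      · have h1 : b ∈ t.erase a := Finset.mem_erase.2 ⟨hba, hb⟩
        have h2 : b ∈ Set.range ((t.erase a).orderEmbOfFin hc) := by
          rw [Finset.range_orderEmbOfFin]
          exact h1
        obtain ⟨j, hj⟩ := h2
        exact ⟨j.succ, by rw [Fin.cons_succ, hj]⟩

theorem prf (hTR2 : S_TR2) (hZC6 : S_ZC6) (hB8a : RA.S_B8a) : S_TR3 := by
  intro X hX hF m hL o ho o' h1 h2 h3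
  -- the factor at every vertex
  have key : ∀ v, ∃ w : ℝ, ∀ s ∈ Dom X (m + 1) v, o' v s = w * o v s := by
    intro v
    obtain ⟨hfl, hv, -⟩ := (hZC6 X hX hF).1 v
    have g1 : ∀ s, (if s ∈ Dom X (m + 1) v then o' v s else 0) ≠ 0 →
        Function.Injective s ∧ Finset.univ.image s ∈ link X v := by
      intro s hs
      by_cases hd : s ∈ Dom X (m + 1) v
      · exact ZC4.mem_Dom.1 hd
      · rw [if_neg hd] at hs
        exact absurd rfl hs
    have g2 : ∀ s, ∀ j : Fin m,
        (if s ∘ Equiv.swap j.castSucc j.succ ∈ Dom X (m + 1) v then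
          o' v (s ∘ Equiv.swap j.castSucc j.succ) else 0) =
        - (if s ∈ Dom X (m + 1) v then o' v s else 0) := by
      intro s j
      by_cases hd : s ∈ Dom X (m + 1) v
      · rw [if_pos hd, if_pos (swap_Dom hd j)]
        exact h1 v s hd j
      · have hd' : ¬ (s ∘ Equiv.swap j.castSucc j.succ ∈ Dom X (m + 1) v) := fun h =>
          hd ((swap_Dom_iff j).1 h)
        rw [if_neg hd, if_neg hd', neg_zero]
    have g3 : ∀ s : Fin (m + 1) → ℕ, ∑ a ∈ verts (link X v),
        (if Function.update s (Fin.last m) a ∈ Dom X (m + 1) v then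
          o' v (Function.update s (Fin.last m) a) else 0) = 0 := by
      intro s
      rw [hv]
      by_cases hex : ∃ a0, Function.update s (Fin.last m) a0 ∈ Dom X (m + 1) v
      · obtain ⟨a0, ha0⟩ := hex
        have h := h3 v _ ha0
        simp only [Function.update_idem] at h
        rw [Finset.sum_filter] at h
        exact h
      · push Not at hex
        refine Finset.sum_eq_zero fun a _ => ?_
        exact if_neg (hex a)
    obtain ⟨w, hw⟩ := hTR2 (link X v) hfl m (hL v) (o v) ((hZC6 X hX hF).2 ⊥ (m + 1) o ho v)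
      (fun s => if s ∈ Dom X (m + 1) v then o' v s else 0) g1 g2 g3
    refine ⟨w, fun s hs => ?_⟩
    have h := hw s
    rw [if_pos hs] at h
    exact h
  choose w hw using key
  -- adjacent vertices
  have hadj : ∀ v a, X.Adj v a → w v = w a := by
    intro v a hva
    obtain ⟨hfl, hv, -⟩ := (hZC6 X hX hF).1 v
    have hsing : ({a} : Finset ℕ) ∈ link X v := by
      rw [mem_link]
      refine ⟨Finset.singleton_subset_iff.2 ((mem_nbr hF).2 hva), ?_⟩
      intro b hb c hc hbc
      rw [Finset.mem_singleton] at hb hc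
      exact absurd (hb.trans hc.symm) hbc
    obtain ⟨-, t, htL, hat, htc⟩ := hB8a (link X v) hfl (m + 1) (hL v) {a} hsing
    obtain ⟨s, hsi, hst, hs0⟩ := exists_tuple (Finset.singleton_subset_iff.1 hat) htc
    have hsD : s ∈ Dom X (m + 1) v := ZC4.mem_Dom.2 ⟨hsi, by rw [hst]; exact htL⟩
    have e1 := h2 v s hsD
    have e2 := ho.flip v s 0 hsi (by rw [hst]; exact htL)
    have hne : o v s ≠ 0 := ho.full v s hsi (by rw [hst]; exact htL)
    rw [hs0] at e1 e2
    set s'' : Fin (m + 1) → ℕ := fun j => if j = 0 then v else corner X v {a, s j} with hs''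
    have hne' : o a s'' ≠ 0 := by
      rw [e2]
      exact neg_ne_zero.2 hne
    have hs''D : s'' ∈ Dom X (m + 1) a := by
      rw [ZC4.mem_Dom]
      refine ⟨?_, ho.supp a s'' hne'⟩
      by_contra hc
      exact hne' (ZC4.o_eq_zero ho hc)
    have e3 := hw a s'' hs''D
    have e4 := hw v s hsD
    have e5 : (o a s'' : ℝ) = - (o v s : ℝ) := by
      rw [e2]
      push_cast
      rfl
    have hne'' : (o v s : ℝ) ≠ 0 := by exact_mod_cast hne
    rw [e1, e4, e5] at e3
    have e6 : w v * (o v s : ℝ) = w a * (o v s : ℝ) := by linarith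
    exact mul_right_cancel₀ hne'' e6
  have hconst : ∀ v, w v = w 0 := by
    intro v
    obtain ⟨p⟩ := hX.conn.preconnected v 0
    have hp : ∀ {x y : ℕ} (_ : X.Walk x y), w x = w y := by
      intro x y p
      induction p with
      | nil => rfl
      | cons h _ ih => exact (hadj _ _ h).trans ih
    exact hp p
  refine ⟨w 0, fun v s hs => ?_⟩
  rw [← hconst v]
  exact hw v s hs

end MP8a95ee.Npc.TR3P
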