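import Pool.Agent.Work.MP_8a95ee_gt.Fb.Stmts

/-!
# Item TRR: the relations between the fibre chains, for a functional which vanishes on boundaries
-/

set_option autoImplicit false

namespace MP8a95ee.Npc.TRRP

open Classical

/-- the cap product depends only on the values on the front parts of the translates -/
theorem CG_congr {G : Type} [Group G] {P : Type} [MulAction G P] {k b N : ℕ} (h : N = k + b)
    (a a' : (Fin (k + 1) → P) → ℝ) (e : RA.Ch P (N + 1))
    (H : ∀ p ∈ e.support, ∀ g : G, a (fun i => g • p ⟨i, by omega⟩) =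
      a' (fun i => g • p ⟨i, by omega⟩)) :
    CG G h a e = CG G h a' e := by
  unfold CG
  rw [Finsupp.linearCombination_apply, Finsupp.linearCombination_apply]
  apply Finsupp.sum_congr
  intro p hp
  congr 1
  unfold capG
  apply finsum_congr
  intro g
  rw [H p hp g]

/-- the support of the cap product -/
theorem CG_support {G : Type} [Group G] {P : Type} [MulAction G P] {k b N : ℕ} (h : N = k + b)
    (a : (Fin (k + 1) → P) → ℝ) (e : RA.Ch P (N + 1)) (K : Set (Fin (b + 1) → P))
    (H : ∀ p ∈ e.support, ∀ g : G, (fun j : Fin (b + 1) => g • p ⟨k + j, by omega⟩) ∈ K) :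
    ∀ p ∈ (CG G h a e).support, p ∈ K := by
  have key : CG G h a e ∈ Finsupp.supported ℝ ℝ K := by
    unfold CG
    rw [Finsupp.linearCombination_apply, Finsupp.sum]
    apply Submodule.sum_mem
    intro p hp
    apply Submodule.smul_mem
    unfold capG
    apply finsum_induction (fun x => x ∈ Finsupp.supported ℝ ℝ K)
    · exact Submodule.zero_mem _
    · intro x y hx hy
      exact Submodule.add_mem _ hx hy
    · intro g
      exact Finsupp.single_mem_supported ℝ _ (H p hp g)
  intro p hp
  exact key hp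

section

variable {X : SimpleGraph ℕ} {Γ : Subgroup (Equiv.Perm ℕ)} {A P : Type}
  [TopologicalSpace A] [MulAction Γ A] [PartialOrder P] [MulAction Γ P] {q : P → Finset ℕ}
  {S : ∀ k : ℕ, (Fin (k + 1) → P) → SSimplex A k}

/-- the cap product with a coboundary is a boundary -/
theorem key (hCG1 : S_CG1) (hRLZ : S_RLZ) (hT : IsTri X Γ q S) (m b N : ℕ)
    (h : N = (m + 1) + b) (e : RA.Ch P (N + 1)) (he : ∀ p ∈ e.support, StrictMono p)
    (hc : IsCyc Γ e) (l : SChain A b →ₗ[ℝ] ℝ) (hl : ∀ y : SChain A (b + 1), l (bd y) = 0)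
    (a : (Fin (m + 1) → P) → ℝ) (ha : LFn Γ a) :
    l (rlz S b (CG Γ h (fun p => RA.dl a p) e)) = 0 := by
  cases N with
  | zero => omega
  | succ N =>
    have hN : N = m + b := by omega
    have h1 := hCG1 Γ P m b N hN a ha e hc
    have h2 := hRLZ X Γ A P q S hT b
      (CG Γ (show N + 1 = m + (b + 1) by omega) a e)
      (CG_support _ a e {p | StrictMono p} (by
        intro p hp g i j hij
        apply hT.act
        apply he p hp
        rw [Fin.lt_def]
        simp only
        have : (i : ℕ) < (j : ℕ) := hij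
        omega))
    rw [h1, map_smul, ← h2, map_smul, hl, smul_zero]

end

theorem prf (hFCE : S_FCE) (hCG1 : S_CG1) (hCG2 : S_CG2) (hRLZ : S_RLZ) (hTA : S_TA)
    (hTB : S_TB) (hTC : S_TC) : S_TRR := by
  intro X hX hLF m hm Γ F hF A P _ _ _ _ q S hT b e he hc l hl v s hs
  obtain ⟨hlf, hfc⟩ := hFCE X hX hLF Γ F hF A P q S hT
  -- the front parts of the translates
  have hQ : ∀ p ∈ e.support, ∀ g : Γ,
      (∀ i : Fin (m + 2), IsCube X (q (g • p ⟨i, by omega⟩))) ∧
      Monotone fun i : Fin (m + 2) => q (g • p ⟨i, by omega⟩) := by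
    intro p hp g
    refine ⟨fun i => ?_, ?_⟩
    · obtain ⟨x, t, ht, hq⟩ := hT.cube (g • p ⟨i, by omega⟩)
      exact ⟨x, t, ht, hq⟩
    · apply monotone_iff_forall_lt.mpr
      intro i j hij
      apply hT.mono
      apply le_of_lt
      apply hT.act
      apply he p hp
      rw [Fin.lt_def]
      exact hij
  -- general relation
  have gen : ∀ (R : Fin (m + 1) → Finset ℕ) (ι : Type) (I : Finset ι) (ε : ℝ)
      (R' : ι → Fin (m + 2) → Finset ℕ),
      (∀ Q : Fin (m + 2) → Finset ℕ, (∀ i, IsCube X (Q i)) → Monotone Q →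
        RA.dl (ind R) Q = ∑ i ∈ I, ε * ind (R' i) Q) →
      ε * ∑ i ∈ I, l (rlz S b (CG Γ rfl (fun p => ind (R' i) fun j => q (p j)) e)) = 0 := by
    intro R ι I ε R' hR
    have h1 := key hCG1 hRLZ hT m b (m + 1 + b) rfl e he hc l hl
      (fun p => ind R fun i => q (p i)) (hlf m R)
    have h2 : CG Γ rfl (fun p => RA.dl (fun p : Fin (m + 1) → P => ind R fun i => q (p i)) p) e =
        CG Γ rfl (fun p : Fin (m + 2) → P => ∑ i ∈ I, ε * ind (R' i) fun j => q (p j)) e := by
      apply CG_congr
      intro p hp g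
      obtain ⟨hc1, hm1⟩ := hQ p hp g
      exact hR _ hc1 hm1
    rw [h2, hCG2 Γ P (m + 1) b (m + 1 + b) rfl ι I (fun _ => ε)
      (fun i p => ind (R' i) fun j => q (p j)) (fun i => hlf (m + 1) (R' i)) e] at h1
    simp only [map_sum, map_smul, smul_eq_mul] at h1
    rw [Finset.mul_sum]
    exact h1
  refine ⟨?_, ?_, ?_⟩
  · intro j
    have h1 := gen (fun l : Fin (m + 1) => flg X v s (j.succ.castSucc.succAbove l)) Bool
      Finset.univ ((-1 : ℝ) ^ ((j : ℕ) + 1))
      (fun i => if i then flg X v s else flg X v (s ∘ Equiv.swap j.castSucc j.succ)) (by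
        intro Q hQ1 hQ2
        rw [hTA X hX hLF m hm v s hs Q hQ1 hQ2 j]
        simp [mul_add])
    rw [mul_eq_zero] at h1
    rcases h1 with h1 | h1
    · exact absurd h1 (by positivity)
    · rw [hfc (m + 1) b e v s, hfc (m + 1) b e v (s ∘ Equiv.swap j.castSucc j.succ)]
      simp at h1
      linarith
  · have h1 := gen (fun l : Fin (m + 1) => flg X v s (Fin.succAbove 0 l)) Bool
      Finset.univ 1
      (fun i => if i then flg X v s else
        flg X (s 0) (fun j => if j = 0 then v else corner X v {s 0, s j})) (by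
        intro Q hQ1 hQ2
        rw [hTB X hX hLF m hm v s hs Q hQ1 hQ2]
        simp)
    rw [hfc (m + 1) b e v s, hfc (m + 1) b e (s 0) _]
    simp at h1
    linarith
  · have h1 := gen (fun l : Fin (m + 1) => flg X v s ((Fin.last (m + 1)).succAbove l)) ℕ
      ((nbr X v).filter (fun a => Function.update s (Fin.last m) a ∈ Dom X (m + 1) v))
      ((-1 : ℝ) ^ (m + 1))
      (fun a => flg X v (Function.update s (Fin.last m) a)) (by
        intro Q hQ1 hQ2
        rw [hTC X hX hLF m hm v s hs Q hQ1 hQ2, Finset.mul_sum])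
    rw [mul_eq_zero] at h1
    rcases h1 with h1 | h1
    · exact absurd h1 (pow_ne_zero _ (by norm_num))
    · rw [← h1]
      apply Finset.sum_congr rfl
      intro a _
      rw [hfc (m + 1) b e v _]

end MP8a95ee.Npc.TRRP
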