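import Pool.Agent.Work.MP_8a95ee_gt.Fb.Stmts

/-!
# Item VAL: the value of the chain map on the chain of `B` given by a chain of tuples
-/

set_option autoImplicit false

namespace MP8a95ee.Npc.VALP

open Classical

theorem sm1 {P : Type} [PartialOrder P] (p : Fin (0 + 1) → P) : StrictMono p := by
  intro i j hij
  rw [Fin.lt_def] at hij
  omega

theorem prf (hS : S_SDE) (h1 : S_FB1) : S_VAL := by
  intro X Γ A B P _ _ _ _ π hπ _ _ q S hT ρ hρ k b N h c hc e he
  have e1 : ∀ (g : Γ) (p : P),
      ρ (S 0 (fun _ => g • p) (vtx 0)) = g • ρ (S 0 (fun _ => p) (vtx 0)) := by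
    intro g p
    rw [← hρ]
    exact congrArg ρ (hT.equiS 0 (fun _ => p) (sm1 _) g (vtx 0))
  have e2 : LFn Γ (fun p : Fin (k + 1) → P => c fun i => ρ (S 0 (fun _ => p i) (vtx 0))) := by
    intro p
    have h2 := hc (fun i => ρ (S 0 (fun _ => p i) (vtx 0)))
    refine h2.subset ?_
    intro g hg
    simp only [Set.mem_ofPred_eq, e1] at hg ⊢
    exact hg
  refine ⟨e1, e2, ?_⟩
  set a : (Fin (k + 1) → P) → ℝ := fun p => c fun i => ρ (S 0 (fun _ => p i) (vtx 0)) with ha
  have key : ∀ p : Fin (N + 1) → P, StrictMono p →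
      fibS Γ π ρ h c (π.comp (S N p)) = rlz S b (capG Γ h a p) := by
    intro p hp
    rw [h1 Γ A B π hπ ρ hρ k b N h c hc (S N p)]
    have e3 : ∀ i : Fin (N + 1), S N p (vtx i) = S 0 (fun _ => p i) (vtx 0) := by
      intro i
      have h3 := hS X Γ A P q S hT 0 N (fun _ => i) (sm1 _) p hp (vtx 0)
      rw [← h3]
      congr 1
      exact (stdSimplex.map_vertex (S := ℝ) (fun _ : Fin (0 + 1) => i) 0).symm
    have e4 : ∀ g : Γ, S b (fun j : Fin (b + 1) => g • p ⟨k + j, by omega⟩) =
        bkS h (actS g (S N p)) := by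
      intro g
      ext1 t
      have h4 := hS X Γ A P q S hT b N (fun j : Fin (b + 1) => (⟨k + j, by omega⟩ : Fin (N + 1)))
        (fun i j hij => by
          rw [Fin.lt_def] at hij ⊢
          simpa using hij) p hp t
      rw [hT.equiS b (fun j : Fin (b + 1) => p ⟨k + j, by omega⟩)
        (fun i j hij => hp (by
          rw [Fin.lt_def] at hij ⊢
          simpa using hij)) g t, ← h4]
      rfl
    unfold capG
    have e5 : (Function.support fun g : Γ => Finsupp.single
        (fun j : Fin (b + 1) => g • p ⟨k + j, by omega⟩) (a fun i => g • p ⟨i, by omega⟩)).Finite := by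
      refine (e2 (fun i : Fin (k + 1) => p ⟨i, by omega⟩)).subset ?_
      intro g hg
      rw [Function.mem_support] at hg
      simp only [Set.mem_ofPred_eq]
      intro h0
      apply hg
      change Finsupp.single _ (a fun i : Fin (k + 1) => g • p ⟨i, by omega⟩) = 0
      rw [Finsupp.single_eq_zero]
      exact h0
    have e6 := (rlz S b).toAddMonoidHom.map_finsum e5
    have e7 : (rlz S b).toAddMonoidHom (∑ᶠ g : Γ, Finsupp.single
        (fun j : Fin (b + 1) => g • p ⟨k + j, by omega⟩) (a fun i => g • p ⟨i, by omega⟩)) =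
        rlz S b (∑ᶠ g : Γ, Finsupp.single
        (fun j : Fin (b + 1) => g • p ⟨k + j, by omega⟩) (a fun i => g • p ⟨i, by omega⟩)) := rfl
    rw [← e7, e6]
    refine finsum_congr fun g => ?_
    rw [LinearMap.toAddMonoidHom_coe]
    unfold rlz
    rw [Finsupp.linearCombination_single, Finsupp.smul_single, smul_eq_mul, mul_one, e4 g]
    congr 1
    rw [ha]
    dsimp only
    congr 1
    funext i
    rw [e1, e3]
  unfold FbL CG totC
  rw [Finsupp.linearCombination_apply, Finsupp.linearCombination_apply]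
  rw [Finsupp.sum_sum_index]
  · rw [Finsupp.sum, Finsupp.sum, map_sum]
    refine Finset.sum_congr rfl fun p hp => ?_
    rw [map_smul, ← key p (he p hp)]
    exact Finsupp.sum_single_index (zero_smul ℝ _)
  · intro _
    exact zero_smul _ _
  · intro _ _ _
    exact add_smul _ _ _

end MP8a95ee.Npc.VALP
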