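import Pool.Agent.Work.MP_8a95ee_gt.Un.All
import Pool.Agent.Work.MP_8a95ee_gt.Fb.Final
import Pool.Agent.Work.MP_8a95ee_gt.Fb.I_CG1
import Pool.Agent.Work.MP_8a95ee_gt.Fb.I_CG2
import Pool.Agent.Work.MP_8a95ee_gt.Fb.I_PRI
import Pool.Agent.Work.MP_8a95ee_gt.Fb.I_SDE
import Pool.Agent.Work.MP_8a95ee_gt.Fb.I_LFT
import Pool.Agent.Work.MP_8a95ee_gt.Fb.I_FB1
import Pool.Agent.Work.MP_8a95ee_gt.Fb.I_FB2
import Pool.Agent.Work.MP_8a95ee_gt.Fb.I_FB3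
import Pool.Agent.Work.MP_8a95ee_gt.Fb.I_VAL
import Pool.Agent.Work.MP_8a95ee_gt.Fb.I_CXB
import Pool.Agent.Work.MP_8a95ee_gt.Fb.I_NR1
import Pool.Agent.Work.MP_8a95ee_gt.Fb.I_NR2
import Pool.Agent.Work.MP_8a95ee_gt.Fb.I_NL1
import Pool.Agent.Work.MP_8a95ee_gt.Fb.I_STA
import Pool.Agent.Work.MP_8a95ee_gt.Fb.I_AVG
import Pool.Agent.Work.MP_8a95ee_gt.Fb.I_DLI
import Pool.Agent.Work.MP_8a95ee_gt.Fb.I_FL0
import Pool.Agent.Work.MP_8a95ee_gt.Fb.I_TA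
import Pool.Agent.Work.MP_8a95ee_gt.Fb.I_TB
import Pool.Agent.Work.MP_8a95ee_gt.Fb.I_TC
import Pool.Agent.Work.MP_8a95ee_gt.Fb.I_FCE
import Pool.Agent.Work.MP_8a95ee_gt.Fb.I_TRR
import Pool.Agent.Work.MP_8a95ee_gt.Fb.I_TR2
import Pool.Agent.Work.MP_8a95ee_gt.Fb.I_TR3
import Pool.Agent.Work.MP_8a95ee_gt.Fb.I_EVL
import Pool.Agent.Work.MP_8a95ee_gt.Fb.I_CHI

/-!
# Fibre bundles over nonpositively curved cubulated manifolds: all items
-/

set_option autoImplicit false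

namespace MP8a95ee.Npc

theorem allCG1 : S_CG1 := CG1P.prf

theorem allCG2 : S_CG2 := CG2P.prf

theorem allPRI : S_PRI := PRIP.prf

theorem allSDE : S_SDE := SDEP.prf

theorem allRLZ : S_RLZ := SDEP.prf2

theorem allLFT : S_LFT := LFTP.prf

theorem allRHO : S_RHO := LFTP.prf2

theorem allFB1 : S_FB1 := FB1P.prf allLFT

theorem allFB2 : S_FB2 := FB2P.prf allLFT allFB1

theorem allFB3 : S_FB3 := FB3P.prf allLFT allFB1

theorem allVAL : S_VAL := VALP.prf allSDE allFB1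

theorem allCXB : S_CXB := CXBP.prf allCU5 allPT3

theorem allNR1 : S_NR1 := NR1P.prf

theorem allNR2 : S_NR2 := NR2P.prf allNR1

theorem allNL1 : S_NL1 := NL1P.prf allNR2 RA.itemB7a

theorem allNLO : S_NLO := Fb.prfNLO allFLO allULO allNL1

theorem allFL0 : S_FL0 := FL0P.prf allCU1 allCU2 allCU3

theorem allAVG : S_AVG := AVGP.prf allMG5 allWA2 allWA3 allCU1 allCU2 allCU3 allCU4 allFL0

theorem allDLI : S_DLI := DLIP.prf

theorem allTA : S_TA := TAP.prf allCU1 allCU2 allCU3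

theorem allTB : S_TB := TBP.prf allCU1 allCU2 allCU3

theorem allTC : S_TC := TCP.prf allDLI allFL0 allCU1 allCU2

theorem allFCE : S_FCE := FCEP.prf allPT3

theorem allTRR : S_TRR := TRRP.prf allFCE allCG1 allCG2 allRLZ allTA allTB allTC

theorem allTR2 : S_TR2 := TR2P.prf RA.itemB8a

theorem allTR3 : S_TR3 := TR3P.prf allTR2 allZC6 RA.itemB8a

theorem allEVL : S_EVL := EVLP.prf allEV1 allZC1 allZC6

theorem allCHI : S_CHI := CHIP.prf allCU1 allPT3 allCU5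

theorem allFBM : S_FBM :=
  Fb.prfFBM allDIM allDBD allNLO allUFU allZC6 allCG1 allCG2 allPRI allRLZ allFCE allAVG allTRR
    allTR3 allEVL allRHO allFB2 allFB3 allVAL allCXB
    fun _ hL _ _ ho T hT i => ((P2.zeta_supp hL ho T hT).1 i).1

theorem allFinal : S_Final := Fb.prfFinal allFBM allCHI allDEG allZC5

end MP8a95ee.Npc
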