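import Pool.Agent.Work.MP_8a95ee_gt.Fb.Lin

/-!
# Fibre bundles: the value of the chain map of one vertex
-/

set_option autoImplicit false

namespace MP8a95ee.Npc.Fb

open Classical

section tuples

variable {G : Type} [Group G] {P : Type} [MulAction G P]

theorem finsum_ind {ι M : Type} [AddCommMonoid M] (p : M → Prop) (h0 : p 0)
    (hadd : ∀ x y, p x → p y → p (x + y)) (f : ι → M) (hf : ∀ i, p (f i)) : p (∑ᶠ i, f i) := by
  by_cases h : (Function.support f).Finite
  · rw [finsum_eq_sum f h]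
    exact Finset.sum_induction _ p hadd h0 fun i _ => hf i
  · rw [finsum_of_infinite_support h]
    exact h0

/-- all tuples of the chain are strictly monotone -/
def SM [PartialOrder P] {k : ℕ} (y : RA.Ch P k) : Prop := ∀ p ∈ y.support, StrictMono p

theorem SM_zero [PartialOrder P] {k : ℕ} : SM (0 : RA.Ch P k) := by
  intro p hp
  simp at hp

theorem SM_add [PartialOrder P] {k : ℕ} (x y : RA.Ch P k) (hx : SM x) (hy : SM y) :
    SM (x + y) := by
  intro p hp
  rcases Finset.mem_union.1 (Finsupp.support_add hp) with h | h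
  · exact hx p h
  · exact hy p h

theorem SM_smul [PartialOrder P] {k : ℕ} (r : ℝ) (x : RA.Ch P k) (hx : SM x) :
    SM (r • x) := fun p hp => hx p (Finsupp.support_smul hp)

theorem SM_CG [PartialOrder P] (hact : ∀ (g : G) (p p' : P), p < p' → g • p < g • p')
    {k b N : ℕ} (h : N = k + b) (a : (Fin (k + 1) → P) → ℝ) (e : RA.Ch P (N + 1)) (he : SM e) :
    SM (CG G h a e) := by
  unfold CG
  rw [Finsupp.linearCombination_apply]
  refine Finset.sum_induction _ SM (fun x y => SM_add x y) SM_zero fun p hp => ?_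
  refine SM_smul _ _ ?_
  refine finsum_ind SM SM_zero (fun x y => SM_add x y) _ fun g => ?_
  intro p' hp'
  have h1 := Finsupp.support_single_subset hp'
  rw [Finset.mem_singleton] at h1
  subst h1
  intro i j hij
  apply hact
  apply he p hp
  rw [Fin.lt_def] at hij ⊢
  simpa using hij

theorem CG_congr {k b N : ℕ} (h : N = k + b) (a a' : (Fin (k + 1) → P) → ℝ) (e : RA.Ch P (N + 1))
    (haa : ∀ p ∈ e.support, ∀ g : G, a (fun i => g • p ⟨i, by omega⟩) =
      a' fun i => g • p ⟨i, by omega⟩) : CG G h a e = CG G h a' e := by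
  unfold CG
  rw [Finsupp.linearCombination_apply, Finsupp.linearCombination_apply]
  refine Finsupp.sum_congr fun p hp => ?_
  congr 1
  unfold capG
  exact finsum_congr fun g => by rw [haa p hp g]

theorem CG1c (hCG : S_CG1) {k b M : ℕ} (hM : M = (k + 1) + b) (a : (Fin (k + 1) → P) → ℝ)
    (ha : LFn G a) (e : RA.Ch P (M + 1)) (he : IsCyc G e) [PartialOrder P]
    (hact : ∀ (g : G) (p p' : P), p < p' → g • p < g • p') (hSM : SM e) :
    ∃ y : RA.Ch P (b + 2), CG G hM (fun p => RA.dl a p) e = RA.bdT y ∧ SM y := by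
  obtain ⟨N, rfl⟩ : ∃ N, M = N + 1 := ⟨k + b, by omega⟩
  have hN : N = k + b := by omega
  refine ⟨(-1 : ℝ) ^ (k + 1) • CG G (show N + 1 = k + (b + 1) by omega) a e, ?_, ?_⟩
  · rw [map_smul]
    exact hCG G P k b N hN a ha e he
  · exact SM_smul _ _ (SM_CG hact _ a e hSM)

end tuples

theorem rA_mem (X : SimpleGraph ℕ) (x : ℕ) (A Q : Finset ℕ) (hQ : Q.Nonempty) :
    rA X x A Q ∈ Q := by
  unfold rA
  split_ifs with h
  · exact h.choose_spec.1
  · exact hQ.choose_spec

theorem cube_nonempty {X : SimpleGraph ℕ} {Q : Finset ℕ} (hQ : IsCube X Q) : Q.Nonempty := by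
  obtain ⟨x, s, hs, rfl⟩ := hQ
  unfold cubeSet
  exact ⟨_, Finset.mem_image_of_mem _ (Finset.mem_powerset.2 (Finset.empty_subset _))⟩

section core

variable {X : SimpleGraph ℕ} {Γ : Subgroup (Equiv.Perm ℕ)} {A P : Type} [TopologicalSpace A]
  [MulAction Γ A] [PartialOrder P] [MulAction Γ P] {q : P → Finset ℕ}
  {S : ∀ k : ℕ, (Fin (k + 1) → P) → SSimplex A k}

/-- the class does not depend on the rounding -/
theorem hom (hCG : S_CG1) (hCG2 : S_CG2) (hPRI : S_PRI) (hRLZ : S_RLZ) (hT : IsTri X Γ q S)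
    {m b : ℕ} (e : (Fin (m + 1 + b + 1) → P) →₀ ℝ) (he : ∀ p ∈ e.support, StrictMono p)
    (hcyc : IsCyc Γ e) (c : (Fin (m + 2) → ℕ) → ℝ) (hc : ∀ v : Fin (m + 3) → ℕ, RA.dl c v = 0)
    (hLF : LFn Γ c)
    (hLV : ∀ V : Finset ℕ, {g : Γ | ∃ v : Fin (m + 2) → ℕ, (∀ i, v i ∈ V) ∧
      c (fun i => g • v i) ≠ 0}.Finite)
    (r : P → ℕ) (hr : ∀ (g : Γ) (p : P), r (g • p) = g • r p)
    (r' : P → ℕ) (hr' : ∀ p, r' p ∈ q p)
    (l : SChain A b →ₗ[ℝ] ℝ) (hl : ∀ y : SChain A (b + 1), l (bd y) = 0) :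
    LFn Γ (fun p : Fin (m + 1 + 1) → P => c fun i => r' (p i)) ∧
    l (rlz S b (CG Γ (show m + 1 + b = (m + 1) + b from rfl)
      (fun p : Fin (m + 1 + 1) → P => c fun i => r' (p i)) e)) =
    l (rlz S b (CG Γ (show m + 1 + b = (m + 1) + b from rfl)
      (fun p : Fin (m + 1 + 1) → P => c fun i => r (p i)) e)) := by
  -- local finiteness
  have hg : ∀ (g : Γ) (p : P), ∃ v ∈ q p, r' (g • p) = g • v := by
    intro g p
    have h1 := hr' (g • p)
    rw [hT.equi, Finset.mem_image] at h1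
    obtain ⟨v, hv, hv'⟩ := h1
    exact ⟨v, hv, hv'.symm⟩
  have hL1 : LFn Γ (fun p : Fin (m + 1 + 1) → P => c fun i => r' (p i)) := by
    intro p
    refine (hLV (Finset.univ.biUnion fun i => q (p i))).subset ?_
    intro g hg'
    choose v hv hv' using fun i => hg g (p i)
    refine ⟨v, fun i => Finset.mem_biUnion.2 ⟨i, Finset.mem_univ _, hv i⟩, ?_⟩
    have h2 : (fun i => r' (g • p i)) = fun i => g • v i := funext hv'
    rw [← h2]
    exact hg'
  have hL2 : LFn Γ (fun p : Fin (m + 1 + 1) → P => c fun i => r (p i)) := by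
    intro p
    refine (hLF fun i => r (p i)).subset ?_
    intro g hg'
    have h2 : (fun i => r (g • p i)) = fun i => g • r (p i) := funext fun i => hr g (p i)
    show c (fun i => g • r (p i)) ≠ 0
    rw [← h2]
    exact hg'
  have hL3 : LFn Γ (prm (P := P) c r r') := by
    intro p
    refine (hLV (Finset.univ.biUnion fun i => insert (r (p i)) (q (p i)))).subset ?_
    intro g hg'
    have hg2 : prm c r r' (fun i => g • p i) ≠ 0 := hg'
    unfold prm at hg2
    obtain ⟨j, -, hj⟩ := Finset.exists_ne_zero_of_sum_ne_zero hg2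
    have hj2 := right_ne_zero_of_mul hj
    choose v hv hv' using fun i => hg g (p i)
    refine ⟨fun i => if i ≤ j.castSucc then r (p (j.predAbove i)) else v (j.predAbove i), ?_, ?_⟩
    · intro i
      refine Finset.mem_biUnion.2 ⟨j.predAbove i, Finset.mem_univ _, ?_⟩
      dsimp only
      split_ifs
      · exact Finset.mem_insert_self _ _
      · exact Finset.mem_insert_of_mem (hv _)
    · have h2 : (fun i : Fin (m + 2) => g • (if i ≤ j.castSucc then r (p (j.predAbove i))
          else v (j.predAbove i))) = fun i : Fin (m + 2) => if i ≤ j.castSucc then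
          r (g • p (j.predAbove i)) else r' (g • p (j.predAbove i)) := by
        funext i
        split_ifs
        · rw [hr]
        · rw [hv']
      rw [h2]
      exact hj2
  refine ⟨hL1, ?_⟩
  obtain ⟨y, hy, hySM⟩ := CG1c hCG (show m + 1 + b = (m + 1) + b from rfl) (prm (P := P) c r r')
    hL3 e hcyc hT.act he
  have h1 : (fun p : Fin (m + 1 + 1) → P => RA.dl (prm c r r') p) = fun p =>
      ∑ i ∈ (Finset.univ : Finset Bool), (fun t : Bool => if t then (1 : ℝ) else -1) i *
        (fun t : Bool => if t then (fun p : Fin (m + 1 + 1) → P => c fun i => r' (p i))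
          else fun p : Fin (m + 1 + 1) → P => c fun i => r (p i)) i p := by
    funext p
    rw [hPRI P m c hc r r' p]
    simp
    ring
  rw [h1, hCG2 Γ P (m + 1) b (m + 1 + b) rfl Bool Finset.univ _ _ (by
    intro i
    cases i
    · exact hL2
    · exact hL1) e] at hy
  have h2 := congrArg (fun y => l (rlz S b y)) hy
  simp only [Fintype.univ_bool, Finset.sum_insert (Finset.notMem_singleton.2 Bool.true_eq_false_eq_False),
    Finset.sum_singleton, map_add, map_smul, smul_eq_mul] at h2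
  rw [← hRLZ X Γ A P q S hT b y hySM, hl] at h2
  simp at h2
  linarith

/-- the value of a functional on the image of the fundamental chain -/
theorem value (hCG : S_CG1) (hCG2 : S_CG2) (hPRI : S_PRI) (hRLZ : S_RLZ) (hFCE : S_FCE)
    (hAVG : S_AVG) (hTRR : S_TRR) (hTR3 : S_TR3) (hEVL : S_EVL)
    (hX : IsMedianGraph X) (hf : LocFin X) {m : ℕ} (hS : ∀ x, RA.IsHSphere (link X x) (m + 1))
    (hd : ∀ x, ∀ s ∈ link X x, s.card ≤ m + 1) {F : Finset ℕ} (hD : IsDeck X Γ F)
    {o : ℕ → (Fin (m + 1) → ℕ) → ℤ} (ho : Oriented X ⊥ (m + 1) o) (ho1 : ∀ x s, |o x s| ≤ 1)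
    (hT : IsTri X Γ q S) {b : ℕ} (e : (Fin (m + 1 + b + 1) → P) →₀ ℝ)
    (he : ∀ p ∈ e.support, StrictMono p) (hcyc : IsCyc Γ e) (x : ℕ)
    (f : (Fin (m + 1) → Finset ℕ) → ℝ)
    (hK : ∀ T : Fin (m + 2) → Finset ℕ, KF (link X x) T → RA.dl f T = 0)
    (hn : ∀ T : Fin (m + 1) → Finset ℕ, (∀ i, T i ∈ link X x) → ∀ j : Fin m,
      T j.castSucc = T j.succ → f T = 0)
    (hc : ∀ v : Fin (m + 3) → ℕ, RA.dl (cx X f x) v = 0) (hLF : LFn Γ (cx X f x))
    (hLV : ∀ V : Finset ℕ, {g : Γ | ∃ v : Fin (m + 2) → ℕ, (∀ i, v i ∈ V) ∧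
      cx X f x (fun i => g • v i) ≠ 0}.Finite)
    (r : P → ℕ) (hr : ∀ (g : Γ) (p : P), r (g • p) = g • r p)
    (v : ℕ) (s : Fin (m + 1) → ℕ) (hs : s ∈ Dom X (m + 1) v)
    (l : SChain A b →ₗ[ℝ] ℝ) (hl : ∀ y : SChain A (b + 1), l (bd y) = 0) :
    (2 : ℝ) ^ m * l (rlz S b (CG Γ (show m + 1 + b = (m + 1) + b from rfl)
      (fun p : Fin (m + 1 + 1) → P => cx X f x fun i => r (p i)) e)) =
    (-1) ^ m * Finsupp.linearCombination ℝ f (RA.zeta (link X x) (o x)) * (o v s : ℝ) *
      l (fibC X Γ q S e v s) := by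
  set Lr := l (rlz S b (CG Γ (show m + 1 + b = (m + 1) + b from rfl)
      (fun p : Fin (m + 1 + 1) → P => cx X f x fun i => r (p i)) e)) with hLr
  -- the functional on the fibre chains
  obtain ⟨w, hw⟩ := hTR3 X hX hf m hS o ho (fun v s => l (fibC X Γ q S e v s))
    (fun v s hs j => (hTRR X hX hf m hd Γ F hD A P q S hT b e he hcyc l hl v s hs).1 j)
    (fun v s hs => (hTRR X hX hf m hd Γ F hD A P q S hT b e he hcyc l hl v s hs).2.1)
    (fun v s hs => (hTRR X hX hf m hd Γ F hD A P q S hT b e he hcyc l hl v s hs).2.2)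
  -- average over the roundings
  have hcube : ∀ p, IsCube X (q p) := hT.cube
  have h1 : ∀ B : Finset ℕ, _ := fun B => hom hCG hCG2 hPRI hRLZ hT e he hcyc (cx X f x) hc hLF hLV
    r hr (fun p => rA X x B (q p)) (fun p => rA_mem X x B _ (cube_nonempty (hcube p))) l hl
  have h2 : l (rlz S b (CG Γ (show m + 1 + b = (m + 1) + b from rfl)
      (fun p : Fin (m + 1 + 1) → P => ∑ B ∈ (nbr X x).powerset, (2 : ℝ) ^ (m + 1) *
        cx X f x fun i => rA X x B (q (p i))) e)) =
      2 ^ (m + 1) * (2 ^ (nbr X x).card * Lr) := by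
    rw [hCG2 Γ P (m + 1) b (m + 1 + b) rfl (Finset ℕ) (nbr X x).powerset
      (fun _ => (2 : ℝ) ^ (m + 1))
      (fun B (p : Fin (m + 1 + 1) → P) => cx X f x fun i => rA X x B (q (p i)))
      (fun B => (h1 B).1) e]
    rw [map_sum, map_sum]
    have h3 : ∀ B ∈ (nbr X x).powerset, l (rlz S b ((2 : ℝ) ^ (m + 1) •
        CG Γ (show m + 1 + b = (m + 1) + b from rfl)
        (fun p : Fin (m + 1 + 1) → P => cx X f x fun i => rA X x B (q (p i))) e)) =
        2 ^ (m + 1) * Lr := by
      intro B _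
      rw [map_smul, map_smul, smul_eq_mul, (h1 B).2]
    rw [Finset.sum_congr rfl h3, Finset.sum_const, Finset.card_powerset, nsmul_eq_mul]
    push_cast
    ring
  -- flags
  have h4 : CG Γ (show m + 1 + b = (m + 1) + b from rfl)
      (fun p : Fin (m + 1 + 1) → P => ∑ B ∈ (nbr X x).powerset, (2 : ℝ) ^ (m + 1) *
        cx X f x fun i => rA X x B (q (p i))) e =
      CG Γ (show m + 1 + b = (m + 1) + b from rfl)
      (fun p : Fin (m + 1 + 1) → P => ∑ t ∈ (star X x).sigma fun v => Dom X (m + 1) v,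
        (2 ^ (nbr X x).card * cx X f x fun i => corner X t.1 (Sp.pre t.2 i)) *
          ind (flg X t.1 t.2) fun i => q (p i)) e := by
    apply CG_congr
    intro p hp g
    have hmono : Monotone fun i : Fin (m + 1 + 1) => q (g • p ⟨i, by omega⟩) := by
      intro i j hij
      rcases hij.lt_or_eq with h | h
      · refine hT.mono _ _ (hT.act g _ _ (he p hp ?_)).le
        rw [Fin.lt_def] at h ⊢
        exact h
      · rw [h]
    rw [← Finset.mul_sum, hAVG X hX hf m hd x f hK hn (fun i => q (g • p ⟨i, by omega⟩))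
      (fun i => hcube _) hmono, Finset.mul_sum, Finset.sum_sigma]
    refine Finset.sum_congr rfl fun v _ => ?_
    rw [Finset.mul_sum]
    refine Finset.sum_congr rfl fun s _ => ?_
    by_cases h5 : ∀ i : Fin (m + 2), q (g • p ⟨i, by omega⟩) = cubeSet X v (Sp.pre s i)
    · have h6 : ind (flg X v s) (fun i : Fin (m + 1 + 1) => q (g • p ⟨i, by omega⟩)) = 1 :=
        if_pos (funext h5)
      rw [if_pos h5]
      show _ = _ * ind (flg X v s) (fun i : Fin (m + 1 + 1) => q (g • p ⟨i, by omega⟩))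
      rw [h6, mul_one]
    · have h6 : ind (flg X v s) (fun i : Fin (m + 1 + 1) => q (g • p ⟨i, by omega⟩)) = 0 :=
        if_neg (fun h6 => h5 fun i => congrFun h6 i)
      rw [if_neg h5]
      show _ = _ * ind (flg X v s) (fun i : Fin (m + 1 + 1) => q (g • p ⟨i, by omega⟩))
      rw [h6]
      ring
  rw [h4, hCG2 Γ P (m + 1) b (m + 1 + b) rfl (Sigma fun _ : ℕ => Fin (m + 1) → ℕ)
    ((star X x).sigma fun v => Dom X (m + 1) v)
    (fun t => 2 ^ (nbr X x).card * cx X f x fun i => corner X t.1 (Sp.pre t.2 i))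
    (fun t p => ind (flg X t.1 t.2) fun i => q (p i))
    (fun t => (hFCE X hX hf Γ F hD A P q S hT).1 _ _) e, map_sum, map_sum, Finset.sum_sigma] at h2
  have h7 : ∀ v ∈ star X x, ∀ s ∈ Dom X (m + 1) v, l (rlz S b ((2 ^ (nbr X x).card *
      cx X f x fun i => corner X v (Sp.pre s i)) • CG Γ (show m + 1 + b = (m + 1) + b from rfl)
        (fun p : Fin (m + 1 + 1) → P => ind (flg X v s) fun i => q (p i)) e)) =
      2 ^ (nbr X x).card * w * ((o v s : ℝ) * cx X f x fun i => corner X v (Sp.pre s i)) := by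
    intro v _ s hs
    rw [map_smul, map_smul, smul_eq_mul, ← (hFCE X hX hf Γ F hD A P q S hT).2 (m + 1) b e v s,
      hw v s hs]
    ring
  rw [Finset.sum_congr rfl fun v hv => Finset.sum_congr rfl (h7 v hv)] at h2
  have h8 : ∑ v ∈ star X x, ∑ s ∈ Dom X (m + 1) v, 2 ^ (nbr X x).card * w *
      ((o v s : ℝ) * cx X f x fun i => corner X v (Sp.pre s i)) =
      2 ^ (nbr X x).card * w * (2 * (-1) ^ m *
        Finsupp.linearCombination ℝ f (RA.zeta (link X x) (o x))) := by
    rw [← hEVL X hX hf m o ho x f hK, Finset.mul_sum]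
    refine Finset.sum_congr rfl fun v _ => ?_
    rw [Finset.mul_sum]
  rw [h8] at h2
  -- the sign
  have h9 : (o v s : ℝ) * (o v s : ℝ) = 1 := by
    have h10 : o v s ≠ 0 := by
      unfold Dom at hs
      rw [Finset.mem_filter] at hs
      exact ho.full v s hs.2.1 hs.2.2
    have h11 := ho1 v s
    have h12 : o v s = 1 ∨ o v s = -1 := by
      rw [abs_le] at h11
      omega
    rcases h12 with h | h <;> rw [h] <;> norm_num
  rw [hw v s hs]
  have h13 : (2 : ℝ) ^ (nbr X x).card ≠ 0 := by positivity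
  have h14 : (2 : ℝ) ^ m * Lr = w * (-1) ^ m *
      Finsupp.linearCombination ℝ f (RA.zeta (link X x) (o x)) := by
    apply mul_left_cancel₀ h13
    rw [pow_succ] at h2
    linarith
  rw [h14]
  linear_combination (-(w * (-1) ^ m *
    Finsupp.linearCombination ℝ f (RA.zeta (link X x) (o x)))) * h9

end core

end MP8a95ee.Npc.Fb
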