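import Pool.Agent.Work.MP_8a95ee_gt.Fb.Core

/-!
# Fibre bundles: the chain of the total space is a cycle
-/

set_option autoImplicit false

namespace MP8a95ee.Npc.Fb

open Classical

variable {X : SimpleGraph ℕ} {Γ : Subgroup (Equiv.Perm ℕ)} {A B P : Type} [TopologicalSpace A]
  [TopologicalSpace B] [MulAction Γ A] [PartialOrder P] [MulAction Γ P] {q : P → Finset ℕ}
  {S : ∀ k : ℕ, (Fin (k + 1) → P) → SSimplex A k}

/-- the chain of `B` given by a strictly monotone tuple -/
noncomputable def tS (π : C(A, B)) (S : ∀ k : ℕ, (Fin (k + 1) → P) → SSimplex A k) (N : ℕ)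
    (p : Fin (N + 1) → P) : SChain B N :=
  if StrictMono p then Finsupp.single (π.comp (S N p)) 1 else 0

theorem totC_eq (π : C(A, B)) {N : ℕ} (e : (Fin (N + 1) → P) →₀ ℝ)
    (he : ∀ p ∈ e.support, StrictMono p) :
    totC π S e = Finsupp.linearCombination ℝ (tS π S N) e := by
  unfold totC
  rw [Finsupp.linearCombination_apply]
  refine Finsupp.sum_congr fun p hp => ?_
  unfold tS
  rw [if_pos (he p hp), Finsupp.smul_single, smul_eq_mul, mul_one]

theorem bd_totC (π : C(A, B)) (hπ : IsReg Γ π) (hT : IsTri X Γ q S) {N : ℕ}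
    (e : (Fin (N + 1 + 1) → P) →₀ ℝ) (he : ∀ p ∈ e.support, StrictMono p) (hcyc : IsCyc Γ e) :
    bd (totC π S e) = 0 := by
  have h1 : ∀ e : (Fin (N + 1 + 1) → P) →₀ ℝ, (∀ p ∈ e.support, StrictMono p) →
      bd (totC π S e) = Finsupp.linearCombination ℝ (tS π S N) (RA.bdT e) := by
    intro e he
    rw [bd_eq]
    unfold totC RA.bdT
    rw [Finsupp.linearCombination_apply ℝ e, map_finsuppSum, map_finsuppSum]
    refine Finsupp.sum_congr fun p hp => ?_
    have hp' := he p hp
    unfold bdLin RA.bdT0
    rw [Finsupp.linearCombination_single, map_smul, map_sum]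
    congr 1
    refine Finset.sum_congr rfl fun i _ => ?_
    rw [Finsupp.linearCombination_single]
    have h2 : StrictMono fun j => p (i.succAbove j) :=
      hp'.comp (Fin.strictMono_succAbove i)
    unfold tS
    rw [if_pos h2, Finsupp.smul_single, smul_eq_mul, mul_one]
    congr 1
    have h3 := hT.face N p hp' i
    rw [← h3]
    rfl
  rw [h1 e he]
  -- the function is constant on the orbits
  have h4 : ∀ p p' : Fin (N + 1) → P, (orbP Γ P (N + 1)).r p p' → tS π S N p = tS π S N p' := by
    rintro p p' ⟨g, hg⟩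
    have hg' : p' = fun i => g • p i := funext fun i => (hg i).symm
    subst hg'
    unfold tS
    have h5 : StrictMono p ↔ StrictMono fun i => g • p i := by
      constructor
      · intro h i j hij
        exact hT.act g _ _ (h hij)
      · intro h i j hij
        have h6 := hT.act g⁻¹ _ _ (h hij)
        simpa using h6
    by_cases h7 : StrictMono p
    · rw [if_pos h7, if_pos (h5.1 h7)]
      congr 1
      ext t
      rw [ContinuousMap.comp_apply, ContinuousMap.comp_apply, hT.equiS N p h7 g t]
      exact (hπ.orb _ _).2 ⟨g, rfl⟩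
    · rw [if_neg h7, if_neg (fun h => h7 (h5.2 h))]
  have h8 : tS π S N = (Quotient.lift (s := orbP Γ P (N + 1)) (tS π S N) h4) ∘
      Quotient.mk (orbP Γ P (N + 1)) := rfl
  have h9 : Finsupp.mapDomain (Quotient.mk (orbP Γ P (N + 1))) (RA.bdT e) = 0 := hcyc
  rw [h8, ← Finsupp.linearCombination_mapDomain, h9, map_zero]

end MP8a95ee.Npc.Fb
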