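import Pool.Agent.Work.MP_8a95ee_gt.Npc.Stmts4

/-!
# Fibre bundles over nonpositively curved cubulated manifolds: definitions

`X` is the CAT(0) cube complex, `Γ` the group, `A → B` a regular covering with group `Γ` (the
pull-back to `B` of the universal covering of `Mfd X Γ`), `P` the partially ordered set of the
cells of a cell structure of `A`, `q` maps a cell to the smallest cube containing its image, and
`S` are the simplices of the barycentric subdivision.
-/

set_option autoImplicit false

namespace MP8a95ee.Npc

open Classical

/-- `π : A → B` is a regular covering with group `G`: a surjective covering map whose fibres are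
the orbits of the free action of `G` on `A` (by homeomorphisms). -/
structure IsReg (G : Type) [Group G] {A B : Type} [TopologicalSpace A] [TopologicalSpace B]
    [MulAction G A] (π : C(A, B)) : Prop where
  cov : IsCoveringMap π
  surj : Function.Surjective π
  orb : ∀ a a', π a = π a' ↔ ∃ g : G, g • a = a'
  free : ∀ (g : G) (a : A), g • a = a → g = 1

/-- `P` is a partially ordered set with an action of `Γ`, `q` is a monotone equivariant map from
`P` to the set of cubes of `X` (given by their sets of vertices), and `S k p` is, for every chain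
`p 0 < .. < p k` of `P`, a singular simplex of `A`, compatible with faces and with `Γ`: an
equivariant map from the geometric realisation of `P` to `A`. -/
structure IsTri (X : SimpleGraph ℕ) (Γ : Subgroup (Equiv.Perm ℕ)) {A P : Type}
    [TopologicalSpace A] [MulAction Γ A] [PartialOrder P] [MulAction Γ P] (q : P → Finset ℕ)
    (S : ∀ k : ℕ, (Fin (k + 1) → P) → SSimplex A k) : Prop where
  cube : ∀ p, ∃ x, ∃ s ∈ link X x, q p = cubeSet X x s
  mono : ∀ p p', p ≤ p' → q p ⊆ q p'
  equi : ∀ (g : Γ) (p : P), q (g • p) = (q p).image (g : Equiv.Perm ℕ)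
  act : ∀ (g : Γ) (p p' : P), p < p' → g • p < g • p'
  face : ∀ (k : ℕ) (p : Fin (k + 2) → P), StrictMono p → ∀ i : Fin (k + 2),
    face (S (k + 1) p) i = S k fun j => p (i.succAbove j)
  equiS : ∀ (k : ℕ) (p : Fin (k + 1) → P), StrictMono p → ∀ (g : Γ) (t : _),
    S k (fun i => g • p i) t = g • S k p t

/-- Two tuples of elements of `P` are equivalent if an element of the group maps one to the
other. -/
def orbP (G : Type) [Group G] (P : Type) [MulAction G P] (k : ℕ) : Setoid (Fin k → P) where
  r p p' := ∃ g : G, ∀ i, g • p i = p' i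
  iseqv :=
    { refl := fun _ => ⟨1, fun _ => one_smul _ _⟩
      symm := fun {p p'} ⟨g, h⟩ => ⟨g⁻¹, fun i => by rw [← h i, inv_smul_smul]⟩
      trans := fun {p p' p''} ⟨g, h⟩ ⟨g', h'⟩ => ⟨g' * g, fun i => by rw [mul_smul, h, h']⟩ }

/-- `e` is a cycle modulo the group: its image in the chains of orbits has boundary zero. -/
def IsCyc (G : Type) [Group G] {P : Type} [MulAction G P] {N : ℕ}
    (e : (Fin (N + 1) → P) →₀ ℝ) : Prop :=
  Finsupp.mapDomain (Quotient.mk (orbP G P N)) (RA.bdT e) = 0

/-- The singular chain of `B` given by `e`. -/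
noncomputable def totC {A B P : Type} [TopologicalSpace A] [TopologicalSpace B] (π : C(A, B))
    (S : ∀ k : ℕ, (Fin (k + 1) → P) → SSimplex A k) {N : ℕ} (e : (Fin (N + 1) → P) →₀ ℝ) :
    SChain B N :=
  e.sum fun p r => Finsupp.single (π.comp (S N p)) r

/-- The fibre over the barycentre of a top dimensional cube, computed with a complete flag: the
cube with corner `x` and directions `s 0, .., s (n - 1)`, and its faces with corner `x` and
directions `s 0, .., s (i - 1)`.  It is the sum over all translates `g • p` of the simplices `p`
of `e` whose vertex `i` lies over the `i`-th cube of the flag, for `i = 0, .., n`, of the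
simplices spanned by the vertices `n, .., n + b`. -/
noncomputable def fibC (X : SimpleGraph ℕ) (Γ : Subgroup (Equiv.Perm ℕ)) {A P : Type}
    [TopologicalSpace A] [MulAction Γ P] (q : P → Finset ℕ)
    (S : ∀ k : ℕ, (Fin (k + 1) → P) → SSimplex A k) {n b : ℕ} (e : (Fin (n + b + 1) → P) →₀ ℝ)
    (x : ℕ) (s : Fin n → ℕ) : SChain A b :=
  e.sum fun p r => ∑ᶠ g : Γ, Finsupp.single
    (S b fun j => g • p ⟨n + j, by omega⟩)
    (if ∀ i : Fin (n + 1), q (g • p ⟨i, by omega⟩) = cubeSet X x (Sp.pre s i) then r else 0)

end MP8a95ee.Npc
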