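import Pool.Agent.Work.MP_8a95ee_gt.Fb.Lin

/-!
# FB3: the bound of the chain map
-/

set_option autoImplicit false

namespace MP8a95ee.Npc.FB3P

open Classical MP8a95ee.Npc.Fb

theorem l1_zero {A : Type} [TopologicalSpace A] {n : ℕ} : l1 (0 : SChain A n) = 0 := by
  unfold l1
  simp

theorem l1_sum_le {A : Type} [TopologicalSpace A] {n : ℕ} {ι : Type*} (s : Finset ι)
    (f : ι → SChain A n) : l1 (∑ i ∈ s, f i) ≤ ∑ i ∈ s, l1 (f i) := by
  classical
  induction s using Finset.induction_on with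
  | empty => simp [l1_zero]
  | insert a s ha ih =>
    rw [Finset.sum_insert ha, Finset.sum_insert ha]
    exact (l1_add_le _ _).trans (by linarith)

theorem prf (hL : S_LFT) (h1 : S_FB1) : S_FB3 := by
  intro Γ A B _ _ _ _ π hπ ρ hρ k b N h F c hc K hK z
  have hK0 : 0 ≤ K := by
    refine le_trans ?_ (hK fun _ => 0)
    refine Finset.sum_nonneg fun x _ => ?_
    exact finsum_nonneg fun g => abs_nonneg _
  -- one simplex
  have key : ∀ σ : SSimplex B N, ∑ x ∈ F, l1 (fibS Γ π ρ h (c x) σ) ≤ K := by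
    intro σ
    obtain ⟨τ, rfl⟩ := (hL Γ A B π hπ N).1 σ
    refine le_trans ?_ (hK fun i : Fin (k + 1) => ρ (τ (vtx ⟨i, by omega⟩)))
    refine Finset.sum_le_sum fun x _ => ?_
    rw [h1 Γ A B π hπ ρ hρ k b N h (c x) (hc x) τ]
    have hfin := hc x fun i : Fin (k + 1) => ρ (τ (vtx ⟨i, by omega⟩))
    rw [finsum_eq_sum_of_support_subset (s := hfin.toFinset),
      finsum_eq_sum_of_support_subset (s := hfin.toFinset)]
    · refine (l1_sum_le _ _).trans (Finset.sum_le_sum fun g _ => ?_)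
      rw [l1_single]
    · intro g hg
      rw [Set.Finite.coe_toFinset]
      intro h0
      exact hg (by dsimp only; rw [h0, abs_zero])
    · intro g hg
      rw [Set.Finite.coe_toFinset]
      intro h0
      exact hg (by dsimp only; rw [h0, Finsupp.single_zero])
  have h2 : ∀ x, l1 (FbL Γ π ρ h (c x) z) ≤
      ∑ σ ∈ z.support, |z σ| * l1 (fibS Γ π ρ h (c x) σ) := by
    intro x
    unfold FbL
    rw [Finsupp.linearCombination_apply]
    unfold Finsupp.sum
    refine (l1_sum_le _ _).trans (Finset.sum_le_sum fun σ _ => ?_)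
    rw [l1_smul]
  calc ∑ x ∈ F, l1 (FbL Γ π ρ h (c x) z)
      ≤ ∑ x ∈ F, ∑ σ ∈ z.support, |z σ| * l1 (fibS Γ π ρ h (c x) σ) :=
        Finset.sum_le_sum fun x _ => h2 x
    _ = ∑ σ ∈ z.support, |z σ| * ∑ x ∈ F, l1 (fibS Γ π ρ h (c x) σ) := by
        rw [Finset.sum_comm]
        refine Finset.sum_congr rfl fun σ _ => ?_
        rw [Finset.mul_sum]
    _ ≤ ∑ σ ∈ z.support, |z σ| * K :=
        Finset.sum_le_sum fun σ _ => mul_le_mul_of_nonneg_left (key σ) (abs_nonneg _)
    _ = K * l1 z := by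
        rw [← Finset.sum_mul, mul_comm]
        rfl

end MP8a95ee.Npc.FB3P
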