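import Pool.Agent.Work.MP_8a95ee_gt.Fb.Stmts
import Pool.Agent.Work.MP_8a95ee_gt.Fb.I_FL0
import Pool.Agent.Work.MP_8a95ee_gt.Fb.I_DLI

/-!
# Item TA: flags with a missing cube, neither the vertex nor the top cube
-/

set_option autoImplicit false

namespace MP8a95ee.Npc.TAP

open Classical

variable {X : SimpleGraph ℕ}

/-- an entry in a block is an entry of the other tuple in the same block -/
theorem block {n : ℕ} {s t : Fin n → ℕ} (hs : Function.Injective s) {lo hi : ℕ}
    (h1 : Sp.pre s lo = Sp.pre t lo) (h2 : Sp.pre s hi = Sp.pre t hi) (i : Fin n)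
    (hlo : lo ≤ (i : ℕ)) (hhi : (i : ℕ) < hi) :
    ∃ l : Fin n, lo ≤ (l : ℕ) ∧ (l : ℕ) < hi ∧ t l = s i := by
  have h3 : s i ∈ Sp.pre t hi := by
    rw [← h2, Sp.mem_pre]
    exact ⟨i, hhi, rfl⟩
  have h4 : s i ∉ Sp.pre t lo := by
    rw [← h1, Sp.mem_pre]
    rintro ⟨l, hl, he⟩
    have h5 := hs he
    subst h5
    omega
  rw [Sp.mem_pre] at h3 h4
  obtain ⟨l, hl, he⟩ := h3
  refine ⟨l, ?_, hl, he⟩
  by_contra hlt
  exact h4 ⟨l, by omega, he⟩

/-- two tuples whose initial sets agree except for one -/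
theorem eq_or_swap {n : ℕ} {s t : Fin n → ℕ} (hs : Function.Injective s) (p q : Fin n)
    (hpq : (q : ℕ) = (p : ℕ) + 1)
    (h : ∀ k : ℕ, k ≤ n → k ≠ (q : ℕ) → Sp.pre s k = Sp.pre t k) :
    t = s ∨ t = s ∘ Equiv.swap p q := by
  have hne : p ≠ q := by
    intro e
    subst e
    omega
  have hp := p.2
  have hq := q.2
  have h1 : ∀ i : Fin n, i ≠ p → i ≠ q → t i = s i := by
    intro i hi hi'
    have hip : (i : ℕ) ≠ (p : ℕ) := fun e => hi (Fin.ext e)
    have hiq : (i : ℕ) ≠ (q : ℕ) := fun e => hi' (Fin.ext e)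
    have hin := i.2
    obtain ⟨l, hl1, hl2, hl3⟩ := block hs (h (i : ℕ) (by omega) hiq)
      (h ((i : ℕ) + 1) (by omega) (by omega)) i (le_refl _) (Nat.lt_succ_self _)
    have hli : l = i := Fin.ext (by omega)
    rw [← hl3, hli]
  have hb : ∀ i : Fin n, (i = p ∨ i = q) → s i = t p ∨ s i = t q := by
    intro i hi
    have hi1 : (p : ℕ) ≤ (i : ℕ) := by
      rcases hi with rfl | rfl
      · exact le_refl _
      · omega
    have hi2 : (i : ℕ) < (q : ℕ) + 1 := by
      rcases hi with rfl | rfl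
      · omega
      · omega
    obtain ⟨l, hl1, hl2, hl3⟩ := block hs (h (p : ℕ) (by omega) (by omega))
      (h ((q : ℕ) + 1) (by omega) (by omega)) i hi1 hi2
    have hl : l = p ∨ l = q := by
      by_cases hlp : (l : ℕ) = (p : ℕ)
      · exact Or.inl (Fin.ext hlp)
      · exact Or.inr (Fin.ext (by omega))
    rcases hl with rfl | rfl
    · exact Or.inl hl3.symm
    · exact Or.inr hl3.symm
  have hsne : s p ≠ s q := fun e => hne (hs e)
  rcases hb p (Or.inl rfl) with e1 | e1
  · left
    have e2 : s q = t q := by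
      rcases hb q (Or.inr rfl) with e2 | e2
      · exact absurd (e1.trans e2.symm) hsne
      · exact e2
    funext i
    by_cases hi : i = p
    · rw [hi, e1]
    · by_cases hi' : i = q
      · rw [hi', e2]
      · exact h1 i hi hi'
  · right
    have e2 : s q = t p := by
      rcases hb q (Or.inr rfl) with e2 | e2
      · exact e2
      · exact absurd (e1.trans e2.symm) hsne
    funext i
    rw [Function.comp]
    by_cases hi : i = p
    · rw [hi, Equiv.swap_apply_left, e2]
    · by_cases hi' : i = q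
      · rw [hi', Equiv.swap_apply_right, e1]
      · rw [Equiv.swap_apply_of_ne_of_ne hi hi']
        exact h1 i hi hi'

/-- the vertex of a flag -/
theorem flg_zero (h1 : S_CU1) (hX : IsMedianGraph X) (hL : LocFin X) {m u : ℕ}
    {r : Fin (m + 1) → ℕ} (hr : r ∈ Dom X (m + 1) u) : flg X u r 0 = {u} := by
  unfold flg
  have e : ((0 : Fin (m + 1 + 1)) : ℕ) = 0 := rfl
  rw [e, Sp.pre_zero]
  unfold cubeSet
  rw [Finset.powerset_empty, Finset.image_singleton,
    (h1 X hX hL u _ (FL0P.pre_link hr 0)).1]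

/-- the swapped directions -/
theorem dom_swap {m v : ℕ} {s : Fin (m + 1) → ℕ} (hs : s ∈ Dom X (m + 1) v)
    (p q : Fin (m + 1)) : s ∘ Equiv.swap p q ∈ Dom X (m + 1) v := by
  have h := hs
  unfold Dom at h ⊢
  rw [Finset.mem_filter, Fintype.mem_piFinset] at h ⊢
  refine ⟨fun i => h.1 _, h.2.1.comp (Equiv.swap p q).injective, ?_⟩
  refine link_mono h.2.2 ?_
  intro a ha
  rw [Finset.mem_image] at ha ⊢
  obtain ⟨i, -, rfl⟩ := ha
  exact ⟨_, Finset.mem_univ _, rfl⟩

/-- flags with the given cubes -/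
theorem flags (h1 : S_CU1) (h2 : S_CU2) (h3 : S_CU3) (hX : IsMedianGraph X) (hL : LocFin X)
    {m : ℕ} (hm : ∀ x, ∀ s ∈ link X x, s.card ≤ m + 1) {v : ℕ} {s : Fin (m + 1) → ℕ}
    (hs : s ∈ Dom X (m + 1) v) {Q : Fin (m + 2) → Finset ℕ} (hQ : ∀ i, IsCube X (Q i))
    (hmono : Monotone Q) (hinj : Function.Injective Q) (j : Fin m) (l : Fin (m + 2))
    (hl : (fun i => Q (l.succAbove i)) =
      fun l : Fin (m + 1) => flg X v s (j.succ.castSucc.succAbove l)) :
    Q = flg X v s ∨ Q = flg X v (s ∘ Equiv.swap j.castSucc j.succ) := by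
  obtain ⟨v', s', hs', rfl⟩ := FL0P.flag_exists h1 h2 h3 hX hL m hm Q hQ hmono hinj
  have hc := (FL0P.flag_props h1 hX hL hs).2.2.2
  have hc' := (FL0P.flag_props h1 hX hL hs').2.2.2
  have hlp : l = j.succ.castSucc := by
    apply Fin.succAbove_left_injective
    funext i
    apply Fin.ext
    have h4 := congrArg Finset.card (congrFun hl i)
    rw [hc, hc'] at h4
    exact Nat.pow_right_injective (le_refl 2) h4
  subst hlp
  have hi : ∀ i : Fin (m + 2), i ≠ j.succ.castSucc → flg X v' s' i = flg X v s i := by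
    intro i hi
    obtain ⟨a, rfl⟩ := Fin.exists_succAbove_eq hi
    exact congrFun hl a
  have hv : v' = v := by
    have h4 := hi 0 (by
      intro e
      have h5 := congrArg Fin.val e
      rw [Fin.val_castSucc, Fin.val_succ] at h5
      have h6 : ((0 : Fin (m + 2)) : ℕ) = 0 := rfl
      omega)
    rw [flg_zero h1 hX hL hs, flg_zero h1 hX hL hs'] at h4
    exact Finset.singleton_inj.1 h4
  subst hv
  have hpre : ∀ k : ℕ, k ≤ m + 1 → k ≠ ((j.succ : Fin (m + 1)) : ℕ) →
      Sp.pre s k = Sp.pre s' k := by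
    intro k hk hkj
    have h4 : cubeSet X v' (Sp.pre s' k) = cubeSet X v' (Sp.pre s k) :=
      hi ⟨k, by omega⟩ (by
        intro e
        apply hkj
        have h5 := congrArg Fin.val e
        rwa [Fin.val_castSucc] at h5)
    exact Finset.Subset.antisymm
      (FL0P.dir_mono h1 h2 hX hL (FL0P.pre_link hs _) (FL0P.pre_link hs' _) h4.symm.subset)
      (FL0P.dir_mono h1 h2 hX hL (FL0P.pre_link hs' _) (FL0P.pre_link hs _) h4.subset)
  rcases eq_or_swap (FL0P.dom_inj hs).1 j.castSucc j.succ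
    (by rw [Fin.val_castSucc, Fin.val_succ]) hpre with e | e
  · left
    rw [e]
  · right
    rw [e]

/-- **Item TA.** -/
theorem prf (h1 : S_CU1) (h2 : S_CU2) (h3 : S_CU3) : S_TA := by
  intro X hX hL m hm v s hs Q hQ hmono j
  have hs2 := dom_swap hs j.castSucc j.succ
  have hF := (FL0P.flag_props h1 hX hL hs).2.1
  have hF2 := (FL0P.flag_props h1 hX hL hs2).2.1
  have hR : Function.Injective fun l : Fin (m + 1) =>
      flg X v s (j.succ.castSucc.succAbove l) :=
    fun a b hab => Fin.succAbove_right_injective (hF hab)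
  have hD := DLIP.prf m _ hR Q hmono
  have hne : flg X v s ≠ flg X v (s ∘ Equiv.swap j.castSucc j.succ) := by
    intro e
    have h4 := congrFun (FL0P.flag_inj h1 h2 hX hL hs hs2 e).2 j.castSucc
    rw [Function.comp, Equiv.swap_apply_left] at h4
    exact absurd ((FL0P.dom_inj hs).1 h4) (ne_of_lt Fin.castSucc_lt_succ)
  have hsw : (fun i : Fin (m + 1) => flg X v (s ∘ Equiv.swap j.castSucc j.succ)
      (j.succ.castSucc.succAbove i)) =
      fun l : Fin (m + 1) => flg X v s (j.succ.castSucc.succAbove l) := by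
    funext i
    unfold flg
    rw [Sp.pre_swap s j.castSucc j.succ (by rw [Fin.val_castSucc, Fin.val_succ])]
    intro e
    have h4 : j.succ.castSucc.succAbove i = j.succ.castSucc := Fin.ext (by
      rw [e, Fin.val_castSucc])
    exact Fin.succAbove_ne _ _ h4
  have hval : ((j.succ.castSucc : Fin (m + 2)) : ℕ) = (j : ℕ) + 1 := by
    rw [Fin.val_castSucc, Fin.val_succ]
  by_cases hinj : Function.Injective Q
  · by_cases hA : Q = flg X v s
    · have h4 := hD.2.1 j.succ.castSucc hinj (by rw [hA])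
      rw [h4, hval]
      unfold ind
      rw [if_pos hA, if_neg (fun h => hne (hA.symm.trans h)), add_zero, mul_one]
    · by_cases hB : Q = flg X v (s ∘ Equiv.swap j.castSucc j.succ)
      · have h4 := hD.2.1 j.succ.castSucc hinj (by rw [hB]; exact hsw)
        rw [h4, hval]
        unfold ind
        rw [if_neg hA, if_pos hB, zero_add, mul_one]
      · have h4 := hD.2.2 (fun l hl => by
          rcases flags h1 h2 h3 hX hL hm hs hQ hmono hinj j l hl with h | h
          · exact hA h
          · exact hB h)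
        rw [h4]
        unfold ind
        rw [if_neg hA, if_neg hB, add_zero, mul_zero]
  · rw [hD.1 hinj]
    unfold ind
    rw [if_neg (fun h => hinj (by rw [h]; exact hF)),
      if_neg (fun h => hinj (by rw [h]; exact hF2)), add_zero, mul_zero]

end MP8a95ee.Npc.TAP
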