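import Pool.Agent.Work.MP_8a95ee_gt.Fb.Stmts

/-!
# Fibre bundles: elementary facts about singular chains
-/

set_option autoImplicit false

namespace MP8a95ee.Npc.Fb

section lin

variable {X Y : Type} [TopologicalSpace X] [TopologicalSpace Y]

/-- `bd` as a linear map -/
noncomputable def bdLin (X : Type) [TopologicalSpace X] (n : ℕ) :
    SChain X (n + 1) →ₗ[ℝ] SChain X n :=
  Finsupp.linearCombination ℝ fun σ => ∑ i : Fin (n + 2), Finsupp.single (face σ i) ((-1 : ℝ) ^ (i : ℕ))

theorem bd_eq {n : ℕ} (c : SChain X (n + 1)) : bd c = bdLin X n c := by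
  unfold bd bdLin
  rw [Finsupp.linearCombination_apply]
  refine Finsupp.sum_congr fun σ _ => ?_
  rw [Finset.smul_sum]
  refine Finset.sum_congr rfl fun i _ => ?_
  rw [Finsupp.smul_single, smul_eq_mul, mul_comm]

theorem bd_add {n : ℕ} (c c' : SChain X (n + 1)) :
    bd (c + c') = bd c + bd c' := by rw [bd_eq, bd_eq, bd_eq, map_add]

theorem bd_smul {n : ℕ} (r : ℝ) (c : SChain X (n + 1)) :
    bd (r • c) = r • bd c := by rw [bd_eq, bd_eq, map_smul]

theorem push_add (f : C(X, Y)) {n : ℕ}
    (c c' : SChain X n) : push f (c + c') = push f c + push f c' := Finsupp.mapDomain_add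

theorem push_smul (f : C(X, Y)) {n : ℕ} (r : ℝ)
    (c : SChain X n) : push f (r • c) = r • push f c := Finsupp.mapDomain_smul r c

theorem bd_push (f : C(X, Y)) {n : ℕ}
    (c : SChain X (n + 1)) : bd (push f c) = push f (bd c) := by
  induction c using Finsupp.induction_linear with
  | zero => simp [bd, push]
  | add c c' h h' => rw [push_add, bd_add, h, h', bd_add, push_add]
  | single σ a =>
    unfold bd push
    rw [Finsupp.mapDomain_single, Finsupp.sum_single_index (by simp),
      Finsupp.sum_single_index (by simp), Finsupp.mapDomain_finset_sum]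
    refine Finset.sum_congr rfl fun i _ => ?_
    rw [Finsupp.mapDomain_single]
    rfl

theorem l1_nonneg {n : ℕ} (x : SChain X n) : 0 ≤ l1 x :=
  Finsupp.sum_nonneg fun _ _ => abs_nonneg _

theorem l1_smul {n : ℕ} (r : ℝ) (x : SChain X n) : l1 (r • x) = |r| * l1 x := by
  unfold l1
  rw [Finsupp.sum_smul_index' (fun σ => abs_zero), Finsupp.mul_sum]
  refine Finsupp.sum_congr fun σ _ => ?_
  rw [smul_eq_mul, abs_mul]

theorem l1_add_le {n : ℕ} (x y : SChain X n) : l1 (x + y) ≤ l1 x + l1 y := by
  classical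
  unfold l1
  have h1 : (x + y).sum (fun _ a => |a|) = ∑ σ ∈ x.support ∪ y.support, |(x + y) σ| :=
    Finsupp.sum_of_support_subset _ Finsupp.support_add _ (fun _ _ => abs_zero)
  have h2 : x.sum (fun _ a => |a|) = ∑ σ ∈ x.support ∪ y.support, |x σ| :=
    Finsupp.sum_of_support_subset _ Finset.subset_union_left _ (fun _ _ => abs_zero)
  have h3 : y.sum (fun _ a => |a|) = ∑ σ ∈ x.support ∪ y.support, |y σ| :=
    Finsupp.sum_of_support_subset _ Finset.subset_union_right _ (fun _ _ => abs_zero)
  rw [h1, h2, h3, ← Finset.sum_add_distrib]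
  exact Finset.sum_le_sum fun σ _ => by
    rw [Finsupp.add_apply]
    exact abs_add_le _ _

theorem l1_single {n : ℕ} (σ : SSimplex X n) (a : ℝ) : l1 (Finsupp.single σ a) = |a| := by
  unfold l1
  rw [Finsupp.sum_single_index abs_zero]

theorem l1_push_le (f : C(X, Y)) {n : ℕ} (c : SChain X n) : l1 (push f c) ≤ l1 c := by
  classical
  induction c using Finsupp.induction with
  | zero => simp [push, l1]
  | single_add σ a c hσ ha ih =>
    have h1 : l1 (Finsupp.single σ a + c) = |a| + l1 c := by
      unfold l1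
      rw [Finsupp.sum_add_index_of_disjoint, Finsupp.sum_single_index abs_zero]
      rw [Finset.disjoint_left]
      intro τ h2 h3
      have h4 := Finsupp.support_single_subset h2
      rw [Finset.mem_singleton] at h4
      exact hσ (h4 ▸ h3)
    rw [h1, push_add]
    refine (l1_add_le _ _).trans ?_
    have h2 : push f (Finsupp.single σ a) = Finsupp.single (f.comp σ) a :=
      Finsupp.mapDomain_single
    rw [h2, l1_single]
    linarith

/-- a chain on which all functionals vanish that vanish on the boundaries is a boundary -/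
theorem boundary_of_functionals {n : ℕ} (v : SChain X n)
    (h : ∀ l : SChain X n →ₗ[ℝ] ℝ, (∀ y : SChain X (n + 1), l (bd y) = 0) → l v = 0) :
    ∃ y : SChain X (n + 1), v = bd y := by
  by_contra hv
  have h1 : v ∉ LinearMap.range (bdLin X n) := by
    rintro ⟨y, hy⟩
    exact hv ⟨y, by rw [bd_eq, hy]⟩
  obtain ⟨l, hl, hr⟩ := Submodule.exists_le_ker_of_notMem h1
  apply hl
  apply h l
  intro y
  rw [bd_eq]
  exact hr ⟨y, rfl⟩

/-- lower bound for all chains in the class of a multiple -/
theorem le_l1_of_class {n : ℕ} (u : SChain X n) (ν : ℝ)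
    (h : ∀ y : SChain X (n + 1), ν ≤ l1 (u + bd y)) (a : ℝ) (y : SChain X (n + 1)) :
    |a| * ν ≤ l1 (a • u + bd y) := by
  by_cases ha : a = 0
  · rw [ha, abs_zero, zero_mul]
    exact l1_nonneg _
  · have h1 : a • u + bd y = a • (u + bd (a⁻¹ • y)) := by
      rw [bd_smul, smul_add, smul_smul, mul_inv_cancel₀ ha, one_smul]
    rw [h1, l1_smul]
    exact mul_le_mul_of_nonneg_left (h _) (abs_nonneg _)

end lin

end MP8a95ee.Npc.Fb
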