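import Pool.Agent.Work.MP_8a95ee_gt.Fb.Defs

/-!
# Fibre bundles over nonpositively curved cubulated manifolds: statements of the items

Theorem FB (helper42, note of 4 Dec 11:00Z).  `X`, `Γ`, `F` as in block U, `π : A → B` a regular
covering with group `Γ`.

* tuples: `S_CG1`, `S_CG2` (cap product summed over the group), `S_PRI` (prism).
* singular simplices: `S_SDE`, `S_RLZ` (realisation), `S_LFT` (lifts), `S_FB1`, `S_FB2`, `S_FB3`
  (the chain map), `S_VAL` (its value on the chain of `B`).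
* cochains: `S_CXB` (bounds), `S_NR1`, `S_NR2`, `S_NLO` (normalised local functions).
* cubes: `S_STA` (cubes in the star of a vertex), `S_AVG` (random rounding), `S_TA`, `S_TB`, `S_TC`
  (flags with a missing cube), `S_TRR`, `S_TR2`, `S_TR3` (transport), `S_EVL` (evaluation).
* `S_FBM`: the theorem.
-/

set_option autoImplicit false

namespace MP8a95ee.Npc

open Classical

/-! ### Tuples: the cap product summed over the group -/

/-- local finiteness -/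
def LFn (G : Type) [Group G] {P : Type} [MulAction G P] {k : ℕ} (a : (Fin k → P) → ℝ) : Prop :=
  ∀ p : Fin k → P, {g : G | a (fun i => g • p i) ≠ 0}.Finite

/-- the sum over all translates of a tuple of the value of `a` on the first `k + 1` entries times
the tuple of the last `b + 1` entries -/
noncomputable def capG (G : Type) [Group G] {P : Type} [MulAction G P] {k b N : ℕ}
    (h : N = k + b) (a : (Fin (k + 1) → P) → ℝ) (p : Fin (N + 1) → P) : RA.Ch P (b + 1) :=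
  ∑ᶠ g : G, Finsupp.single (fun j : Fin (b + 1) => g • p ⟨k + j, by omega⟩)
    (a fun i => g • p ⟨i, by omega⟩)

/-- the linear extension -/
noncomputable def CG (G : Type) [Group G] {P : Type} [MulAction G P] {k b N : ℕ}
    (h : N = k + b) (a : (Fin (k + 1) → P) → ℝ) : RA.Ch P (N + 1) →ₗ[ℝ] RA.Ch P (b + 1) :=
  Finsupp.linearCombination ℝ (capG G h a)

/-- CG1: Leibniz rule, on chains which are cycles modulo the group -/
def S_CG1 : Prop := ∀ (G : Type) [Group G] (P : Type) [MulAction G P] (k b N : ℕ) (h : N = k + b)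
  (a : (Fin (k + 1) → P) → ℝ) (_ : LFn G a) (e : RA.Ch P (N + 1 + 1)) (_ : IsCyc G e),
  CG G (show N + 1 = (k + 1) + b by omega) (fun p => RA.dl a p) e =
    (-1 : ℝ) ^ (k + 1) • RA.bdT (CG G (show N + 1 = k + (b + 1) by omega) a e)

/-- CG2: linearity in the function -/
def S_CG2 : Prop := ∀ (G : Type) [Group G] (P : Type) [MulAction G P] (k b N : ℕ) (h : N = k + b)
  (ι : Type) (I : Finset ι) (u : ι → ℝ) (a : ι → (Fin (k + 1) → P) → ℝ) (_ : ∀ i, LFn G (a i))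
  (e : RA.Ch P (N + 1)),
  CG G h (fun p => ∑ i ∈ I, u i * a i p) e = ∑ i ∈ I, u i • CG G h (a i) e

/-- the prism -/
noncomputable def prm {P : Type} {m : ℕ} (c : (Fin (m + 2) → ℕ) → ℝ) (r r' : P → ℕ)
    (p : Fin (m + 1) → P) : ℝ :=
  ∑ j : Fin (m + 1), (-1 : ℝ) ^ (j : ℕ) * c fun i : Fin (m + 2) =>
    if i ≤ j.castSucc then r (p (j.predAbove i)) else r' (p (j.predAbove i))

/-- PRI: the prism formula -/
def S_PRI : Prop := ∀ (P : Type) (m : ℕ) (c : (Fin (m + 2) → ℕ) → ℝ)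
  (_ : ∀ v : Fin (m + 3) → ℕ, RA.dl c v = 0) (r r' : P → ℕ) (p : Fin (m + 2) → P),
  RA.dl (prm c r r') p = c (fun i => r' (p i)) - c fun i => r (p i)

/-! ### Singular simplices -/

/-- realisation of tuples -/
noncomputable def rlz {A P : Type} [TopologicalSpace A]
    (S : ∀ k : ℕ, (Fin (k + 1) → P) → SSimplex A k) (b : ℕ) :
    RA.Ch P (b + 1) →ₗ[ℝ] SChain A b :=
  Finsupp.linearCombination ℝ fun p => Finsupp.single (S b p) (1 : ℝ)

/-- SDE: iterated faces -/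
def S_SDE : Prop := ∀ (X : SimpleGraph ℕ) (Γ : Subgroup (Equiv.Perm ℕ)) (A P : Type)
  [TopologicalSpace A] [MulAction Γ A] [PartialOrder P] [MulAction Γ P] (q : P → Finset ℕ)
  (S : ∀ k : ℕ, (Fin (k + 1) → P) → SSimplex A k) (_ : IsTri X Γ q S) (j N : ℕ)
  (δ : Fin (j + 1) → Fin (N + 1)) (_ : StrictMono δ) (p : Fin (N + 1) → P) (_ : StrictMono p)
  (t : stdSimplex ℝ (Fin (j + 1))),
  S N p (stdSimplex.map δ t) = S j (fun i => p (δ i)) t

/-- RLZ: realisation is a chain map -/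
def S_RLZ : Prop := ∀ (X : SimpleGraph ℕ) (Γ : Subgroup (Equiv.Perm ℕ)) (A P : Type)
  [TopologicalSpace A] [MulAction Γ A] [PartialOrder P] [MulAction Γ P] (q : P → Finset ℕ)
  (S : ∀ k : ℕ, (Fin (k + 1) → P) → SSimplex A k) (_ : IsTri X Γ q S) (b : ℕ)
  (y : RA.Ch P (b + 2)) (_ : ∀ p ∈ y.support, StrictMono p),
  bd (rlz S (b + 1) y) = rlz S b (RA.bdT y)

/-- translates of simplices -/
def actS {G : Type} [Group G] {A : Type} [TopologicalSpace A] [MulAction G A]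
    [ContinuousConstSMul G A] {N : ℕ} (g : G) (τ : SSimplex A N) : SSimplex A N :=
  ⟨fun t => g • τ t, (continuous_const_smul g).comp τ.continuous⟩

/-- the last `b`-dimensional face -/
noncomputable def bkS {A : Type} [TopologicalSpace A] {k b N : ℕ} (h : N = k + b)
    (τ : SSimplex A N) : SSimplex A b :=
  τ.comp ⟨stdSimplex.map fun j : Fin (b + 1) => (⟨k + j, by omega⟩ : Fin (N + 1)),
    stdSimplex.continuous_map _⟩

/-- LFT: lifts of simplices -/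
def S_LFT : Prop := ∀ (G : Type) [Group G] (A B : Type) [TopologicalSpace A] [TopologicalSpace B]
  [MulAction G A] [ContinuousConstSMul G A] (π : C(A, B)) (_ : IsReg G π) (N : ℕ),
  (∀ σ : SSimplex B N, ∃ τ : SSimplex A N, π.comp τ = σ) ∧
  ∀ τ τ' : SSimplex A N, π.comp τ = π.comp τ' → ∃ g : G, actS g τ = τ'

/-- RHO: equivariant functions -/
def S_RHO : Prop := ∀ (Γ : Subgroup (Equiv.Perm ℕ)) (A : Type) [MulAction Γ A]
  (_ : ∀ (g : Γ) (a : A), g • a = a → g = 1), ∃ ρ : A → ℕ, ∀ (g : Γ) (a : A), ρ (g • a) = g • ρ a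

/-- the value of the chain map on a simplex of `B` -/
noncomputable def fibS (Γ : Subgroup (Equiv.Perm ℕ)) {A B : Type} [TopologicalSpace A]
    [TopologicalSpace B] [MulAction Γ A] [ContinuousConstSMul Γ A] (π : C(A, B)) (ρ : A → ℕ)
    {k b N : ℕ} (h : N = k + b) (c : (Fin (k + 1) → ℕ) → ℝ) (σ : SSimplex B N) : SChain A b :=
  if hσ : ∃ τ : SSimplex A N, π.comp τ = σ then
    ∑ᶠ g : Γ, Finsupp.single (bkS h (actS g hσ.choose))
      (c fun i => g • ρ (hσ.choose (vtx ⟨i, by omega⟩)))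
  else 0

/-- the chain map -/
noncomputable def FbL (Γ : Subgroup (Equiv.Perm ℕ)) {A B : Type} [TopologicalSpace A]
    [TopologicalSpace B] [MulAction Γ A] [ContinuousConstSMul Γ A] (π : C(A, B)) (ρ : A → ℕ)
    {k b N : ℕ} (h : N = k + b) (c : (Fin (k + 1) → ℕ) → ℝ) : SChain B N →ₗ[ℝ] SChain A b :=
  Finsupp.linearCombination ℝ (fibS Γ π ρ h c)

/-- FB1: independence of the lift -/
def S_FB1 : Prop := ∀ (Γ : Subgroup (Equiv.Perm ℕ)) (A B : Type) [TopologicalSpace A]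
  [TopologicalSpace B] [MulAction Γ A] [ContinuousConstSMul Γ A] (π : C(A, B)) (_ : IsReg Γ π)
  (ρ : A → ℕ) (_ : ∀ (g : Γ) (a : A), ρ (g • a) = g • ρ a) (k b N : ℕ) (h : N = k + b)
  (c : (Fin (k + 1) → ℕ) → ℝ) (_ : LFn Γ c) (τ : SSimplex A N),
  fibS Γ π ρ h c (π.comp τ) = ∑ᶠ g : Γ, Finsupp.single (bkS h (actS g τ))
    (c fun i => g • ρ (τ (vtx ⟨i, by omega⟩)))

/-- FB2: a chain map -/
def S_FB2 : Prop := ∀ (Γ : Subgroup (Equiv.Perm ℕ)) (A B : Type) [TopologicalSpace A]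
  [TopologicalSpace B] [MulAction Γ A] [ContinuousConstSMul Γ A] (π : C(A, B)) (_ : IsReg Γ π)
  (ρ : A → ℕ) (_ : ∀ (g : Γ) (a : A), ρ (g • a) = g • ρ a) (k b N : ℕ) (h : N = k + b)
  (c : (Fin (k + 1) → ℕ) → ℝ) (_ : LFn Γ c) (_ : ∀ v : Fin (k + 2) → ℕ, RA.dl c v = 0)
  (w : SChain B (N + 1)),
  FbL Γ π ρ h c (bd w) =
    (-1 : ℝ) ^ k • bd (FbL Γ π ρ (show N + 1 = k + (b + 1) by omega) c w)

/-- FB3: the bound -/
def S_FB3 : Prop := ∀ (Γ : Subgroup (Equiv.Perm ℕ)) (A B : Type) [TopologicalSpace A]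
  [TopologicalSpace B] [MulAction Γ A] [ContinuousConstSMul Γ A] (π : C(A, B)) (_ : IsReg Γ π)
  (ρ : A → ℕ) (_ : ∀ (g : Γ) (a : A), ρ (g • a) = g • ρ a) (k b N : ℕ) (h : N = k + b)
  (F : Finset ℕ) (c : ℕ → (Fin (k + 1) → ℕ) → ℝ) (_ : ∀ x, LFn Γ (c x)) (K : ℝ)
  (_ : ∀ v : Fin (k + 1) → ℕ, ∑ x ∈ F, ∑ᶠ g : Γ, |c x fun i => g • v i| ≤ K) (z : SChain B N),
  ∑ x ∈ F, l1 (FbL Γ π ρ h (c x) z) ≤ K * l1 z

/-- VAL: the value on the chain of `B` given by a chain of tuples -/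
def S_VAL : Prop := ∀ (X : SimpleGraph ℕ) (Γ : Subgroup (Equiv.Perm ℕ)) (A B P : Type)
  [TopologicalSpace A] [TopologicalSpace B] [MulAction Γ A] [ContinuousConstSMul Γ A]
  (π : C(A, B)) (_ : IsReg Γ π) [PartialOrder P] [MulAction Γ P] (q : P → Finset ℕ)
  (S : ∀ k : ℕ, (Fin (k + 1) → P) → SSimplex A k) (_ : IsTri X Γ q S)
  (ρ : A → ℕ) (_ : ∀ (g : Γ) (a : A), ρ (g • a) = g • ρ a) (k b N : ℕ) (h : N = k + b)
  (c : (Fin (k + 1) → ℕ) → ℝ) (_ : LFn Γ c) (e : RA.Ch P (N + 1))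
  (_ : ∀ p ∈ e.support, StrictMono p),
  (∀ (g : Γ) (p : P), ρ (S 0 (fun _ => g • p) (vtx 0)) = g • ρ (S 0 (fun _ => p) (vtx 0))) ∧
  LFn Γ (fun p : Fin (k + 1) → P => c fun i => ρ (S 0 (fun _ => p i) (vtx 0))) ∧
  FbL Γ π ρ h c (totC π S e) =
    rlz S b (CG Γ h (fun p => c fun i => ρ (S 0 (fun _ => p i) (vtx 0))) e)

/-! ### The cochains -/

/-- the cochain of a vertex -/
noncomputable def cx (X : SimpleGraph ℕ) {k : ℕ} (f : (Fin k → Finset ℕ) → ℝ) (x : ℕ)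
    (v : Fin (k + 1) → ℕ) : ℝ :=
  RA.dl f fun i => In X x (v i)

/-- CXB: the cochains of the vertices -/
def S_CXB : Prop := ∀ (X : SimpleGraph ℕ) (_ : IsMedianGraph X) (_ : LocFin X)
  (Γ : Subgroup (Equiv.Perm ℕ)) (F : Finset ℕ) (_ : IsDeck X Γ F) (m B : ℕ)
  (_ : ∀ (v : Fin (m + 2) → ℕ) (Z : Finset ℕ),
    (∀ z ∈ Z, ¬ KF (link X z) fun l => In X z (v l)) → Z.card ≤ B)
  (f : ℕ → (Fin (m + 1) → Finset ℕ) → ℝ) (_ : Equi Γ f)
  (_ : ∀ z, ∀ T : Fin (m + 2) → Finset ℕ, KF (link X z) T → RA.dl (f z) T = 0)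
  (C : ℝ) (_ : ∀ z T, |f z T| ≤ C),
  (∀ x, ∀ v : Fin (m + 3) → ℕ, RA.dl (cx X (f x) x) v = 0) ∧
  (∀ x, LFn Γ (cx X (f x) x)) ∧
  (∀ v : Fin (m + 2) → ℕ, ∑ x ∈ F, ∑ᶠ g : Γ, |cx X (f x) x fun i => g • v i| ≤
    B * ((m + 2) * C)) ∧
  ∀ x, ∀ V : Finset ℕ, {g : Γ | ∃ v : Fin (m + 2) → ℕ, (∀ i, v i ∈ V) ∧
    cx X (f x) x (fun i => g • v i) ≠ 0}.Finite

/-- NR1: one step of the normalisation -/
def S_NR1 : Prop := ∀ (S : Type) (K : ∀ k : ℕ, (Fin k → S) → Prop)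
  (_ : ∀ (k l : ℕ) (T : Fin k → S) (g : Fin l → Fin k), K k T → K l fun i => T (g i))
  (m i : ℕ) (_ : i < m) (f : (Fin (m + 1) → S) → ℝ)
  (_ : ∀ T : Fin (m + 2) → S, K (m + 2) T → RA.dl f T = 0)
  (_ : ∀ T : Fin (m + 1) → S, K (m + 1) T → ∀ j : Fin m, (j : ℕ) < i →
    T j.castSucc = T j.succ → f T = 0),
  ∃ h : (Fin m → S) → ℝ, (∀ C : ℝ, (∀ T, |f T| ≤ C) → ∀ T, |h T| ≤ C) ∧
    ∀ T : Fin (m + 1) → S, K (m + 1) T → ∀ j : Fin m, (j : ℕ) ≤ i →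
      T j.castSucc = T j.succ → f T - RA.dl h T = 0

/-- NR2: normalisation -/
def S_NR2 : Prop := ∀ m : ℕ, ∃ M : ℝ, 0 ≤ M ∧ ∀ (S : Type) (K : ∀ k : ℕ, (Fin k → S) → Prop)
  (_ : ∀ (k l : ℕ) (T : Fin k → S) (g : Fin l → Fin k), K k T → K l fun i => T (g i))
  (f : (Fin (m + 1) → S) → ℝ)
  (_ : ∀ T : Fin (m + 2) → S, K (m + 2) T → RA.dl f T = 0) (C : ℝ) (_ : ∀ T, |f T| ≤ C)
  (z : RA.Ch S (m + 1)) (_ : ∀ T ∈ z.support, K (m + 1) T) (_ : RA.bdT z = 0),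
  ∃ f' : (Fin (m + 1) → S) → ℝ,
    (∀ T : Fin (m + 2) → S, K (m + 2) T → RA.dl f' T = 0) ∧ (∀ T, |f' T| ≤ M * C) ∧
    (∀ T : Fin (m + 1) → S, ∀ j : Fin m, T j.castSucc = T j.succ → f' T = 0) ∧
    Finsupp.linearCombination ℝ f' z = Finsupp.linearCombination ℝ f z

/-- a local function at `x` -/
def IsLF (L : Finset (Finset ℕ)) (m : ℕ) (o : (Fin (m + 1) → ℕ) → ℤ) (C : ℝ)
    (f : (Fin (m + 1) → Finset ℕ) → ℝ) : Prop :=
  (∀ T : Fin (m + 2) → Finset ℕ, KF L T → RA.dl f T = 0) ∧ (∀ T, |f T| ≤ C) ∧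
  (∀ T : Fin (m + 1) → Finset ℕ, ∀ j : Fin m, T j.castSucc = T j.succ → f T = 0) ∧
  |∑ s ∈ L, (-1 / 2 : ℝ) ^ s.card| ≤ Finsupp.linearCombination ℝ f (RA.zeta L o)

/-- NL1: normalised local functions -/
def S_NL1 : Prop := ∀ m : ℕ, ∃ M : ℝ, 0 ≤ M ∧ ∀ (L : Finset (Finset ℕ)) (_ : FlagC L)
  (o : (Fin (m + 1) → ℕ) → ℤ) (_ : IsOrient L (m + 1) o) (C : ℝ) (_ : 0 ≤ C)
  (f : (Fin (m + 1) → Finset ℕ) → ℝ)
  (_ : ∀ T : Fin (m + 2) → Finset ℕ, KF L T → RA.dl f T = 0)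
  (_ : ∀ T : Fin (m + 1) → Finset ℕ, (∀ i, T i ∈ L) → |f T| ≤ C)
  (_ : |∑ s ∈ L, (-1 / 2 : ℝ) ^ s.card| ≤ Finsupp.linearCombination ℝ f (RA.zeta L o)),
  ∃ f' : (Fin (m + 1) → Finset ℕ) → ℝ, IsLF L m o (M * C) f'

/-! ### Cubes -/

/-- `Q` is a cube -/
def IsCube (X : SimpleGraph ℕ) (Q : Finset ℕ) : Prop := ∃ x, ∃ s ∈ link X x, Q = cubeSet X x s

/-- the vertices of the cubes with corner `x` -/
noncomputable def star (X : SimpleGraph ℕ) (x : ℕ) : Finset ℕ := (link X x).image (corner X x)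

/-- the rounding of the cube `Q` with respect to `x` and `A`: the vertex of `Q` which, for every
wall next to `x` which crosses `Q`, is on the side away from `x` exactly if the wall is in `A` -/
noncomputable def rA (X : SimpleGraph ℕ) (x : ℕ) (A Q : Finset ℕ) : ℕ :=
  if h : ∃ y ∈ Q, ∀ a ∈ nbr X x, (∃ y1 ∈ Q, ∃ y2 ∈ Q, a ∈ In X x y1 ∧ a ∉ In X x y2) →
    (a ∈ In X x y ↔ a ∈ A) then h.choose
  else if h' : Q.Nonempty then h'.choose else 0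

/-- STA: a cube contained in the cube `(x, s)`: it is given by the set `T` of the directions which
are turned on and the set `U` of the free directions -/
def S_STA : Prop := ∀ (X : SimpleGraph ℕ) (_ : IsMedianGraph X) (_ : LocFin X) (x : ℕ)
  (s : Finset ℕ) (_ : s ∈ link X x) (Q : Finset ℕ) (_ : IsCube X Q) (_ : Q ⊆ cubeSet X x s),
  ∃ T U : Finset ℕ, T ⊆ s ∧ U ⊆ s ∧ Disjoint T U ∧
    Q = U.powerset.image (fun U' => corner X x (T ∪ U')) ∧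
    (∀ U' ⊆ U, In X x (corner X x (T ∪ U')) = T ∪ U') ∧
    ∀ A : Finset ℕ, rA X x A Q = corner X x (T ∪ (U ∩ A))

/-- AVG: random rounding -/
def S_AVG : Prop := ∀ (X : SimpleGraph ℕ) (_ : IsMedianGraph X) (_ : LocFin X) (m : ℕ)
  (_ : ∀ x, ∀ s ∈ link X x, s.card ≤ m + 1) (x : ℕ) (f : (Fin (m + 1) → Finset ℕ) → ℝ)
  (_ : ∀ T : Fin (m + 2) → Finset ℕ, KF (link X x) T → RA.dl f T = 0)
  (_ : ∀ T : Fin (m + 1) → Finset ℕ, (∀ i, T i ∈ link X x) → ∀ j : Fin m,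
    T j.castSucc = T j.succ → f T = 0)
  (Q : Fin (m + 2) → Finset ℕ) (_ : ∀ i, IsCube X (Q i)) (_ : Monotone Q),
  (2 : ℝ) ^ (m + 1) * ∑ A ∈ (nbr X x).powerset, cx X f x (fun i => rA X x A (Q i)) =
    2 ^ (nbr X x).card * ∑ v ∈ star X x, ∑ s ∈ Dom X (m + 1) v,
      if (∀ i : Fin (m + 2), Q i = cubeSet X v (Sp.pre s i)) then
        cx X f x (fun i => corner X v (Sp.pre s i)) else 0

/-- the flag of cubes -/
noncomputable def flg (X : SimpleGraph ℕ) {n : ℕ} (v : ℕ) (s : Fin n → ℕ) (i : Fin (n + 1)) :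
    Finset ℕ := cubeSet X v (Sp.pre s i)

/-- the indicator of a tuple -/
noncomputable def ind {k : ℕ} (R Q : Fin k → Finset ℕ) : ℝ := if Q = R then 1 else 0

/-- DLI: the coboundary of the indicator of a tuple, on monotone tuples -/
def S_DLI : Prop := ∀ (k : ℕ) (R : Fin (k + 1) → Finset ℕ) (_ : Function.Injective R)
  (Q : Fin (k + 2) → Finset ℕ) (_ : Monotone Q),
  (¬ Function.Injective Q → RA.dl (ind R) Q = 0) ∧
  (∀ l : Fin (k + 2), Function.Injective Q → (fun i => Q (l.succAbove i)) = R →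
    RA.dl (ind R) Q = (-1 : ℝ) ^ (l : ℕ)) ∧
  ((∀ l : Fin (k + 2), (fun i => Q (l.succAbove i)) ≠ R) → RA.dl (ind R) Q = 0)

/-- FL0: complete flags of cubes -/
def S_FL0 : Prop := ∀ (X : SimpleGraph ℕ) (_ : IsMedianGraph X) (_ : LocFin X) (m : ℕ)
  (_ : ∀ x, ∀ s ∈ link X x, s.card ≤ m + 1),
  (∀ v, ∀ s ∈ Dom X (m + 1) v, Monotone (flg X v s) ∧ Function.Injective (flg X v s) ∧
    (∀ i, IsCube X (flg X v s i)) ∧ ∀ i : Fin (m + 2), (flg X v s i).card = 2 ^ (i : ℕ)) ∧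
  (∀ v, ∀ s ∈ Dom X (m + 1) v, ∀ v', ∀ s' ∈ Dom X (m + 1) v', flg X v s = flg X v' s' →
    v = v' ∧ s = s') ∧
  ∀ Q : Fin (m + 2) → Finset ℕ, (∀ i, IsCube X (Q i)) → Monotone Q → Function.Injective Q →
    ∃ v, ∃ s ∈ Dom X (m + 1) v, Q = flg X v s

/-- TA: flags with a missing cube, neither the vertex nor the top cube -/
def S_TA : Prop := ∀ (X : SimpleGraph ℕ) (_ : IsMedianGraph X) (_ : LocFin X) (m : ℕ)
  (_ : ∀ x, ∀ s ∈ link X x, s.card ≤ m + 1) (v : ℕ) (s : Fin (m + 1) → ℕ) (_ : s ∈ Dom X (m + 1) v)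
  (Q : Fin (m + 2) → Finset ℕ) (_ : ∀ i, IsCube X (Q i)) (_ : Monotone Q) (j : Fin m),
  RA.dl (ind fun l : Fin (m + 1) => flg X v s (j.succ.castSucc.succAbove l)) Q =
    (-1 : ℝ) ^ ((j : ℕ) + 1) *
      (ind (flg X v s) Q + ind (flg X v (s ∘ Equiv.swap j.castSucc j.succ)) Q)

/-- TB: flags with missing vertex -/
def S_TB : Prop := ∀ (X : SimpleGraph ℕ) (_ : IsMedianGraph X) (_ : LocFin X) (m : ℕ)
  (_ : ∀ x, ∀ s ∈ link X x, s.card ≤ m + 1) (v : ℕ) (s : Fin (m + 1) → ℕ) (_ : s ∈ Dom X (m + 1) v)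
  (Q : Fin (m + 2) → Finset ℕ) (_ : ∀ i, IsCube X (Q i)) (_ : Monotone Q),
  RA.dl (ind fun l : Fin (m + 1) => flg X v s (Fin.succAbove 0 l)) Q =
    ind (flg X v s) Q +
      ind (flg X (s 0) (fun j => if j = 0 then v else corner X v {s 0, s j})) Q

/-- TC: flags with missing top cube -/
def S_TC : Prop := ∀ (X : SimpleGraph ℕ) (_ : IsMedianGraph X) (_ : LocFin X) (m : ℕ)
  (_ : ∀ x, ∀ s ∈ link X x, s.card ≤ m + 1) (v : ℕ) (s : Fin (m + 1) → ℕ) (_ : s ∈ Dom X (m + 1) v)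
  (Q : Fin (m + 2) → Finset ℕ) (_ : ∀ i, IsCube X (Q i)) (_ : Monotone Q),
  RA.dl (ind fun l : Fin (m + 1) => flg X v s ((Fin.last (m + 1)).succAbove l)) Q =
    (-1 : ℝ) ^ (m + 1) *
      ∑ a ∈ (nbr X v).filter (fun a => Function.update s (Fin.last m) a ∈ Dom X (m + 1) v),
        ind (flg X v (Function.update s (Fin.last m) a)) Q

/-! ### Transport -/

/-- FCE: the fibre chain as a cap product -/
def S_FCE : Prop := ∀ (X : SimpleGraph ℕ) (_ : IsMedianGraph X) (_ : LocFin X)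
  (Γ : Subgroup (Equiv.Perm ℕ)) (F : Finset ℕ) (_ : IsDeck X Γ F)
  (A P : Type) [TopologicalSpace A] [MulAction Γ A] [PartialOrder P] [MulAction Γ P]
  (q : P → Finset ℕ) (S : ∀ k : ℕ, (Fin (k + 1) → P) → SSimplex A k) (_ : IsTri X Γ q S),
  (∀ (k : ℕ) (R : Fin (k + 1) → Finset ℕ), LFn Γ fun p : Fin (k + 1) → P =>
    ind R fun i => q (p i)) ∧
  ∀ (n b : ℕ) (e : (Fin (n + b + 1) → P) →₀ ℝ) (x : ℕ) (s : Fin n → ℕ),
    fibC X Γ q S e x s = rlz S b (CG Γ rfl (fun p => ind (flg X x s) fun i => q (p i)) e)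

/-- TRR: the relations between the fibre chains, for a functional which vanishes on boundaries -/
def S_TRR : Prop := ∀ (X : SimpleGraph ℕ) (_ : IsMedianGraph X) (_ : LocFin X) (m : ℕ)
  (_ : ∀ x, ∀ s ∈ link X x, s.card ≤ m + 1)
  (Γ : Subgroup (Equiv.Perm ℕ)) (F : Finset ℕ) (_ : IsDeck X Γ F)
  (A P : Type) [TopologicalSpace A] [MulAction Γ A] [PartialOrder P] [MulAction Γ P]
  (q : P → Finset ℕ) (S : ∀ k : ℕ, (Fin (k + 1) → P) → SSimplex A k) (_ : IsTri X Γ q S)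
  (b : ℕ) (e : (Fin (m + 1 + b + 1) → P) →₀ ℝ) (_ : ∀ p ∈ e.support, StrictMono p)
  (_ : IsCyc Γ e) (l : SChain A b →ₗ[ℝ] ℝ) (_ : ∀ y : SChain A (b + 1), l (bd y) = 0) (v : ℕ)
  (s : Fin (m + 1) → ℕ) (_ : s ∈ Dom X (m + 1) v),
  (∀ j : Fin m, l (fibC X Γ q S e v (s ∘ Equiv.swap j.castSucc j.succ)) =
    - l (fibC X Γ q S e v s)) ∧
  l (fibC X Γ q S e (s 0) fun j => if j = 0 then v else corner X v {s 0, s j}) =
    - l (fibC X Γ q S e v s) ∧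
  ∑ a ∈ (nbr X v).filter (fun a => Function.update s (Fin.last m) a ∈ Dom X (m + 1) v),
    l (fibC X Γ q S e v (Function.update s (Fin.last m) a)) = 0

/-- TR2: top dimensional cycles of a homology sphere are proportional -/
def S_TR2 : Prop := ∀ (L : Finset (Finset ℕ)) (_ : FlagC L) (m : ℕ)
  (_ : RA.IsHSphere L (m + 1)) (o : (Fin (m + 1) → ℕ) → ℤ) (_ : IsOrient L (m + 1) o)
  (o' : (Fin (m + 1) → ℕ) → ℝ)
  (_ : ∀ s, o' s ≠ 0 → Function.Injective s ∧ Finset.univ.image s ∈ L)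
  (_ : ∀ s, ∀ j : Fin m, o' (s ∘ Equiv.swap j.castSucc j.succ) = - o' s)
  (_ : ∀ s, ∑ a ∈ verts L, o' (Function.update s (Fin.last m) a) = 0),
  ∃ w : ℝ, ∀ s, o' s = w * o s

/-- TR3: a family of top dimensional cycles of the links which is compatible with the edges is
proportional to the orientation -/
def S_TR3 : Prop := ∀ (X : SimpleGraph ℕ) (_ : IsMedianGraph X) (_ : LocFin X) (m : ℕ)
  (_ : ∀ x, RA.IsHSphere (link X x) (m + 1))
  (o : ℕ → (Fin (m + 1) → ℕ) → ℤ) (_ : Oriented X ⊥ (m + 1) o)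
  (o' : ℕ → (Fin (m + 1) → ℕ) → ℝ)
  (_ : ∀ v, ∀ s ∈ Dom X (m + 1) v, ∀ j : Fin m,
    o' v (s ∘ Equiv.swap j.castSucc j.succ) = - o' v s)
  (_ : ∀ v, ∀ s ∈ Dom X (m + 1) v,
    o' (s 0) (fun j => if j = 0 then v else corner X v {s 0, s j}) = - o' v s)
  (_ : ∀ v, ∀ s ∈ Dom X (m + 1) v,
    ∑ a ∈ (nbr X v).filter (fun a => Function.update s (Fin.last m) a ∈ Dom X (m + 1) v),
      o' v (Function.update s (Fin.last m) a) = 0),
  ∃ w : ℝ, ∀ v, ∀ s ∈ Dom X (m + 1) v, o' v s = w * o v s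

/-- EVL: evaluation near one vertex -/
def S_EVL : Prop := ∀ (X : SimpleGraph ℕ) (_ : IsMedianGraph X) (_ : LocFin X) (m : ℕ)
  (o : ℕ → (Fin (m + 1) → ℕ) → ℤ) (_ : Oriented X ⊥ (m + 1) o) (x : ℕ)
  (f : (Fin (m + 1) → Finset ℕ) → ℝ)
  (_ : ∀ T : Fin (m + 2) → Finset ℕ, KF (link X x) T → RA.dl f T = 0),
  ∑ v ∈ star X x, ∑ s ∈ Dom X (m + 1) v, (o v s : ℝ) *
      cx X f x (fun i => corner X v (Sp.pre s i)) =
    2 * (-1) ^ m * Finsupp.linearCombination ℝ f (RA.zeta (link X x) (o x))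

end MP8a95ee.Npc
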